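import Pool.Agent.Lib.MR.Num
import Pool.Agent.Lib.MR.Lev

/-!
# MRT: Matomäki–Radziwiłł in almost all bounded intervals, definitions

The characters `χ` of `Lib/MR` are replaced by `n ↦ n^(-ij)`, `j` an integer. The windows of primes are those of `Lib/MR` with `q = 1`.
-/

set_option autoImplicit false

open Finset

namespace Pool.Agent.Lib.MRT

open Pool.Agent.Lib.MR (ex Pw PP VV om Om CM al dn lev)

/-- `n^(-ij)` -/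
noncomputable def cj (j : ℤ) (n : ℕ) : ℂ := Complex.exp (((-(j : ℝ) * Real.log n : ℝ) : ℂ) * Complex.I)

/-- `∑_{y < n ≤ 2y} f(n) n^(-ij)` -/
noncomputable def DD (f : ℕ → ℂ) (y : ℝ) (j : ℤ) : ℂ := ∑ n ∈ Ioc ⌊y⌋₊ ⌊2 * y⌋₊, f n * cj j n

/-- `∑ f(p) p^(-ij)` over the primes of a window -/
noncomputable def QJ (f : ℕ → ℂ) (H v : ℕ) (j : ℤ) : ℂ := ∑ p ∈ Pw 1 H v, f p * cj j p

/-- the exponent of level `E` -/
noncomputable def aj (E : ℕ) : ℝ := al E - 37 / 200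

/-- `j` is small at level `E` -/
def smallj (f : ℕ → ℂ) (E : ℕ) (j : ℤ) : Prop :=
  ∀ v ∈ Ico (E ^ 2) (E ^ 3), ‖QJ f E v j‖ ≤ Real.exp ((1 - aj E) * ((v : ℝ) / E))

/-- at most `x^(1/20)` integers `j` carry little mass -/
def ExcP (f : ℕ → ℂ) : Prop :=
  ∀ η : ℝ, 0 < η → ∃ x0 : ℕ, ∀ x : ℕ, x0 ≤ x → ∀ B : Finset ℤ, (∀ j ∈ B, |(j : ℝ)| ≤ x) →
    (B.card : ℝ) ≤ (x : ℝ) ^ ((1 : ℝ) / 20) → ∑ j ∈ B, ‖∑ n ∈ Icc 1 x, f n * cj j n‖ ^ 2 ≤ η * (x : ℝ) ^ 2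

/-- the weights of Fejér -/
noncomputable def kap (δ : ℝ) (j : ℤ) : ℝ := if j = 0 then δ ^ 2 else min (δ ^ 2) (4 / (j : ℝ) ^ 2)

/-- `∑ a_n` over the `n ∈ (X, 2X]` with `θ < log n ≤ θ + δ` -/
noncomputable def GG (a : ℕ → ℂ) (X : ℕ) (δ θ : ℝ) : ℂ :=
  ∑ n ∈ Ioc X (2 * X), if θ < Real.log n ∧ Real.log n ≤ θ + δ then a n else 0

theorem norm_cj (j : ℤ) (n : ℕ) : ‖cj j n‖ = 1 := by
  unfold cj
  exact Complex.norm_exp_ofReal_mul_I _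

theorem cj_mul (j : ℤ) {m n : ℕ} (hm : m ≠ 0) (hn : n ≠ 0) : cj j (m * n) = cj j m * cj j n := by
  unfold cj
  rw [← Complex.exp_add]
  congr 1
  have h1 : (m : ℝ) ≠ 0 := by exact_mod_cast hm
  have h2 : (n : ℝ) ≠ 0 := by exact_mod_cast hn
  have h3 : (Real.log ((m * n : ℕ) : ℝ)) = Real.log m + Real.log n := by
    rw [Nat.cast_mul, Real.log_mul h1 h2]
  rw [h3]
  push_cast
  ring

theorem cj_sub (j k : ℤ) (n : ℕ) : cj j n * (starRingEnd ℂ) (cj k n) = cj (j - k) n := by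
  unfold cj
  rw [← Complex.exp_conj, ← Complex.exp_add]
  congr 1
  simp only [map_mul, Complex.conj_I, Complex.conj_ofReal]
  push_cast
  ring

theorem cj_one (j : ℤ) : cj j 1 = 1 := by
  unfold cj
  simp

theorem norm_DD_le {f : ℕ → ℂ} (hf : CM f) {y : ℝ} (hy : 0 ≤ y) (j : ℤ) : ‖DD f y j‖ ≤ y + 1 := by
  unfold DD
  refine (norm_sum_le _ _).trans ?_
  have h1 : ∑ n ∈ Ioc ⌊y⌋₊ ⌊2 * y⌋₊, ‖f n * cj j n‖ ≤ ∑ n ∈ Ioc ⌊y⌋₊ ⌊2 * y⌋₊, (1 : ℝ) := by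
    refine sum_le_sum fun n _ => ?_
    rw [norm_mul, norm_cj, mul_one]
    exact hf.le n
  refine h1.trans ?_
  rw [sum_const, nsmul_eq_mul, mul_one, Nat.card_Ioc]
  have h2 : (⌊2 * y⌋₊ : ℝ) ≤ 2 * y := Nat.floor_le (by linarith)
  have h3 : y < (⌊y⌋₊ : ℝ) + 1 := Nat.lt_floor_add_one y
  have h4 : ⌊y⌋₊ ≤ ⌊2 * y⌋₊ := Nat.floor_le_floor (by linarith)
  rw [Nat.cast_sub h4]
  linarith

end Pool.Agent.Lib.MRT
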