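import Pool.Agent.Lib.MRT.Defs
import Pool.Agent.Lib.BV.Quad

/-!
# MRT / Mv: the mean value inequality for `n^(-ij)`, `|j| ≤ T`

PROOF. `mvj`. (1) BLOCK: `N ≥ 1`, a set `S ⊆ Ico N (2N)` of natural numbers, `b : ℕ → ℂ`: `∑_{j ∈ J} ‖∑_{n ∈ S} b n cj j n‖² ≤ 6 (3T + 13 N) ∑_{n ∈ S} ‖b n‖²`: `BV.quad_form` with `s = S`, `x n = -log n/(2π)`, `δ = 1/(13 N)`
(for `n ≠ m` in `[N, 2N)`: `|log n - log m| ≥ 1/(2N)` and `≤ log 2`, so `|x n - x m - k| ≥ 1/(4πN) ≥ 1/(13N)` for every integer `k`: `k = 0` clear, `k ≠ 0`: `≥ 1 - log 2/(2π) ≥ 1/2`), number of frequencies `M = 2⌊T⌋₊ + 1 ≤ 3T`,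
`j = k - ⌊T⌋ - 1`, `k ∈ Icc 1 M`, coefficients `b n e(-(⌊T⌋+1) x n)` (same norm); `e (k x n) = exp(2πi k x n) = n^(-ik)`; drop the `j ∉ J`.
(2) `Icc N0 N1` is the disjoint union of the `K` blocks `S_i = Icc N0 N1 ∩ Ico (N0 2^i) (N0 2^(i+1))`, `i < K`, `K` the least number with `N1 < N0 2^K`, `K ≤ 1 + log(N1/N0)/log 2`; Cauchy-Schwarz: `‖∑ B_i‖² ≤ K ∑ ‖B_i‖²`, `N0 2^i ≤ N1`:
`≤ K (18 T + 78 N1) ∑ ‖a n‖²`, `K ≤ 2 (1 + log(N1/N0))` as `1/log 2 ≤ 2`; `2 · 78 ≤ 200`.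
`mvD`: `y ≥ 1`: `Ioc ⌊y⌋ ⌊2y⌋ = Icc (⌊y⌋+1) ⌊2y⌋`, `N1/N0 ≤ 2`, `log 2 ≤ 1`; number of terms `≤ y + 1 ≤ 2y`, `T + N1 ≤ 2 (T + y)`: `200 · 2 · 2(T+y) · 2y ≤ 2000 (T+y) y`.
-/

set_option autoImplicit false

open Finset

namespace Pool.Agent.Lib.MRT

open Pool.Agent.Lib.MR (ex Pw PP VV om Om CM al dn lev)

/-- The spacing of the logarithms. -/
private theorem mv_space {N n m : ℕ} (hn : n ∈ Ico N (2 * N)) (hm : m ∈ Ico N (2 * N))
    (hlt : m < n) : 1 / (2 * (N : ℝ)) ≤ Real.log n - Real.log m ∧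
      Real.log n - Real.log m ≤ Real.log 2 := by
  rw [mem_Ico] at hn hm
  have hN : 1 ≤ N := by omega
  have hNr : (1 : ℝ) ≤ N := by exact_mod_cast hN
  have hmr : (1 : ℝ) ≤ m := by exact_mod_cast hN.trans hm.1
  have hm0 : (0 : ℝ) < m := by linarith
  have hnr : (m : ℝ) + 1 ≤ n := by exact_mod_cast hlt
  have hn0 : (0 : ℝ) < n := by linarith
  have hn2 : (n : ℝ) ≤ 2 * N := by exact_mod_cast hn.2.le
  have hmN : (N : ℝ) ≤ m := by exact_mod_cast hm.1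
  constructor
  · have h1 : 1 - (m : ℝ) / n ≤ Real.log n - Real.log m := by
      rw [← Real.log_div hn0.ne' hm0.ne']
      have h2 := Real.one_sub_inv_le_log_of_pos (div_pos hn0 hm0)
      rwa [inv_div] at h2
    refine le_trans ?_ h1
    have h3 : 1 - (m : ℝ) / n = (n - m) / n := by field_simp
    rw [h3, div_le_div_iff₀ (by positivity) hn0]
    nlinarith
  · rw [← Real.log_div hn0.ne' hm0.ne']
    refine Real.log_le_log (div_pos hn0 hm0) ?_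
    rw [div_le_iff₀ hm0]
    nlinarith

private theorem mv_cj (j : ℤ) (n : ℕ) :
    Pool.Agent.Lib.GT.e ((j : ℝ) * (-Real.log n / (2 * Real.pi))) = cj j n := by
  unfold Pool.Agent.Lib.GT.e cj
  congr 1
  have hpi : (Real.pi : ℂ) ≠ 0 := by exact_mod_cast Real.pi_ne_zero
  push_cast
  field_simp

/-- One block. -/
private theorem mv_block {T : ℝ} (hT : 1 ≤ T) (J : Finset ℤ) (hJ : ∀ j ∈ J, |(j : ℝ)| ≤ T)
    {N : ℕ} (hN : 1 ≤ N) (S : Finset ℕ) (hS : S ⊆ Ico N (2 * N)) (b : ℕ → ℂ) :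
    ∑ j ∈ J, ‖∑ n ∈ S, b n * cj j n‖ ^ 2 ≤ 6 * (3 * T + 13 * N) * ∑ n ∈ S, ‖b n‖ ^ 2 := by
  classical
  have hNr : (1 : ℝ) ≤ N := by exact_mod_cast hN
  have hpi3 := Real.pi_gt_three
  have hpi4 := Real.pi_lt_d2
  have hpi0 : (0 : ℝ) < 2 * Real.pi := by positivity
  set x : ℕ → ℝ := fun n => -Real.log n / (2 * Real.pi) with hx
  set t0 : ℕ := ⌊T⌋₊ + 1 with ht0
  set M : ℕ := 2 * ⌊T⌋₊ + 1 with hM
  set b' : ℕ → ℂ := fun n => b n * Pool.Agent.Lib.GT.e (-(t0 : ℝ) * x n) with hb'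
  have key : ∀ n ∈ S, ∀ m ∈ S, m < n → ∀ k : ℤ, 1 / (13 * (N : ℝ)) ≤ |x n - x m - k| := by
    intro n hn m hm hlt k
    obtain ⟨h1, h2⟩ := mv_space (hS hn) (hS hm) hlt
    have h3 : x n - x m = -((Real.log n - Real.log m) / (2 * Real.pi)) := by
      simp only [hx]; ring
    have h4 : 1 / (13 * (N : ℝ)) ≤ (Real.log n - Real.log m) / (2 * Real.pi) := by
      rw [div_le_div_iff₀ (by positivity) hpi0]
      rw [div_le_iff₀ (by positivity)] at h1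
      nlinarith
    have h5 : (Real.log n - Real.log m) / (2 * Real.pi) ≤ 1 / 2 := by
      rw [div_le_iff₀ hpi0]
      have := Real.log_two_lt_d9
      linarith
    have h6 : 0 ≤ (Real.log n - Real.log m) / (2 * Real.pi) := le_trans (by positivity) h4
    rw [h3]
    by_cases hk : k = 0
    · subst hk
      rw [Int.cast_zero, sub_zero, abs_neg, abs_of_nonneg h6]
      exact h4
    · have h7 : (1 : ℝ) ≤ |(k : ℝ)| := by
        have : (1 : ℤ) ≤ |k| := Int.one_le_abs hk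
        exact_mod_cast this
      have h8 : 1 / (13 * (N : ℝ)) ≤ 1 / 2 := by
        rw [div_le_div_iff₀ (by positivity) (by norm_num)]
        linarith
      have h9 : |(k : ℝ)| ≤ |-((Real.log n - Real.log m) / (2 * Real.pi)) - k| +
          |(Real.log n - Real.log m) / (2 * Real.pi)| := by
        have h10 : (k : ℝ) = -((-((Real.log n - Real.log m) / (2 * Real.pi)) - k) +
            (Real.log n - Real.log m) / (2 * Real.pi)) := by ring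
        calc |(k : ℝ)| = |(-((Real.log n - Real.log m) / (2 * Real.pi)) - k) +
            (Real.log n - Real.log m) / (2 * Real.pi)| := by
              conv_lhs => rw [h10, abs_neg]
          _ ≤ _ := abs_add_le _ _
      rw [abs_of_nonneg h6] at h9
      linarith
  have hq := Pool.Agent.Lib.BV.quad_form S x (1 / (13 * (N : ℝ))) (by positivity) (by
    intro n hn m hm hne k
    rcases lt_or_gt_of_ne hne with h | h
    · have := key m hm n hn h (-k)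
      have e1 : |x m - x n - ((-k : ℤ) : ℝ)| = |x n - x m - k| := by
        rw [← abs_neg]
        congr 1
        push_cast
        ring
      rwa [e1] at this
    · exact key n hn m hm h k) M b'
  have hb'n : ∀ n ∈ S, ‖b' n‖ ^ 2 = ‖b n‖ ^ 2 := by
    intro n _
    simp only [hb']
    rw [norm_mul, Pool.Agent.Lib.GT.norm_e, mul_one]
  rw [sum_congr rfl hb'n] at hq
  have hk : ∀ k : ℕ, ∑ n ∈ S, b' n * Pool.Agent.Lib.GT.e (k * x n) =
      ∑ n ∈ S, b n * cj ((k : ℤ) - t0) n := by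
    intro k
    refine sum_congr rfl fun n _ => ?_
    simp only [hb']
    rw [mul_assoc, ← Pool.Agent.Lib.GT.e_add, ← mv_cj]
    congr 2
    simp only [hx]
    push_cast
    ring
  simp only [hk] at hq
  -- drop the frequencies which are not in `J`
  have hinj : Set.InjOn (fun k : ℕ => (k : ℤ) - t0) (Icc 1 M : Finset ℕ) := by
    intro k _ l _ h
    simp only at h
    omega
  have hsub : J ⊆ (Icc 1 M).image fun k : ℕ => (k : ℤ) - t0 := by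
    intro j hj
    have h1 := hJ j hj
    have h2 : |j| ≤ (⌊T⌋₊ : ℤ) := by
      have h3 : ((|j| : ℤ) : ℝ) ≤ T := by rw [Int.cast_abs]; exact h1
      have h4 : (j.natAbs : ℝ) ≤ T := by
        rw [Nat.cast_natAbs]; exact h3
      have h5 : j.natAbs ≤ ⌊T⌋₊ := Nat.le_floor h4
      rw [Int.abs_eq_natAbs]
      exact_mod_cast h5
    rw [abs_le] at h2
    rw [mem_image]
    refine ⟨(j + t0).toNat, ?_, ?_⟩
    · rw [mem_Icc]
      omega
    · have : 0 ≤ j + (t0 : ℤ) := by omega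
      rw [Int.toNat_of_nonneg this]
      ring
  have h1 : ∑ j ∈ J, ‖∑ n ∈ S, b n * cj j n‖ ^ 2 ≤
      ∑ k ∈ Icc 1 M, ‖∑ n ∈ S, b n * cj ((k : ℤ) - t0) n‖ ^ 2 := by
    rw [← sum_image (f := fun j : ℤ => ‖∑ n ∈ S, b n * cj j n‖ ^ 2) hinj]
    exact sum_le_sum_of_subset_of_nonneg hsub fun _ _ _ => sq_nonneg _
  refine h1.trans (hq.trans ?_)
  refine mul_le_mul_of_nonneg_right ?_ (sum_nonneg fun _ _ => sq_nonneg _)
  have h2 : (M : ℝ) ≤ 3 * T := by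
    have h3 := Nat.floor_le (by linarith : (0 : ℝ) ≤ T)
    rw [hM]
    push_cast
    linarith
  rw [one_div_one_div]
  linarith

/-- The sum over the dyadic blocks. -/
private theorem mv_split {N0 N1 K : ℕ} (h0 : 1 ≤ N0) (hK : N1 < N0 * 2 ^ K) {M : Type*}
    [AddCommMonoid M] (g : ℕ → M) :
    ∑ n ∈ Icc N0 N1, g n = ∑ i ∈ range K,
      ∑ n ∈ (Icc N0 N1).filter (fun n => N0 * 2 ^ i ≤ n ∧ n < N0 * 2 ^ (i + 1)), g n := by
  classical
  have hex : ∀ n ∈ Icc N0 N1, ∃ i ∈ range K, N0 * 2 ^ i ≤ n ∧ n < N0 * 2 ^ (i + 1) := by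
    intro n hn
    rw [mem_Icc] at hn
    have hP : ∃ i, n < N0 * 2 ^ i := ⟨K, by omega⟩
    have h1 := Nat.find_spec hP
    have h2 : Nat.find hP ≤ K := Nat.find_min' hP (by omega)
    have h3 : Nat.find hP ≠ 0 := by
      intro h
      rw [h, pow_zero, mul_one] at h1
      omega
    refine ⟨Nat.find hP - 1, ?_, ?_, ?_⟩
    · rw [mem_range]; omega
    · exact not_lt.1 (Nat.find_min hP (by omega))
    · have : Nat.find hP - 1 + 1 = Nat.find hP := by omega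
      rw [this]
      exact h1
  have huniq : ∀ n i j : ℕ, (N0 * 2 ^ i ≤ n ∧ n < N0 * 2 ^ (i + 1)) →
      (N0 * 2 ^ j ≤ n ∧ n < N0 * 2 ^ (j + 1)) → i ≤ j := by
    intro n i j hi hj
    by_contra h
    have h1 : j + 1 ≤ i := by omega
    have h2 : N0 * 2 ^ (j + 1) ≤ N0 * 2 ^ i :=
      Nat.mul_le_mul_left _ (Nat.pow_le_pow_right (by norm_num) h1)
    omega
  simp only [sum_filter]
  rw [sum_comm]
  refine sum_congr rfl fun n hn => ?_
  obtain ⟨i, hi, hin⟩ := hex n hn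
  rw [sum_eq_single_of_mem i hi]
  · rw [if_pos hin]
  · intro j _ hji
    rw [if_neg]
    intro hjn
    exact hji (le_antisymm (huniq n j i hjn hin) (huniq n i j hin hjn))

theorem mvj {T : ℝ} (hT : 1 ≤ T) (J : Finset ℤ) (hJ : ∀ j ∈ J, |(j : ℝ)| ≤ T) {N0 N1 : ℕ} (h0 : 1 ≤ N0) (h1 : N0 ≤ N1)
    (a : ℕ → ℂ) :
    ∑ j ∈ J, ‖∑ n ∈ Icc N0 N1, a n * cj j n‖ ^ 2 ≤
      200 * (1 + Real.log ((N1 : ℝ) / N0)) * (T + N1) * ∑ n ∈ Icc N0 N1, ‖a n‖ ^ 2 := by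
  classical
  have hN0 : (1 : ℝ) ≤ N0 := by exact_mod_cast h0
  have hN1 : (N0 : ℝ) ≤ N1 := by exact_mod_cast h1
  -- the number of blocks
  have hP : ∃ K, N1 < N0 * 2 ^ K := ⟨N1, by
    have h2 : N1 < 2 ^ N1 := Nat.lt_two_pow_self
    have h3 : 1 * 2 ^ N1 ≤ N0 * 2 ^ N1 := Nat.mul_le_mul_right _ h0
    omega⟩
  set K := Nat.find hP with hK
  have hK1 : N1 < N0 * 2 ^ K := Nat.find_spec hP
  have hK0 : K ≠ 0 := by
    intro h
    rw [h, pow_zero, mul_one] at hK1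
    omega
  have hK2 : N0 * 2 ^ (K - 1) ≤ N1 := not_lt.1 (Nat.find_min hP (by omega))
  set l := Real.log ((N1 : ℝ) / N0) with hl
  have hl0 : 0 ≤ l := by
    rw [hl]
    refine Real.log_nonneg ?_
    rw [one_le_div (by linarith)]
    exact hN1
  have hKl : (K : ℝ) ≤ 2 * (1 + l) := by
    have h2 : ((K - 1 : ℕ) : ℝ) * Real.log 2 ≤ l := by
      rw [← Real.log_pow, hl]
      refine Real.log_le_log (by positivity) ?_
      rw [le_div_iff₀ (by linarith)]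
      have h3 : ((N0 * 2 ^ (K - 1) : ℕ) : ℝ) ≤ N1 := by exact_mod_cast hK2
      push_cast at h3
      linarith
    have h3 := Real.log_two_gt_d9
    have h4 : (K : ℝ) = ((K - 1 : ℕ) : ℝ) + 1 := by
      have : K = (K - 1) + 1 := by omega
      exact_mod_cast this
    have h5 : (0 : ℝ) ≤ ((K - 1 : ℕ) : ℝ) := Nat.cast_nonneg _
    nlinarith
  -- the blocks
  set S : ℕ → Finset ℕ := fun i =>
    (Icc N0 N1).filter (fun n => N0 * 2 ^ i ≤ n ∧ n < N0 * 2 ^ (i + 1)) with hS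
  have hblock : ∀ i, ∑ j ∈ J, ‖∑ n ∈ S i, a n * cj j n‖ ^ 2 ≤
      6 * (3 * T + 13 * N1) * ∑ n ∈ S i, ‖a n‖ ^ 2 := by
    intro i
    rcases (S i).eq_empty_or_nonempty with he | ⟨n, hn⟩
    · rw [he]
      simp
    · have hn' := mem_filter.1 hn
      have h2 : N0 * 2 ^ i ≤ N1 := hn'.2.1.trans (mem_Icc.1 hn'.1).2
      have h3 := mv_block hT J hJ (N := N0 * 2 ^ i)
        (Nat.one_le_iff_ne_zero.2 (by positivity)) (S i) (by
          intro m hm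
          have hm' := (mem_filter.1 hm).2
          rw [mem_Ico]
          refine ⟨hm'.1, ?_⟩
          have : 2 * (N0 * 2 ^ i) = N0 * 2 ^ (i + 1) := by ring
          rw [this]
          exact hm'.2) a
      refine h3.trans ?_
      refine mul_le_mul_of_nonneg_right ?_ (sum_nonneg fun _ _ => sq_nonneg _)
      have h4 : ((N0 * 2 ^ i : ℕ) : ℝ) ≤ N1 := by exact_mod_cast h2
      linarith
  calc ∑ j ∈ J, ‖∑ n ∈ Icc N0 N1, a n * cj j n‖ ^ 2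
      = ∑ j ∈ J, ‖∑ i ∈ range K, ∑ n ∈ S i, a n * cj j n‖ ^ 2 := by
        refine sum_congr rfl fun j _ => ?_
        rw [mv_split h0 hK1]
    _ ≤ ∑ j ∈ J, (K : ℝ) * ∑ i ∈ range K, ‖∑ n ∈ S i, a n * cj j n‖ ^ 2 := by
        refine sum_le_sum fun j _ => ?_
        have h2 : ‖∑ i ∈ range K, ∑ n ∈ S i, a n * cj j n‖ ≤
            ∑ i ∈ range K, ‖∑ n ∈ S i, a n * cj j n‖ := norm_sum_le _ _
        refine (pow_le_pow_left₀ (norm_nonneg _) h2 2).trans ?_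
        have h3 := sq_sum_le_card_mul_sum_sq (s := range K)
          (f := fun i => ‖∑ n ∈ S i, a n * cj j n‖)
        rwa [card_range] at h3
    _ = (K : ℝ) * ∑ i ∈ range K, ∑ j ∈ J, ‖∑ n ∈ S i, a n * cj j n‖ ^ 2 := by
        rw [← mul_sum, sum_comm]
    _ ≤ (K : ℝ) * ∑ i ∈ range K, 6 * (3 * T + 13 * N1) * ∑ n ∈ S i, ‖a n‖ ^ 2 := by
        refine mul_le_mul_of_nonneg_left (sum_le_sum fun i _ => hblock i) (Nat.cast_nonneg _)
    _ = (K : ℝ) * (6 * (3 * T + 13 * N1)) * ∑ n ∈ Icc N0 N1, ‖a n‖ ^ 2 := by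
        rw [← mul_sum, mv_split h0 hK1 (fun n => ‖a n‖ ^ 2)]
        ring
    _ ≤ 200 * (1 + l) * (T + N1) * ∑ n ∈ Icc N0 N1, ‖a n‖ ^ 2 := by
        refine mul_le_mul_of_nonneg_right ?_ (sum_nonneg fun _ _ => sq_nonneg _)
        have h2 : (0 : ℝ) ≤ 6 * (3 * T + 13 * N1) := by
          have : (0 : ℝ) ≤ N1 := Nat.cast_nonneg _
          linarith
        calc (K : ℝ) * (6 * (3 * T + 13 * N1)) ≤ 2 * (1 + l) * (6 * (3 * T + 13 * N1)) :=
              mul_le_mul_of_nonneg_right hKl h2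
          _ = (1 + l) * (36 * T + 156 * N1) := by ring
          _ ≤ (1 + l) * (200 * (T + N1)) := by
              refine mul_le_mul_of_nonneg_left ?_ (by linarith)
              have : (0 : ℝ) ≤ N1 := Nat.cast_nonneg _
              linarith
          _ = 200 * (1 + l) * (T + N1) := by ring

theorem mvD {f : ℕ → ℂ} (hf : CM f) {T : ℝ} (hT : 1 ≤ T) (J : Finset ℤ) (hJ : ∀ j ∈ J, |(j : ℝ)| ≤ T) {y : ℝ} (hy : 1 ≤ y) :
    ∑ j ∈ J, ‖DD f y j‖ ^ 2 ≤ 2000 * (T + y) * y := by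
  have hy0 : (0 : ℝ) ≤ y := by linarith
  have h0 : 1 ≤ ⌊y⌋₊ + 1 := by omega
  have h1 : ⌊y⌋₊ + 1 ≤ ⌊2 * y⌋₊ := by
    refine Nat.le_floor ?_
    push_cast
    have := Nat.floor_le hy0
    linarith
  have h2 := mvj hT J hJ h0 h1 f
  have h3 : ∀ j : ℤ, DD f y j = ∑ n ∈ Icc (⌊y⌋₊ + 1) ⌊2 * y⌋₊, f n * cj j n := by
    intro j
    unfold DD
    refine sum_congr ?_ fun _ _ => rfl
    ext n
    rw [mem_Ioc, mem_Icc]
    omega
  simp only [h3]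
  refine h2.trans ?_
  have h4 : (⌊2 * y⌋₊ : ℝ) ≤ 2 * y := Nat.floor_le (by linarith)
  have h5 : y < (⌊y⌋₊ : ℝ) + 1 := Nat.lt_floor_add_one y
  have h6 : Real.log ((⌊2 * y⌋₊ : ℝ) / ((⌊y⌋₊ + 1 : ℕ) : ℝ)) ≤ 1 := by
    have h7 : (⌊2 * y⌋₊ : ℝ) / ((⌊y⌋₊ + 1 : ℕ) : ℝ) ≤ 2 := by
      rw [div_le_iff₀ (by positivity)]
      push_cast
      linarith
    have h8 : (0 : ℝ) < (⌊2 * y⌋₊ : ℝ) / ((⌊y⌋₊ + 1 : ℕ) : ℝ) := by
      have : 0 < ⌊2 * y⌋₊ := by omega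
      positivity
    have h9 := Real.log_le_log h8 h7
    have := Real.log_two_lt_d9
    linarith
  have h6' : 0 ≤ Real.log ((⌊2 * y⌋₊ : ℝ) / ((⌊y⌋₊ + 1 : ℕ) : ℝ)) := by
    refine Real.log_nonneg ?_
    rw [one_le_div (by positivity)]
    exact_mod_cast h1
  have h7 : ∑ n ∈ Icc (⌊y⌋₊ + 1) ⌊2 * y⌋₊, ‖f n‖ ^ 2 ≤ 2 * y := by
    calc ∑ n ∈ Icc (⌊y⌋₊ + 1) ⌊2 * y⌋₊, ‖f n‖ ^ 2
        ≤ ∑ _n ∈ Icc (⌊y⌋₊ + 1) ⌊2 * y⌋₊, (1 : ℝ) :=
          sum_le_sum fun n _ => pow_le_one₀ (norm_nonneg _) (hf.le n)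
      _ = ((⌊2 * y⌋₊ + 1 - (⌊y⌋₊ + 1) : ℕ) : ℝ) := by
          rw [sum_const, nsmul_eq_mul, mul_one, Nat.card_Icc]
      _ ≤ 2 * y := by
          have h8 : ⌊2 * y⌋₊ + 1 - (⌊y⌋₊ + 1) = ⌊2 * y⌋₊ - ⌊y⌋₊ := by omega
          rw [h8, Nat.cast_sub (by omega)]
          linarith
  have h8 : 0 ≤ ∑ n ∈ Icc (⌊y⌋₊ + 1) ⌊2 * y⌋₊, ‖f n‖ ^ 2 := sum_nonneg fun _ _ => sq_nonneg _
  calc 200 * (1 + Real.log ((⌊2 * y⌋₊ : ℝ) / ((⌊y⌋₊ + 1 : ℕ) : ℝ))) * (T + ⌊2 * y⌋₊) *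
        ∑ n ∈ Icc (⌊y⌋₊ + 1) ⌊2 * y⌋₊, ‖f n‖ ^ 2
      ≤ 200 * (1 + 1) * (T + 2 * y) * (2 * y) := by
        gcongr
    _ ≤ 2000 * (T + y) * y := by nlinarith

end Pool.Agent.Lib.MRT
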