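import Pool.Agent.Lib.MRT.MomA
import Pool.Agent.Lib.MRT.Mv
import Pool.Agent.Lib.MR.Mom

/-!
# MRT / Mom (45 minutes): moments and counting

`momentj`: copy of `MR.moment`. `b' n = b n` for `n ∈ Icc Y0 Y1`, else `0`; `Z0 = ⌊Z⌋₊`. `cc_expandj`; by `cc_lower` the coefficients vanish below `N0 = W^l Y0`, so the sum over `Icc 1 (Z0^l Y1)` is the sum over `Icc N0 N1`, `N1 = Z0^l Y1`
(`N0 ≤ N1` as `W ≤ Z0` if `P` is not empty; if `P = ∅` and `l ≥ 1` the left side is `0`, if `l = 0` both are direct; or: `W ≤ Z` may be derived from a prime of `P`). `mvj` with `log(N1/N0) ≤ l log(Z/W) + log(Y1/Y0) ≤ (l + 1) log 2 ≤ l + 1`: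
factor `200 (2 + l)`. `∑ ‖cc‖² ≤ |P|^l ∑_{m ≤ Y1} (Om P m + l)^l ≤ 2 l^l Z^l Y1` (`MR.cc_sq`, `MR.omm`, `(w + l)^l ≤ l^l 3^w`: private lemma `mom_aux1` of `MR/Mom`, copy it).
`cntj`: `momentj` with `Y0 = Y1 = 1`, `b = 1`: `cj j 1 = 1`; `(T + Z^l)(2 l^l Z^l) ≤ 4 l^l Z^(2l)`.
`momwj`: `MR.Pw_good 1`, `Z = ex H (v+1)`, `W = ⌊ex H v⌋₊ + 1` (`p > ex H v`), `Z ≤ 2 W` (`ex_succ`, `ex_one`: `ex H 1 ≤ 1 + 2/32`); `Y0 = ⌊y⌋₊ + 1`, `Y1 = ⌊2y⌋₊ ≤ 2 Y0`, `Y1 ≤ 2y`: `200 (2+l)(T + 2 Z^l y)(2 l^l Z^l 2y)`.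
-/

set_option autoImplicit false

open Finset

namespace Pool.Agent.Lib.MRT

open Pool.Agent.Lib.MR (ex Pw PP VV om Om CM al dn lev)

private theorem momj_aux (w l : ℕ) : ((w : ℝ) + l) ^ l ≤ (l : ℝ) ^ l * 3 ^ w := by
  rcases Nat.eq_zero_or_pos l with h | h
  · subst h
    simp only [pow_zero, one_mul]
    exact one_le_pow₀ (by norm_num)
  · have hl : (0 : ℝ) < l := by exact_mod_cast h
    have h1 : ((w : ℝ) + l) = l * (1 + w / l) := by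
      field_simp
      ring
    rw [h1, mul_pow]
    refine mul_le_mul_of_nonneg_left ?_ (by positivity)
    have h2 : (1 + (w : ℝ) / l) ≤ Real.exp (w / l) := by
      have := Real.add_one_le_exp ((w : ℝ) / l)
      linarith
    calc (1 + (w : ℝ) / l) ^ l ≤ Real.exp (w / l) ^ l := pow_le_pow_left₀ (by positivity) h2 l
      _ = Real.exp 1 ^ w := by
          rw [← Real.exp_nat_mul, ← Real.exp_nat_mul]
          congr 1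
          field_simp
      _ ≤ 3 ^ w := by
          refine pow_le_pow_left₀ (Real.exp_pos _).le ?_ w
          have := Real.exp_one_lt_d9
          linarith

private theorem momj_log {W Z0 Y0 Y1 l : ℕ} (hW1 : 1 ≤ W) (hZW : Z0 ≤ 2 * W) (h0 : 1 ≤ Y0) (hWZ : W ≤ Z0)
    (h01 : Y0 ≤ Y1) (h10 : Y1 ≤ 2 * Y0) :
    Real.log (((Z0 ^ l * Y1 : ℕ) : ℝ) / ((W ^ l * Y0 : ℕ) : ℝ)) ≤ l + 1 := by
  have hW : (0 : ℝ) < W := by exact_mod_cast hW1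
  have hY : (0 : ℝ) < Y0 := by exact_mod_cast h0
  have hZ : (0 : ℝ) < Z0 := by exact_mod_cast lt_of_lt_of_le hW1 hWZ
  have hY1 : (0 : ℝ) < Y1 := by exact_mod_cast lt_of_lt_of_le h0 h01
  have h1 : ((Z0 ^ l * Y1 : ℕ) : ℝ) / ((W ^ l * Y0 : ℕ) : ℝ) ≤ 2 ^ (l + 1) := by
    rw [div_le_iff₀ (by exact_mod_cast Nat.mul_pos (pow_pos hW1 l) h0)]
    push_cast
    have h2 : (Z0 : ℝ) ^ l ≤ (2 * W) ^ l := pow_le_pow_left₀ hZ.le (by exact_mod_cast hZW) l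
    have h3 : (Y1 : ℝ) ≤ 2 * Y0 := by exact_mod_cast h10
    calc (Z0 : ℝ) ^ l * Y1 ≤ (2 * W) ^ l * (2 * Y0) := mul_le_mul h2 h3 hY1.le (by positivity)
      _ = 2 ^ (l + 1) * (W ^ l * Y0) := by rw [mul_pow, pow_succ]; ring
  have h4 : (0 : ℝ) < ((Z0 ^ l * Y1 : ℕ) : ℝ) / ((W ^ l * Y0 : ℕ) : ℝ) := by
    push_cast
    positivity
  refine (Real.log_le_log h4 h1).trans ?_
  rw [Real.log_pow]
  push_cast
  have h5 : Real.log 2 ≤ 1 := by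
    have := Real.log_two_lt_d9
    linarith
  have h6 : (0 : ℝ) ≤ (l : ℝ) + 1 := by positivity
  calc ((l : ℝ) + 1) * Real.log 2 ≤ ((l : ℝ) + 1) * 1 := mul_le_mul_of_nonneg_left h5 h6
    _ = l + 1 := mul_one _

theorem momentj {P : Finset ℕ} {Z : ℝ} {W : ℕ} (hP : ∀ p ∈ P, p.Prime ∧ 7 ≤ p ∧ (p : ℝ) ≤ Z) (hW : ∀ p ∈ P, W ≤ p) (hW1 : 1 ≤ W)
    (hZW : Z ≤ 2 * W) (hWZ : (W : ℝ) ≤ Z) (hc : (P.card : ℝ) ≤ Z) (hS : ∑ p ∈ P, (1 : ℝ) / p ≤ 1 / 8) {a b : ℕ → ℂ} (ha : ∀ n, ‖a n‖ ≤ 1)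
    (hb : ∀ n, ‖b n‖ ≤ 1) (l : ℕ) {Y0 Y1 : ℕ} (h0 : 1 ≤ Y0) (h01 : Y0 ≤ Y1) (h10 : Y1 ≤ 2 * Y0)
    {T : ℝ} (hT : 1 ≤ T) (J : Finset ℤ) (hJ : ∀ j ∈ J, |(j : ℝ)| ≤ T) :
    ∑ j ∈ J, ‖∑ p ∈ P, a p * cj j p‖ ^ (2 * l) * ‖∑ m ∈ Icc Y0 Y1, b m * cj j m‖ ^ 2 ≤
      200 * (2 + l) * (T + Z ^ l * Y1) * (2 * (l : ℝ) ^ l * Z ^ l * Y1) := by
  classical
  set Z0 := ⌊Z⌋₊ with hZ0
  have hZ1 : (1 : ℝ) ≤ Z := le_trans (by exact_mod_cast hW1) hWZ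
  have hZ' : 0 ≤ Z := by linarith
  have hZ0Z : (Z0 : ℝ) ≤ Z := Nat.floor_le hZ'
  have hWZ0 : W ≤ Z0 := Nat.le_floor hWZ
  have hZ0W : Z0 ≤ 2 * W := by
    have h2 : (Z0 : ℝ) ≤ ((2 * W : ℕ) : ℝ) := by
      push_cast
      linarith
    exact_mod_cast h2
  let b' : ℕ → ℂ := fun n => if n ∈ Icc Y0 Y1 then b n else 0
  have hb0 : ∀ n, n ∉ Icc 1 Y1 → b' n = 0 := fun n hn => by
    simp only [b']
    rw [if_neg]
    intro h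
    apply hn
    rw [mem_Icc] at h ⊢
    exact ⟨h0.trans h.1, h.2⟩
  have hb0' : ∀ n, n < Y0 → b' n = 0 := fun n hn => by
    simp only [b']
    rw [if_neg]
    intro h
    rw [mem_Icc] at h
    omega
  have hb1 : ∀ n, ‖b' n‖ ≤ 1 := fun n => by
    simp only [b']
    split_ifs with h
    · exact hb n
    · simp
  have hP0 : ∀ p ∈ P, p.Prime ∧ p ≤ Z0 := fun p hp =>
    ⟨(hP p hp).1, Nat.le_floor (hP p hp).2.2⟩
  have hN0 : 1 ≤ W ^ l * Y0 := Nat.mul_pos (pow_pos hW1 l) h0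
  have hN : W ^ l * Y0 ≤ Z0 ^ l * Y1 := Nat.mul_le_mul (Nat.pow_le_pow_left hWZ0 l) h01
  have h1 : ∀ j : ℤ, ‖∑ p ∈ P, a p * cj j p‖ ^ (2 * l) * ‖∑ m ∈ Icc Y0 Y1, b m * cj j m‖ ^ 2 =
        ‖∑ n ∈ Icc (W ^ l * Y0) (Z0 ^ l * Y1), Pool.Agent.Lib.MR.cc P a b' l n * cj j n‖ ^ 2 := by
    intro j
    have e1 : ∑ n ∈ Icc (W ^ l * Y0) (Z0 ^ l * Y1), Pool.Agent.Lib.MR.cc P a b' l n * cj j n =
        ∑ n ∈ Icc 1 (Z0 ^ l * Y1), Pool.Agent.Lib.MR.cc P a b' l n * cj j n := by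
      refine sum_subset (Icc_subset_Icc_left hN0) fun n hn hn' => ?_
      rw [mem_Icc] at hn hn'
      rw [cc_lower hW hb0' l n (by omega), zero_mul]
    have e2 : ∑ m ∈ Icc Y0 Y1, b m * cj j m = ∑ m ∈ Icc 1 Y1, b' m * cj j m := by
      have e3 : ∑ m ∈ Icc Y0 Y1, b m * cj j m = ∑ m ∈ Icc Y0 Y1, b' m * cj j m :=
        sum_congr rfl fun m hm => by simp only [b', if_pos hm]
      rw [e3]
      refine sum_subset (Icc_subset_Icc_left h0) fun n hn hn' => ?_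
      simp only [b', if_neg hn', zero_mul]
    rw [e1, ← cc_expandj hP0 hb0 j l, norm_mul, norm_pow, mul_pow, ← pow_mul, mul_comm l 2, e2]
  rw [sum_congr rfl fun j _ => h1 j]
  have h2 := mvj hT J hJ hN0 hN (Pool.Agent.Lib.MR.cc P a b' l)
  have h3 := Pool.Agent.Lib.MR.cc_sq (Y := Y1) hP0 hb0 ha hb1 l
  have h4 : ∑ m ∈ Icc 1 Y1, ((Om P m : ℝ) + l) ^ l ≤ (l : ℝ) ^ l * (2 * Y1) := by
    calc ∑ m ∈ Icc 1 Y1, ((Om P m : ℝ) + l) ^ l ≤ ∑ m ∈ Icc 1 Y1, (l : ℝ) ^ l * 3 ^ (Om P m) :=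
          sum_le_sum fun m _ => momj_aux _ _
      _ = (l : ℝ) ^ l * ∑ m ∈ Icc 1 Y1, (3 : ℝ) ^ (Om P m) := by rw [mul_sum]
      _ ≤ (l : ℝ) ^ l * (2 * Y1) :=
          mul_le_mul_of_nonneg_left
            (Pool.Agent.Lib.MR.omm P (fun p hp => ⟨(hP p hp).1, (hP p hp).2.1⟩) hS Y1) (by positivity)
  have h5 : ∑ n ∈ Icc (W ^ l * Y0) (Z0 ^ l * Y1), ‖Pool.Agent.Lib.MR.cc P a b' l n‖ ^ 2 ≤ 2 * (l : ℝ) ^ l * Z ^ l * Y1 := by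
    calc ∑ n ∈ Icc (W ^ l * Y0) (Z0 ^ l * Y1), ‖Pool.Agent.Lib.MR.cc P a b' l n‖ ^ 2 ≤
          ∑ n ∈ Icc 1 (Z0 ^ l * Y1), ‖Pool.Agent.Lib.MR.cc P a b' l n‖ ^ 2 :=
          sum_le_sum_of_subset_of_nonneg (Icc_subset_Icc_left hN0) fun _ _ _ => by positivity
      _ ≤ (P.card : ℝ) ^ l * ∑ m ∈ Icc 1 Y1, ((Om P m : ℝ) + l) ^ l := h3
      _ ≤ Z ^ l * ((l : ℝ) ^ l * (2 * Y1)) :=
          mul_le_mul (pow_le_pow_left₀ (Nat.cast_nonneg _) hc l) h4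
            (sum_nonneg fun _ _ => by positivity) (by positivity)
      _ = 2 * (l : ℝ) ^ l * Z ^ l * Y1 := by ring
  have h6 := momj_log (l := l) hW1 hZ0W h0 hWZ0 h01 h10
  have h7 : T + ((Z0 ^ l * Y1 : ℕ) : ℝ) ≤ T + Z ^ l * Y1 := by
    push_cast
    have h8 : (Z0 : ℝ) ^ l * Y1 ≤ Z ^ l * Y1 :=
      mul_le_mul_of_nonneg_right (pow_le_pow_left₀ (Nat.cast_nonneg _) hZ0Z l) (Nat.cast_nonneg _)
    linarith
  have hT0 : 0 ≤ T + ((Z0 ^ l * Y1 : ℕ) : ℝ) := by positivity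
  refine h2.trans (mul_le_mul ?_ h5 (sum_nonneg fun _ _ => by positivity) (by positivity))
  exact mul_le_mul (by linarith) h7 hT0 (by positivity)

theorem cntj {P : Finset ℕ} {Z : ℝ} {W : ℕ} (hP : ∀ p ∈ P, p.Prime ∧ 7 ≤ p ∧ (p : ℝ) ≤ Z) (hW : ∀ p ∈ P, W ≤ p) (hW1 : 1 ≤ W)
    (hZW : Z ≤ 2 * W) (hWZ : (W : ℝ) ≤ Z) (hc : (P.card : ℝ) ≤ Z) (hS : ∑ p ∈ P, (1 : ℝ) / p ≤ 1 / 8) {a : ℕ → ℂ} (ha : ∀ n, ‖a n‖ ≤ 1)
    {T : ℝ} (hT : 1 ≤ T) {l : ℕ} (hl : T ≤ Z ^ l) {τ : ℝ} (hτ : 0 ≤ τ) (U : Finset ℤ) (hU : ∀ j ∈ U, |(j : ℝ)| ≤ T)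
    (hQ : ∀ j ∈ U, τ ≤ ‖∑ p ∈ P, a p * cj j p‖) :
    (U.card : ℝ) * τ ^ (2 * l) ≤ 800 * (2 + l) * (l : ℝ) ^ l * Z ^ (2 * l) := by
  classical
  have h1 := momentj hP hW hW1 hZW hWZ hc hS ha (b := fun _ => 1) (fun _ => by simp) l
    (Y0 := 1) (Y1 := 1) le_rfl le_rfl (by norm_num) hT U hU
  have h2 : ∀ j : ℤ, ‖∑ m ∈ Icc 1 1, (fun _ => (1 : ℂ)) m * cj j m‖ ^ 2 = 1 := by
    intro j
    rw [Icc_self, sum_singleton, cj_one]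
    simp
  have h3 : (U.card : ℝ) * τ ^ (2 * l) ≤ ∑ j ∈ U, ‖∑ p ∈ P, a p * cj j p‖ ^ (2 * l) := by
    rw [← nsmul_eq_mul]
    refine card_nsmul_le_sum _ _ _ fun j hj => ?_
    exact pow_le_pow_left₀ hτ (hQ j hj) _
  have h4 : ∑ j ∈ U, ‖∑ p ∈ P, a p * cj j p‖ ^ (2 * l) =
      ∑ j ∈ U, ‖∑ p ∈ P, a p * cj j p‖ ^ (2 * l) *
        ‖∑ m ∈ Icc 1 1, (fun _ => (1 : ℂ)) m * cj j m‖ ^ 2 :=
    sum_congr rfl fun j _ => by rw [h2 j, mul_one]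
  rw [h4] at h3
  refine (h3.trans h1).trans ?_
  have hZ : (0 : ℝ) ≤ Z := le_trans (Nat.cast_nonneg _) hWZ
  have hZl : 0 ≤ Z ^ l := by positivity
  rw [Nat.cast_one, mul_one, mul_one]
  calc 200 * (2 + (l : ℝ)) * (T + Z ^ l) * (2 * (l : ℝ) ^ l * Z ^ l) ≤
      200 * (2 + (l : ℝ)) * (Z ^ l + Z ^ l) * (2 * (l : ℝ) ^ l * Z ^ l) := by gcongr
    _ = 800 * (2 + l) * (l : ℝ) ^ l * Z ^ (2 * l) := by rw [mul_comm 2 l, pow_mul]; ring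

theorem momwj {f : ℕ → ℂ} (hf : CM f) {H v : ℕ} (hH : 32 ≤ H) (hv : 16 ≤ ex H v) (l : ℕ) {y : ℝ} (hy : 1 ≤ y)
    {T : ℝ} (hT : 1 ≤ T) (J : Finset ℤ) (hJ : ∀ j ∈ J, |(j : ℝ)| ≤ T) :
    ∑ j ∈ J, ‖QJ f H v j‖ ^ (2 * l) * ‖DD f y j‖ ^ 2 ≤
      200 * (2 + l) * (T + 2 * (ex H (v + 1) ^ l * y)) * (4 * (l : ℝ) ^ l * (ex H (v + 1) ^ l * y)) := by
  classical
  obtain ⟨h1, h2, h3⟩ := Pool.Agent.Lib.MR.Pw_good 1 hH hv
  have hy0 : (0 : ℝ) ≤ y := by linarith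
  have hZ0 : (0 : ℝ) ≤ ex H (v + 1) := (Pool.Agent.Lib.MR.ex_pos _ _).le
  have hY01 : ⌊y⌋₊ + 1 ≤ ⌊2 * y⌋₊ := by
    apply Nat.le_floor
    push_cast
    have := Nat.floor_le hy0
    linarith
  have hY10 : ⌊2 * y⌋₊ ≤ 2 * (⌊y⌋₊ + 1) := by
    have h4 := Nat.floor_le (show (0 : ℝ) ≤ 2 * y by linarith)
    have h5 := Nat.lt_floor_add_one y
    have h6 : ((⌊2 * y⌋₊ : ℕ) : ℝ) ≤ ((2 * (⌊y⌋₊ + 1) : ℕ) : ℝ) := by
      push_cast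
      linarith
    exact_mod_cast h6
  have hY1y : ((⌊2 * y⌋₊ : ℕ) : ℝ) ≤ 2 * y := Nat.floor_le (by linarith)
  have hD : ∀ j : ℤ, DD f y j = ∑ m ∈ Icc (⌊y⌋₊ + 1) ⌊2 * y⌋₊, f m * cj j m := by
    intro j
    unfold DD
    refine sum_congr ?_ fun _ _ => rfl
    ext n
    simp only [mem_Ioc, mem_Icc]
    omega
  rcases (Pw 1 H v).eq_empty_or_nonempty with hE | ⟨p0, hp0⟩
  · have hQ0 : ∀ j : ℤ, QJ f H v j = 0 := by
      intro j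
      unfold QJ
      rw [hE, sum_empty]
    rcases Nat.eq_zero_or_pos l with hl | hl
    · subst hl
      have h4 := momentj (P := ∅) (Z := 1) (W := 1) (a := f) (b := f) (by simp) (by simp) le_rfl
        (by norm_num) (by norm_num) (by simp) (by simp) hf.le hf.le 0 (Nat.le_add_left 1 _) hY01 hY10
        hT J hJ
      simp only [hD]
      simp only [Nat.mul_zero, pow_zero, one_mul, mul_one, Nat.cast_zero, add_zero] at h4 ⊢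
      refine h4.trans ?_
      have h5 : (0 : ℝ) ≤ T := by linarith
      have h6 : T + ((⌊2 * y⌋₊ : ℕ) : ℝ) ≤ T + 2 * y := by linarith
      have h7 : 2 * ((⌊2 * y⌋₊ : ℕ) : ℝ) ≤ 4 * y := by linarith
      exact mul_le_mul (mul_le_mul_of_nonneg_left h6 (by norm_num)) h7 (by positivity) (by positivity)
    · have h4 : ∑ j ∈ J, ‖QJ f H v j‖ ^ (2 * l) * ‖DD f y j‖ ^ 2 = 0 := by
        refine sum_eq_zero fun j _ => ?_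
        rw [hQ0, norm_zero, zero_pow (by omega), zero_mul]
      rw [h4]
      have := hT
      positivity
  · have hp1 := Pool.Agent.Lib.MR.mem_Pw.mp hp0
    have hW : ∀ p ∈ Pw 1 H v, ⌊ex H v⌋₊ + 1 ≤ p := fun p hp =>
      (Nat.floor_lt (Pool.Agent.Lib.MR.ex_pos _ _).le).mpr (Pool.Agent.Lib.MR.mem_Pw.mp hp).2.2.1
    have hWZ : ((⌊ex H v⌋₊ + 1 : ℕ) : ℝ) ≤ ex H (v + 1) :=
      le_trans (by exact_mod_cast hW p0 hp0) (h1 p0 hp0).2.2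
    have hZW : ex H (v + 1) ≤ 2 * ((⌊ex H v⌋₊ + 1 : ℕ) : ℝ) := by
      rw [Pool.Agent.Lib.MR.ex_succ]
      have h4 := (Pool.Agent.Lib.MR.ex_one (H := H) (by omega)).1
      have h5 := Pool.Agent.Lib.MR.ex_pos H v
      have hH' : (32 : ℝ) ≤ H := by exact_mod_cast hH
      have h6 : (2 : ℝ) / H ≤ 1 := by
        rw [div_le_one (by linarith)]
        linarith
      have h7 : ex H v * ex H 1 ≤ ex H v * 2 := mul_le_mul_of_nonneg_left (by linarith) h5.le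
      have h8 := Nat.lt_floor_add_one (ex H v)
      push_cast
      linarith
    have h4 := momentj (P := Pw 1 H v) (Z := ex H (v + 1)) (W := ⌊ex H v⌋₊ + 1) (a := f) (b := f)
      h1 hW (Nat.le_add_left 1 _) hZW hWZ h2 h3 hf.le hf.le l (Nat.le_add_left 1 _) hY01 hY10 hT J hJ
    simp only [hD]
    refine h4.trans ?_
    have h5 : ex H (v + 1) ^ l * ((⌊2 * y⌋₊ : ℕ) : ℝ) ≤ 2 * (ex H (v + 1) ^ l * y) := by
      have := mul_le_mul_of_nonneg_left hY1y (pow_nonneg hZ0 l)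
      linarith
    have h6 : 2 * (l : ℝ) ^ l * ex H (v + 1) ^ l * ((⌊2 * y⌋₊ : ℕ) : ℝ) ≤
        4 * (l : ℝ) ^ l * (ex H (v + 1) ^ l * y) := by
      have := mul_le_mul_of_nonneg_left h5 (show (0 : ℝ) ≤ 2 * (l : ℝ) ^ l by positivity)
      linarith
    refine mul_le_mul (mul_le_mul_of_nonneg_left (by linarith) (by positivity)) h6 (by positivity)
      (by positivity)

theorem cntwj {f : ℕ → ℂ} (hf : CM f) {H v : ℕ} (hH : 32 ≤ H) (hv : 16 ≤ ex H v) {T : ℝ} (hT : 1 ≤ T)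
    {l : ℕ} (hl : T ≤ ex H (v + 1) ^ l) {τ : ℝ} (hτ : 0 ≤ τ) (U : Finset ℤ) (hU : ∀ j ∈ U, |(j : ℝ)| ≤ T)
    (hQ : ∀ j ∈ U, τ ≤ ‖QJ f H v j‖) :
    (U.card : ℝ) * τ ^ (2 * l) ≤ 800 * (2 + l) * (l : ℝ) ^ l * ex H (v + 1) ^ (2 * l) := by
  classical
  obtain ⟨h1, h2, h3⟩ := Pool.Agent.Lib.MR.Pw_good 1 hH hv
  rcases (Pw 1 H v).eq_empty_or_nonempty with hE | ⟨p0, hp0⟩
  · have hQ0 : ∀ j : ℤ, QJ f H v j = 0 := by
      intro j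
      unfold QJ
      rw [hE, sum_empty]
    rcases Nat.eq_zero_or_pos l with hl0 | hl0
    · subst hl0
      have h4 := cntj (P := ∅) (Z := 1) (W := 1) (a := f) (by simp) (by simp) le_rfl
        (by norm_num) (by norm_num) (by simp) (by simp) hf.le hT (l := 0)
        (by rw [pow_zero] at hl ⊢; exact hl) (τ := 0) le_rfl U hU (fun j _ => norm_nonneg _)
      simpa using h4
    · rcases U.eq_empty_or_nonempty with hU0 | ⟨j0, hj0⟩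
      · rw [hU0]
        simp only [card_empty, Nat.cast_zero, zero_mul]
        have := Pool.Agent.Lib.MR.ex_pos H (v + 1)
        positivity
      · have h5 := hQ j0 hj0
        rw [hQ0, norm_zero] at h5
        have h6 : τ = 0 := le_antisymm h5 hτ
        rw [h6, zero_pow (by omega), mul_zero]
        have := Pool.Agent.Lib.MR.ex_pos H (v + 1)
        positivity
  · have hW : ∀ p ∈ Pw 1 H v, ⌊ex H v⌋₊ + 1 ≤ p := fun p hp =>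
      (Nat.floor_lt (Pool.Agent.Lib.MR.ex_pos _ _).le).mpr (Pool.Agent.Lib.MR.mem_Pw.mp hp).2.2.1
    have hWZ : ((⌊ex H v⌋₊ + 1 : ℕ) : ℝ) ≤ ex H (v + 1) :=
      le_trans (by exact_mod_cast hW p0 hp0) (h1 p0 hp0).2.2
    have hZW : ex H (v + 1) ≤ 2 * ((⌊ex H v⌋₊ + 1 : ℕ) : ℝ) := by
      rw [Pool.Agent.Lib.MR.ex_succ]
      have h4 := (Pool.Agent.Lib.MR.ex_one (H := H) (by omega)).1
      have h5 := Pool.Agent.Lib.MR.ex_pos H v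
      have hH' : (32 : ℝ) ≤ H := by exact_mod_cast hH
      have h6 : (2 : ℝ) / H ≤ 1 := by
        rw [div_le_one (by linarith)]
        linarith
      have h7 : ex H v * ex H 1 ≤ ex H v * 2 := mul_le_mul_of_nonneg_left (by linarith) h5.le
      have h8 := Nat.lt_floor_add_one (ex H v)
      push_cast
      linarith
    exact cntj (P := Pw 1 H v) (Z := ex H (v + 1)) (W := ⌊ex H v⌋₊ + 1) (a := f)
      h1 hW (Nat.le_add_left 1 _) hZW hWZ h2 h3 hf.le hT hl hτ U hU hQ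

end Pool.Agent.Lib.MRT
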