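import Pool.Agent.Lib.MRT.Dec
import Pool.Agent.Lib.MRT.Mv
import Pool.Agent.Lib.MR.TK
import Pool.Agent.Lib.MR.Win
import Pool.Agent.Lib.MR.WinB

/-!
# MRT / DecM (45 minutes): the mass of the error and the main inequality of a level

`decmj`: `decj`, `mvj` with `N0 = x + 1`, `N1 = ⌊2x ex H 1⌋₊ ≤ 6x` (`ex_one`), `log(N1/N0) ≤ log 6 ≤ 2`, `T + N1 ≤ 7x`: `≤ 200 · 3 · 7 x ∑ ‖c‖² = 4200 x ∑ ‖c‖²`;
`∑ ‖c‖² ≤ 2 ∑_{n ≤ 2x} (V - om)² + 2 ∑_{x < n ≤ x ex H 1} om² + ∑_{2x < n ≤ 2x ex H 1} om² ≤ 2 (2xV + 2V|P|) + 2 ((2x/H)(V² + V) + |P|²) + ((4x/H)(V² + V) + |P|²)` (`MR.tk1`, `MR.tk2`, `ex H 1 ≤ 1 + 2/H`); `|P| ≤ ex H b` (`PP_card`), `|P|² ≤ x/H`, so `|P| ≤ x`, `V ≥ 1`: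
`≤ 8xV + 8xV²/H + 8xV²/H + 3x/H ≤ 8 x V + 19 x V²/H`. Times `4200 x`: `V² x² (33600/V + 79800/H)`.
`dectj`: as `MR.dect` (`|u + w|² ≤ 2|u|² + 2|w|²`, Cauchy for the sum over `v`, divide by `V² ≥ 1`).
If `x = 0` everything is `0` (or use `T ≤ x`, `1 ≤ T`).
-/

set_option autoImplicit false

open Finset

namespace Pool.Agent.Lib.MRT

open Pool.Agent.Lib.MR (ex Pw PP VV om Om CM al dn lev)

variable {f : ℕ → ℂ} {H a b x : ℕ} {T : ℝ}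

theorem decmj (hf : CM f) (hH : 4 ≤ H) (hab : a ≤ b) (hT : 1 ≤ T) (hTx : T ≤ x) (hV : 1 ≤ VV 1 H a b)
    (hx : ex H b ^ 2 ≤ (x : ℝ) / H) (J : Finset ℤ) (hJ : ∀ j ∈ J, |(j : ℝ)| ≤ T) :
    ∑ j ∈ J, ‖(VV 1 H a b : ℂ) * DD f x j - ∑ v ∈ Ico a b, QJ f H v j * DD f (x / ex H v) j‖ ^ 2 ≤
      VV 1 H a b ^ 2 * ((x : ℝ) ^ 2 * (100000 / VV 1 H a b + 100000 / H)) := by
  obtain ⟨c, hc1, hc2, hc⟩ := decj hf hH hab x
  obtain ⟨N, hN⟩ : ∃ N, N = ⌊2 * (x : ℝ) * ex H 1⌋₊ := ⟨_, rfl⟩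
  obtain ⟨V, hVd⟩ : ∃ V, V = VV 1 H a b := ⟨_, rfl⟩
  obtain ⟨P, hPd⟩ : ∃ P, P = PP 1 H a b := ⟨_, rfl⟩
  have hVP : V = ∑ p ∈ P, (1 : ℝ) / p := by rw [hVd, hPd, VV]
  have hPprime : ∀ p ∈ P, p.Prime := fun p hp => by
    rw [hPd, Pool.Agent.Lib.MR.mem_PP] at hp
    exact hp.1
  have hx1 : (1 : ℝ) ≤ x := hT.trans hTx
  have hx1' : 1 ≤ x := by exact_mod_cast hx1
  have hIoc : Ioc x N = Icc (x + 1) N := by
    ext n
    rw [mem_Ioc, mem_Icc]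
    omega
  simp_rw [hc]
  rw [← hN, hIoc]
  have hH' : (4 : ℝ) ≤ H := by exact_mod_cast hH
  have hx0 : (0 : ℝ) ≤ x := Nat.cast_nonneg x
  obtain ⟨he1, he3⟩ := Pool.Agent.Lib.MR.ex_one (H := H) (by omega)
  have he0 := Pool.Agent.Lib.MR.ex_one_le H 1
  have hep := Pool.Agent.Lib.MR.ex_pos H 1
  have h2H : (2 : ℝ) / H ≤ 1 / 2 := by
    rw [div_le_div_iff₀ (by linarith) (by norm_num)]
    linarith
  have hN1 : (N : ℝ) ≤ 2 * x * ex H 1 := by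
    rw [hN]
    exact Nat.floor_le (by positivity)
  have hxN : 2 * x ≤ N := by
    rw [hN]
    refine Nat.le_floor ?_
    push_cast
    exact le_mul_of_one_le_right (by positivity) he0
  have hN3 : (N : ℝ) ≤ 3 * x := by
    have h1 : 2 * (x : ℝ) * ex H 1 ≤ 2 * x * (3 / 2) := mul_le_mul_of_nonneg_left (by linarith) (by positivity)
    linarith
  have hNx : (N : ℝ) - 2 * x ≤ 4 * (x / H) := by
    have h1 : 2 * (x : ℝ) * ex H 1 ≤ 2 * x * (1 + 2 / H) := mul_le_mul_of_nonneg_left he1 (by positivity)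
    have h2 : 2 * (x : ℝ) * (1 + 2 / H) = 2 * x + 4 * (x / H) := by ring
    linarith
  have hmv := mvj hT J hJ (N0 := x + 1) (N1 := N) (by omega) (by omega) c
  rw [← hVd] at hV hc1 ⊢
  rw [← hPd] at hc1 hc2
  refine hmv.trans ?_
  have hxH : (x : ℝ) / H ≤ x := div_le_self hx0 (by linarith)
  have hcard : (P.card : ℝ) ≤ ex H b := by
    rw [hPd]
    exact Pool.Agent.Lib.MR.PP_card 1 H a b
  have hcard2 : (P.card : ℝ) ^ 2 ≤ x / H :=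
    (pow_le_pow_left₀ (Nat.cast_nonneg _) hcard 2).trans hx
  have hcard1 : (P.card : ℝ) ≤ x := by
    have h1 : P.card ≤ P.card ^ 2 := Nat.le_self_pow (by norm_num) _
    have h2 : (P.card : ℝ) ≤ (P.card : ℝ) ^ 2 := by exact_mod_cast h1
    linarith
  -- the window `(x, x ex H 1]`
  obtain ⟨M, hM⟩ : ∃ M, M = ⌊(x : ℝ) * ex H 1⌋₊ := ⟨_, rfl⟩
  have hM1 : (M : ℝ) ≤ x * ex H 1 := by
    rw [hM]
    exact Nat.floor_le (by positivity)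
  have hxM : x ≤ M := by
    rw [hM]
    exact Nat.le_floor (le_mul_of_one_le_right hx0 he0)
  have hMx : (M : ℝ) - x ≤ 2 * (x / H) := by
    have h1 : (x : ℝ) * ex H 1 ≤ x * (1 + 2 / H) := mul_le_mul_of_nonneg_left he1 hx0
    have h2 : (x : ℝ) * (1 + 2 / H) = x + 2 * (x / H) := by ring
    linarith
  have hMx0 : (0 : ℝ) ≤ (M : ℝ) - x := by
    have : (x : ℝ) ≤ M := by exact_mod_cast hxM
    linarith
  have hNx0 : (0 : ℝ) ≤ (N : ℝ) - 2 * x := by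
    have : ((2 * x : ℕ) : ℝ) ≤ N := by exact_mod_cast hxN
    push_cast at this
    linarith
  have hsplit : ∑ n ∈ Icc (x + 1) N, ‖c n‖ ^ 2 = ∑ n ∈ Ioc x (2 * x), ‖c n‖ ^ 2 + ∑ n ∈ Ioc (2 * x) N, ‖c n‖ ^ 2 := by
    have h1 := Finset.sum_Ioc_consecutive (fun n => ‖c n‖ ^ 2) (by omega : x ≤ 2 * x) hxN
    rw [← hIoc]
    exact h1.symm
  have h1 : ∑ n ∈ Ioc x (2 * x), ‖c n‖ ^ 2 ≤
      2 * (2 * x * V + 2 * V * P.card) + 2 * (((M : ℝ) - x) * (V ^ 2 + V) + (P.card : ℝ) ^ 2) := by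
    have h2 := Pool.Agent.Lib.MR.tk1 P hPprime (2 * x)
    rw [← hVP] at h2
    push_cast at h2
    have h3 := Pool.Agent.Lib.MR.tk2 P hPprime hxM
    rw [← hVP] at h3
    have h4 : ∀ n ∈ Ioc x (2 * x), ‖c n‖ ^ 2 ≤ 2 * (V - om P n) ^ 2 +
        2 * (if (n : ℝ) ≤ x * ex H 1 then (om P n : ℝ) ^ 2 else 0) := by
      intro n hn
      rw [mem_Ioc] at hn
      have h5 := hc1 n hn.1 hn.2
      have h6 : (if (n : ℝ) ≤ x * ex H 1 then (om P n : ℝ) ^ 2 else 0) =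
          (if (n : ℝ) ≤ x * ex H 1 then (om P n : ℝ) else 0) ^ 2 := by
        split_ifs
        · rfl
        · norm_num
      rw [h6]
      obtain ⟨A, hA⟩ : ∃ A, A = (if (n : ℝ) ≤ x * ex H 1 then (om P n : ℝ) else 0) := ⟨_, rfl⟩
      rw [← hA] at h5 ⊢
      have h7 : ‖c n‖ ^ 2 ≤ (|V - om P n| + A) ^ 2 := pow_le_pow_left₀ (norm_nonneg _) h5 2
      have h8 : (|V - om P n| + A) ^ 2 ≤ 2 * |V - om P n| ^ 2 + 2 * A ^ 2 := by
        have := sq_nonneg (|V - om P n| - A)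
        nlinarith
      rw [sq_abs] at h8
      exact h7.trans h8
    refine (sum_le_sum h4).trans ?_
    rw [sum_add_distrib, ← mul_sum, ← mul_sum]
    refine add_le_add (mul_le_mul_of_nonneg_left (le_trans ?_ h2) (by norm_num))
      (mul_le_mul_of_nonneg_left (le_trans ?_ h3) (by norm_num))
    · refine sum_le_sum_of_subset_of_nonneg (fun n hn => ?_) fun _ _ _ => sq_nonneg _
      rw [mem_Ioc] at hn
      rw [mem_Icc]
      omega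
    · rw [← sum_filter]
      refine sum_le_sum_of_subset_of_nonneg (fun n hn => ?_) fun _ _ _ => sq_nonneg _
      rw [mem_filter, mem_Ioc] at hn
      rw [mem_Ioc]
      refine ⟨hn.1.1, ?_⟩
      rw [hM]
      exact Nat.le_floor hn.2
  have h2 : ∑ n ∈ Ioc (2 * x) N, ‖c n‖ ^ 2 ≤ ((N : ℝ) - 2 * x) * (V ^ 2 + V) + (P.card : ℝ) ^ 2 := by
    have h3 := Pool.Agent.Lib.MR.tk2 P hPprime hxN
    rw [← hVP] at h3
    push_cast at h3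
    refine le_trans (sum_le_sum fun n hn => ?_) h3
    exact pow_le_pow_left₀ (norm_nonneg _) (hc2 n (mem_Ioc.1 hn).1) 2
  have hVV : V ≤ V ^ 2 := by nlinarith
  have hxH0 : (0 : ℝ) ≤ x / H := by positivity
  have h3 : ∑ n ∈ Icc (x + 1) N, ‖c n‖ ^ 2 ≤ 8 * x * V + 19 * (x / H) * V ^ 2 := by
    rw [hsplit]
    have h4 : ((M : ℝ) - x) * (V ^ 2 + V) ≤ 2 * (x / H) * (2 * V ^ 2) :=
      mul_le_mul hMx (by linarith) (by positivity) (by positivity)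
    have h4' : ((N : ℝ) - 2 * x) * (V ^ 2 + V) ≤ 4 * (x / H) * (2 * V ^ 2) :=
      mul_le_mul hNx (by linarith) (by positivity) (by positivity)
    have h5 : 2 * V * (P.card : ℝ) ≤ 2 * V * x := mul_le_mul_of_nonneg_left hcard1 (by linarith)
    have h6 : (x : ℝ) / H ≤ x / H * V ^ 2 := le_mul_of_one_le_right hxH0 (by nlinarith)
    linarith
  have h4 : T + (N : ℝ) ≤ 4 * x := by linarith
  have hlog : Real.log ((N : ℝ) / ((x + 1 : ℕ) : ℝ)) ≤ 2 := by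
    have h5 : (N : ℝ) / ((x + 1 : ℕ) : ℝ) ≤ 3 := by
      rw [div_le_iff₀ (by positivity)]
      push_cast
      linarith
    have h6 : 0 < (N : ℝ) / ((x + 1 : ℕ) : ℝ) := by
      have : (0 : ℝ) < N := by
        have : 0 < N := by omega
        exact_mod_cast this
      positivity
    have h7 := Real.log_le_sub_one_of_pos h6
    linarith
  have hV0 : V ≠ 0 := by
    intro h
    rw [h] at hV
    linarith
  have hH0 : (H : ℝ) ≠ 0 := by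
    intro h
    rw [h] at hH'
    linarith
  have hS0 : 0 ≤ ∑ n ∈ Icc (x + 1) N, ‖c n‖ ^ 2 := sum_nonneg fun _ _ => by positivity
  have hN0 : (0 : ℝ) ≤ N := Nat.cast_nonneg N
  have h5 : 200 * (1 + Real.log ((N : ℝ) / ((x + 1 : ℕ) : ℝ))) * (T + N) ≤ 200 * 3 * (4 * x) := by
    refine mul_le_mul (by linarith) h4 (by linarith) (by norm_num)
  have hVp : 0 < V := by linarith
  calc 200 * (1 + Real.log ((N : ℝ) / ((x + 1 : ℕ) : ℝ))) * (T + N) * ∑ n ∈ Icc (x + 1) N, ‖c n‖ ^ 2 ≤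
        200 * 3 * (4 * x) * (8 * x * V + 19 * (x / H) * V ^ 2) :=
        mul_le_mul h5 h3 hS0 (by positivity)
    _ = V ^ 2 * ((x : ℝ) ^ 2 * (19200 / V + 45600 / H)) := by
        field_simp
        ring
    _ ≤ V ^ 2 * ((x : ℝ) ^ 2 * (100000 / V + 100000 / H)) := by
        have h6 : (19200 : ℝ) / V ≤ 100000 / V := div_le_div_of_nonneg_right (by norm_num) hVp.le
        have h7 : (45600 : ℝ) / H ≤ 100000 / H := div_le_div_of_nonneg_right (by norm_num) (by positivity)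
        exact mul_le_mul_of_nonneg_left (mul_le_mul_of_nonneg_left (by linarith) (by positivity)) (by positivity)

theorem dectj (hf : CM f) (hH : 4 ≤ H) (hab : a ≤ b) (hT : 1 ≤ T) (hTx : T ≤ x) (hV : 1 ≤ VV 1 H a b)
    (hx : ex H b ^ 2 ≤ (x : ℝ) / H) (J : Finset ℤ) (hJ : ∀ j ∈ J, |(j : ℝ)| ≤ T) :
    ∑ j ∈ J, ‖DD f x j‖ ^ 2 ≤ 2 * ((b : ℝ) - a) * ∑ v ∈ Ico a b, ∑ j ∈ J, ‖QJ f H v j‖ ^ 2 * ‖DD f (x / ex H v) j‖ ^ 2 +
      (x : ℝ) ^ 2 * (200000 / VV 1 H a b + 200000 / H) := by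
  have h0 := decmj hf hH hab hT hTx hV hx J hJ
  obtain ⟨V, hVd⟩ : ∃ V, V = VV 1 H a b := ⟨_, rfl⟩
  rw [← hVd] at h0 hV ⊢
  have hba : (0 : ℝ) ≤ (b : ℝ) - a := by
    have : (a : ℝ) ≤ b := by exact_mod_cast hab
    linarith
  obtain ⟨M, hM⟩ : ∃ M, M = ∑ v ∈ Ico a b, ∑ j ∈ J,
      ‖QJ f H v j‖ ^ 2 * ‖DD f (x / ex H v) j‖ ^ 2 := ⟨_, rfl⟩
  rw [← hM]
  have hM0 : 0 ≤ M := by
    rw [hM]
    exact sum_nonneg fun _ _ => sum_nonneg fun _ _ => by positivity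
  have h1 : ∀ j : ℤ, V ^ 2 * ‖DD f x j‖ ^ 2 ≤
      2 * ‖(V : ℂ) * DD f x j - ∑ v ∈ Ico a b, QJ f H v j * DD f (x / ex H v) j‖ ^ 2 +
      2 * (((b : ℝ) - a) * ∑ v ∈ Ico a b, ‖QJ f H v j‖ ^ 2 * ‖DD f (x / ex H v) j‖ ^ 2) := by
    intro j
    have h2 : V ^ 2 * ‖DD f x j‖ ^ 2 = ‖(V : ℂ) * DD f x j‖ ^ 2 := by
      rw [norm_mul, Complex.norm_real, mul_pow, Real.norm_eq_abs, sq_abs]
    have h3 : ‖(V : ℂ) * DD f x j‖ ≤
        ‖(V : ℂ) * DD f x j - ∑ v ∈ Ico a b, QJ f H v j * DD f (x / ex H v) j‖ +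
        ∑ v ∈ Ico a b, ‖QJ f H v j‖ * ‖DD f (x / ex H v) j‖ := by
      have h4 := norm_add_le ((V : ℂ) * DD f x j -
        ∑ v ∈ Ico a b, QJ f H v j * DD f (x / ex H v) j)
        (∑ v ∈ Ico a b, QJ f H v j * DD f (x / ex H v) j)
      rw [sub_add_cancel] at h4
      refine h4.trans (add_le_add le_rfl ((norm_sum_le _ _).trans (le_of_eq ?_)))
      exact sum_congr rfl fun v _ => norm_mul _ _
    have h4 : (∑ v ∈ Ico a b, ‖QJ f H v j‖ * ‖DD f (x / ex H v) j‖) ^ 2 ≤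
        ((b : ℝ) - a) * ∑ v ∈ Ico a b, ‖QJ f H v j‖ ^ 2 * ‖DD f (x / ex H v) j‖ ^ 2 := by
      have h5 := sq_sum_le_card_mul_sum_sq (s := Ico a b)
        (f := fun v => ‖QJ f H v j‖ * ‖DD f (x / ex H v) j‖)
      rw [Nat.card_Ico, Nat.cast_sub hab] at h5
      refine h5.trans (le_of_eq ?_)
      congr 1
      exact sum_congr rfl fun v _ => mul_pow _ _ _
    rw [h2]
    obtain ⟨A, hA⟩ : ∃ A, A = ‖(V : ℂ) * DD f x j -
      ∑ v ∈ Ico a b, QJ f H v j * DD f (x / ex H v) j‖ := ⟨_, rfl⟩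
    obtain ⟨B, hB⟩ : ∃ B, B = ∑ v ∈ Ico a b, ‖QJ f H v j‖ * ‖DD f (x / ex H v) j‖ := ⟨_, rfl⟩
    rw [← hA, ← hB] at h3
    rw [← hB] at h4
    rw [← hA]
    have h5 : ‖(V : ℂ) * DD f x j‖ ^ 2 ≤ (A + B) ^ 2 := pow_le_pow_left₀ (norm_nonneg _) h3 2
    have h6 : (A + B) ^ 2 ≤ 2 * A ^ 2 + 2 * B ^ 2 := by nlinarith [sq_nonneg (A - B)]
    linarith
  have h2 : V ^ 2 * ∑ j ∈ J, ‖DD f x j‖ ^ 2 ≤
      2 * (V ^ 2 * ((x : ℝ) ^ 2 * (100000 / V + 100000 / H))) + 2 * (((b : ℝ) - a) * M) := by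
    rw [mul_sum]
    refine (sum_le_sum fun j _ => h1 j).trans ?_
    rw [sum_add_distrib, ← mul_sum, ← mul_sum, ← mul_sum, sum_comm (s := J), ← hM]
    exact add_le_add (mul_le_mul_of_nonneg_left h0 (by norm_num)) le_rfl
  have hV2 : 1 ≤ V ^ 2 := by nlinarith
  have hV20 : 0 < V ^ 2 := by linarith
  have h3 : V ^ 2 * ∑ j ∈ J, ‖DD f x j‖ ^ 2 ≤
      V ^ 2 * (2 * ((b : ℝ) - a) * M + (x : ℝ) ^ 2 * (200000 / V + 200000 / H)) := by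
    have h4 : 2 * (((b : ℝ) - a) * M) ≤ V ^ 2 * (2 * (((b : ℝ) - a) * M)) :=
      le_mul_of_one_le_left (by positivity) hV2
    refine h2.trans ?_
    have h5 : V ^ 2 * (2 * ((b : ℝ) - a) * M + (x : ℝ) ^ 2 * (200000 / V + 200000 / H)) =
        2 * (V ^ 2 * ((x : ℝ) ^ 2 * (100000 / V + 100000 / H))) + V ^ 2 * (2 * (((b : ℝ) - a) * M)) := by
      ring
    rw [h5]
    linarith
  exact le_of_mul_le_mul_left h3 hV20

end Pool.Agent.Lib.MRT
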