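import Pool.Agent.Lib.MRT.Num
import Pool.Agent.Lib.MRT.DecM
import Pool.Agent.Lib.MR.PrS

/-!
# MRT / Base: the base of the ladder

Copy of `MR.base` (`MR/Base`), `VV_lev (κ := 1)`, `q = 1`: `dectj` with `H = E ≥ 10^8`, `a = E^2`, `b = E^3`: error `x² (400000/log E + 200000/E)`. For `v`, `u = v/E ∈ [E, E²]`, `y = x e^(-u) ≥ T ≥ 1` (as `e^(E²) T ≤ x`): `‖Q_v‖² ≤ e^(2(1-α)u)`,
`mvD`: `∑ ‖DD f y j‖² ≤ 2000 (T + y) y ≤ 4000 y²`: the window contributes `≤ 4000 x² e^(-2αu) ≤ 4000 x² e^(-E/100)` (`aj_ge`), the main term `≤ x²/E` (`basenj`).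
-/

set_option autoImplicit false

open Finset

namespace Pool.Agent.Lib.MRT

open Pool.Agent.Lib.MR (ex Pw PP VV om Om CM al dn lev)

theorem basej : ∃ E1 : ℕ, ∀ E : ℕ, E1 ≤ E → ∀ (T : ℝ) (x : ℕ), 1 ≤ T → Real.exp ((E : ℝ) ^ 2) * T ≤ x →
    ex E (E ^ 3) ^ 2 ≤ (x : ℝ) / E → ∀ f : ℕ → ℂ, CM f → ∀ J : Finset ℤ, (∀ j ∈ J, |(j : ℝ)| ≤ T) → (∀ j ∈ J, smallj f E j) →
    ∑ j ∈ J, ‖DD f x j‖ ^ 2 ≤ 1000000 * (x : ℝ) ^ 2 / Real.log E := by
  classical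
  obtain ⟨E2, hE2⟩ := MR.VV_lev (κ := 1) one_pos
  refine ⟨max E2 100000000, fun E hE T x hT hx hx2 f hf J hJT hJ => ?_⟩
  have hE2' : E2 ≤ E := (le_max_left _ _).trans hE
  have hE4 : 100000000 ≤ E := (le_max_right _ _).trans hE
  have hEr : (100000000 : ℝ) ≤ E := by exact_mod_cast hE4
  have hE0 : (0 : ℝ) < E := by linarith
  have hT0 : (0 : ℝ) < T := by linarith
  have hlogE : 2 ≤ Real.log E := by
    rw [Real.le_log_iff_exp_le hE0]
    have h1 : Real.exp 2 = Real.exp 1 * Real.exp 1 := by rw [← Real.exp_add]; norm_num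
    have h2 := Real.exp_one_lt_d9
    have h3 := Real.exp_pos 1
    nlinarith
  have hV := hE2 E hE2' 1 le_rfl (by rw [Nat.totient_one]; norm_num)
  have hV1 : 1 ≤ VV 1 E (E ^ 2) (E ^ 3) := by linarith
  have ha1 := aj_ge hE4
  have hx0 : (0 : ℝ) < x := lt_of_lt_of_le (by positivity) hx
  have hTx : T ≤ x := by
    have h1 : (1 : ℝ) * T ≤ Real.exp ((E : ℝ) ^ 2) * T :=
      mul_le_mul_of_nonneg_right (Real.one_le_exp (by positivity)) hT0.le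
    linarith
  have hab : E ^ 2 ≤ E ^ 3 := Nat.pow_le_pow_right (by omega) (by norm_num)
  have hd := dectj hf (by omega : 4 ≤ E) hab hT hTx hV1 hx2 J hJT
  have hwin : ∀ v ∈ Ico (E ^ 2) (E ^ 3), ∑ j ∈ J, ‖QJ f E v j‖ ^ 2 * ‖DD f (x / ex E v) j‖ ^ 2 ≤
      (x : ℝ) ^ 2 * (4000 * Real.exp (-(E : ℝ) / 100)) := by
    intro v hv
    obtain ⟨hv1, hv2⟩ := mem_Ico.mp hv
    set u : ℝ := (v : ℝ) / E with hu
    have hu1 : (E : ℝ) ≤ u := by
      rw [hu, le_div_iff₀ hE0]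
      have : ((E ^ 2 : ℕ) : ℝ) ≤ v := by exact_mod_cast hv1
      push_cast at this
      nlinarith
    have hu2 : u ≤ (E : ℝ) ^ 2 := by
      rw [hu, div_le_iff₀ hE0]
      have : (v : ℝ) ≤ ((E ^ 3 : ℕ) : ℝ) := by exact_mod_cast hv2.le
      push_cast at this
      nlinarith
    have hu0 : 0 < u := by linarith
    set y : ℝ := (x : ℝ) / ex E v with hy
    have hexu : ex E v = Real.exp u := rfl
    have hy0 : 0 < y := div_pos hx0 (MR.ex_pos _ _)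
    have hyx : y = x * Real.exp (-u) := by
      rw [hy, hexu, Real.exp_neg, div_eq_mul_inv]
    have hTy : T ≤ y := by
      rw [hy, le_div_iff₀ (MR.ex_pos _ _), hexu]
      have h1 : Real.exp u ≤ Real.exp ((E : ℝ) ^ 2) := Real.exp_le_exp.mpr hu2
      calc T * Real.exp u ≤ T * Real.exp ((E : ℝ) ^ 2) := mul_le_mul_of_nonneg_left h1 hT0.le
        _ = Real.exp ((E : ℝ) ^ 2) * T := by ring
        _ ≤ x := hx
    have hy1 : 1 ≤ y := by linarith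
    have h1 : ∀ j ∈ J, ‖QJ f E v j‖ ^ 2 * ‖DD f y j‖ ^ 2 ≤
        Real.exp (2 * ((1 - aj E) * u)) * ‖DD f y j‖ ^ 2 := by
      intro j hj
      refine mul_le_mul_of_nonneg_right ?_ (by positivity)
      have h2 := hJ j hj v hv
      calc ‖QJ f E v j‖ ^ 2 ≤ (Real.exp ((1 - aj E) * ((v : ℝ) / E))) ^ 2 :=
            pow_le_pow_left₀ (norm_nonneg _) h2 2
        _ = Real.exp (2 * ((1 - aj E) * u)) := by
            rw [← Real.exp_nat_mul, ← hu]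
            norm_num
    calc ∑ j ∈ J, ‖QJ f E v j‖ ^ 2 * ‖DD f y j‖ ^ 2 ≤
        ∑ j ∈ J, Real.exp (2 * ((1 - aj E) * u)) * ‖DD f y j‖ ^ 2 := sum_le_sum h1
      _ = Real.exp (2 * ((1 - aj E) * u)) * ∑ j ∈ J, ‖DD f y j‖ ^ 2 := by rw [mul_sum]
      _ ≤ Real.exp (2 * ((1 - aj E) * u)) * (2000 * (T + y) * y) :=
          mul_le_mul_of_nonneg_left (mvD hf hT J hJT hy1) (Real.exp_pos _).le
      _ ≤ Real.exp (2 * ((1 - aj E) * u)) * (2000 * (y + y) * y) := by gcongr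
      _ = (x : ℝ) ^ 2 * (4000 * Real.exp (-(2 * (aj E * u)))) := by
          rw [hyx]
          have h2 : Real.exp (-(2 * (aj E * u))) =
              Real.exp (2 * ((1 - aj E) * u)) * (Real.exp (-u) * Real.exp (-u)) := by
            rw [← Real.exp_add, ← Real.exp_add]
            congr 1
            ring
          rw [h2]
          ring
      _ ≤ (x : ℝ) ^ 2 * (4000 * Real.exp (-(E : ℝ) / 100)) := by
          refine mul_le_mul_of_nonneg_left ?_ (by positivity)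
          refine mul_le_mul_of_nonneg_left ?_ (by norm_num)
          rw [Real.exp_le_exp]
          have h2 : 1 / 200 * (E : ℝ) ≤ aj E * u := mul_le_mul ha1 hu1 hE0.le (by linarith)
          linarith
  have hsum : ∑ v ∈ Ico (E ^ 2) (E ^ 3), ∑ j ∈ J, ‖QJ f E v j‖ ^ 2 * ‖DD f (x / ex E v) j‖ ^ 2 ≤
      (E : ℝ) ^ 3 * ((x : ℝ) ^ 2 * (4000 * Real.exp (-(E : ℝ) / 100))) := by
    have h1 := sum_le_card_nsmul _ _ _ hwin
    rw [nsmul_eq_mul] at h1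
    refine h1.trans (mul_le_mul_of_nonneg_right ?_ (by positivity))
    rw [Nat.card_Ico]
    calc ((E ^ 3 - E ^ 2 : ℕ) : ℝ) ≤ ((E ^ 3 : ℕ) : ℝ) := by exact_mod_cast Nat.sub_le _ _
      _ = _ := by push_cast; rfl
  have hmain : 2 * (((E ^ 3 : ℕ) : ℝ) - ((E ^ 2 : ℕ) : ℝ)) * ∑ v ∈ Ico (E ^ 2) (E ^ 3), ∑ j ∈ J,
      ‖QJ f E v j‖ ^ 2 * ‖DD f (x / ex E v) j‖ ^ 2 ≤ (x : ℝ) ^ 2 * (1 / E) := by
    have h1 : 2 * (((E ^ 3 : ℕ) : ℝ) - ((E ^ 2 : ℕ) : ℝ)) ≤ 2 * (E : ℝ) ^ 3 := by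
      push_cast
      have : (0 : ℝ) ≤ (E : ℝ) ^ 2 := by positivity
      linarith
    calc _ ≤ 2 * (E : ℝ) ^ 3 * ((E : ℝ) ^ 3 * ((x : ℝ) ^ 2 * (4000 * Real.exp (-(E : ℝ) / 100)))) :=
          mul_le_mul h1 hsum (sum_nonneg fun _ _ => sum_nonneg fun _ _ => by positivity) (by positivity)
      _ = (x : ℝ) ^ 2 * (2 * (E : ℝ) ^ 3 * ((E : ℝ) ^ 3 * (4000 * Real.exp (-(E : ℝ) / 100)))) := by ring
      _ ≤ (x : ℝ) ^ 2 * (1 / E) := mul_le_mul_of_nonneg_left (basenj hE4) (by positivity)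
  have hlE : Real.log E ≤ E := (Real.log_le_sub_one_of_pos hE0).trans (by linarith)
  have hl0 : 0 < Real.log E := by linarith
  have h24 : 200000 / VV 1 E (E ^ 2) (E ^ 3) ≤ 400000 / Real.log E := by
    rw [div_le_div_iff₀ (by linarith) hl0]
    linarith
  have h1E : 1 / (E : ℝ) ≤ 1 / Real.log E := one_div_le_one_div_of_le hl0 hlE
  have hfin : (x : ℝ) ^ 2 * (1 / E) + (x : ℝ) ^ 2 * (200000 / VV 1 E (E ^ 2) (E ^ 3) + 200000 / E) ≤
      1000000 * (x : ℝ) ^ 2 / Real.log E := by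
    have h3 : (200000 : ℝ) / E = 200000 * (1 / E) := by ring
    have h4 : 1 / (E : ℝ) + (200000 / VV 1 E (E ^ 2) (E ^ 3) + 200000 / E) ≤ 1000000 / Real.log E := by
      rw [h3]
      calc 1 / (E : ℝ) + (200000 / VV 1 E (E ^ 2) (E ^ 3) + 200000 * (1 / E)) ≤
          1 / Real.log E + (400000 / Real.log E + 200000 * (1 / Real.log E)) := by linarith
        _ = 600001 / Real.log E := by ring
        _ ≤ 1000000 / Real.log E := div_le_div_of_nonneg_right (by norm_num) hl0.le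
    calc _ = (x : ℝ) ^ 2 * (1 / E + (200000 / VV 1 E (E ^ 2) (E ^ 3) + 200000 / E)) := by ring
      _ ≤ (x : ℝ) ^ 2 * (1000000 / Real.log E) := mul_le_mul_of_nonneg_left h4 (by positivity)
      _ = _ := by ring
  linarith

end Pool.Agent.Lib.MRT
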