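import Pool.Agent.Lib.MRT.Step
import Pool.Agent.Lib.MRT.Base

/-!
# MRT / Chain (25 minutes): the ladder

Copy of `MR.chain` (`MR/Chain`), constants `200, 100` become `2·10^6, 10^6`; `q` becomes the real number `T ≥ 1`: `A0 T ≤ x`, `A0 = ⌈exp(M²)⌉₊`, `M = ⌈exp(√E0)⌉₊`.
-/

set_option autoImplicit false

open Finset

namespace Pool.Agent.Lib.MRT

open Pool.Agent.Lib.MR (ex Pw PP VV om Om CM al dn lev)

private theorem chainj_ex (E : ℕ) (hE : 1 ≤ E) : ex E (E ^ 3) = Real.exp ((E : ℝ) ^ 2) := by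
  unfold Pool.Agent.Lib.MR.ex
  congr 1
  have : (E : ℝ) ≠ 0 := by positivity
  push_cast
  field_simp

theorem chainj : ∃ E1 : ℕ, ∀ E0 : ℕ, E1 ≤ E0 → ∃ A0 : ℕ, 0 < A0 ∧ ∀ (T : ℝ) (x : ℕ), 1 ≤ T → (A0 : ℝ) * T ≤ x →
    ∀ f : ℕ → ℂ, CM f → ∀ E : ℕ, E0 ≤ E → ex E (E ^ 3) ^ 2 ≤ (x : ℝ) / E →
    ∀ J : Finset ℤ, (∀ j ∈ J, |(j : ℝ)| ≤ T) → (∀ j ∈ J, smallj f E j) →
    ∑ j ∈ J, ‖DD f x j‖ ^ 2 ≤ (x : ℝ) ^ 2 * (2000000 / Real.log E0 - 1000000 / Real.log E) := by
  classical
  obtain ⟨Ea, hEa⟩ := stepj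
  obtain ⟨Eb, hEb⟩ := basej
  refine ⟨max (max Ea Eb) ⌈Real.exp 100⌉₊, fun E0 hE0 => ?_⟩
  have ha : Ea ≤ E0 := (le_max_left _ _).trans ((le_max_left _ _).trans hE0)
  have hb : Eb ≤ E0 := (le_max_right _ _).trans ((le_max_left _ _).trans hE0)
  have hc : Real.exp 100 ≤ E0 :=
    (Nat.le_ceil _).trans (by exact_mod_cast (le_max_right _ _).trans hE0)
  have hE0pos : (0 : ℝ) < E0 := (Real.exp_pos _).trans_le hc
  have hlog0 : 100 ≤ Real.log E0 := (Real.le_log_iff_exp_le hE0pos).mpr hc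
  set M : ℕ := ⌈Real.exp (Real.sqrt E0)⌉₊ with hM
  have hMge : Real.exp (Real.sqrt E0) ≤ M := Nat.le_ceil _
  set A0 : ℕ := ⌈Real.exp ((M : ℝ) ^ 2)⌉₊ with hA0
  have hA0ge : Real.exp ((M : ℝ) ^ 2) ≤ A0 := Nat.le_ceil _
  refine ⟨A0, Nat.ceil_pos.mpr (Real.exp_pos _), fun T x hT1 hx f hf => ?_⟩
  have hA0pos : 0 < A0 := Nat.ceil_pos.mpr (Real.exp_pos _)
  have hA1 : (1 : ℝ) ≤ A0 := by exact_mod_cast hA0pos
  have hTx : T ≤ x := by
    refine le_trans ?_ hx
    nlinarith
  intro E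
  induction E using Nat.strong_induction_on with
  | _ E ih =>
    intro hE hxE J hJT hJ
    have hEE0 : (E0 : ℝ) ≤ E := by exact_mod_cast hE
    have hEpos : (0 : ℝ) < E := hE0pos.trans_le hEE0
    have hEnat : 1 ≤ E := by
      have : 0 < E := by exact_mod_cast hEpos
      omega
    have hlogE0E : Real.log E0 ≤ Real.log E := Real.log_le_log hE0pos hEE0
    have hlogE : 100 ≤ Real.log E := hlog0.trans hlogE0E
    obtain ⟨d1, d2, d3, d4, d5, d6, d7⟩ := Pool.Agent.Lib.MR.dn_le hlogE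
    have hx2 : (0 : ℝ) ≤ (x : ℝ) ^ 2 := by positivity
    by_cases hlt : dn E < E0
    · -- base
      have h1 : Real.log E ^ 2 < E0 := d6.trans_lt (by exact_mod_cast hlt)
      have h2 : Real.log E < Real.sqrt E0 := by
        rw [Real.lt_sqrt (by linarith)]
        exact h1
      have h3 : (E : ℝ) ≤ M := by
        have : (E : ℝ) < Real.exp (Real.sqrt E0) := (Real.log_lt_iff_lt_exp hEpos).mp h2
        linarith
      have h4 : Real.exp ((E : ℝ) ^ 2) * T ≤ x := by
        have h5 : Real.exp ((E : ℝ) ^ 2) ≤ A0 := by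
          refine le_trans (Real.exp_le_exp.mpr ?_) hA0ge
          gcongr
        calc Real.exp ((E : ℝ) ^ 2) * T ≤ A0 * T :=
              mul_le_mul_of_nonneg_right h5 (by linarith)
          _ ≤ x := hx
      have h5 := hEb E (hb.trans hE) T x hT1 h4 hxE f hf J hJT hJ
      refine h5.trans ?_
      have h6 : 1000000 / Real.log E ≤ 1000000 / Real.log E0 := by gcongr
      have h7 : 1000000 / Real.log E ≤ 2000000 / Real.log E0 - 1000000 / Real.log E := by
        have h8 : 2000000 / Real.log E0 = 2 * (1000000 / Real.log E0) := by ring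
        rw [h8]
        linarith
      calc 1000000 * (x : ℝ) ^ 2 / Real.log E = (x : ℝ) ^ 2 * (1000000 / Real.log E) := by ring
        _ ≤ _ := mul_le_mul_of_nonneg_left h7 hx2
    · -- step
      have hge : E0 ≤ dn E := not_lt.mp hlt
      have hd1 : 1 ≤ dn E := by omega
      have hdE : ((dn E : ℕ) : ℝ) ≤ E := by exact_mod_cast d4.le
      have hdpos : (0 : ℝ) < dn E := by exact_mod_cast hd1
      have hxE' : ex (dn E) (dn E ^ 3) ^ 2 ≤ (x : ℝ) / dn E := by
        rw [chainj_ex _ hd1]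
        rw [chainj_ex _ hEnat] at hxE
        have h1 : Real.exp ((dn E : ℝ) ^ 2) ^ 2 ≤ Real.exp ((E : ℝ) ^ 2) ^ 2 := by gcongr
        have h2 : (x : ℝ) / E ≤ x / dn E := by gcongr
        linarith
      have h1 := ih (dn E) d4 hge hxE' (J.filter (fun j => smallj f (dn E) j))
        (fun j hj => hJT j (mem_filter.mp hj).1) (fun j hj => (mem_filter.mp hj).2)
      have h2 := hEa E (ha.trans hE) T x hT1 hTx hxE f hf (J.filter (fun j => ¬ smallj f (dn E) j))
        (fun j hj => hJT j (mem_filter.mp hj).1)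
        (fun j hj => ⟨hJ j (mem_filter.mp hj).1, (mem_filter.mp hj).2⟩)
      have h3 := sum_filter_add_sum_filter_not J (fun j => smallj f (dn E) j)
        (fun j => ‖DD f x j‖ ^ 2)
      rw [← h3]
      have hld : 0 < Real.log (dn E) := by
        have : (10000 : ℝ) ≤ dn E := by exact_mod_cast d2
        exact Real.log_pos (by linarith)
      have h4 : 2000000 / Real.log E ≤ 1000000 / Real.log (dn E) := by
        rw [div_le_div_iff₀ (by linarith) hld]
        linarith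
      have h5 : (2000000 / Real.log E0 - 1000000 / Real.log (dn E)) + 1000000 / Real.log E ≤
          2000000 / Real.log E0 - 1000000 / Real.log E := by
        have h8 : 2000000 / Real.log E = 2 * (1000000 / Real.log E) := by ring
        rw [h8] at h4
        linarith
      calc _ ≤ (x : ℝ) ^ 2 * (2000000 / Real.log E0 - 1000000 / Real.log (dn E)) +
            1000000 * (x : ℝ) ^ 2 / Real.log E :=
            add_le_add h1 h2
        _ = (x : ℝ) ^ 2 * ((2000000 / Real.log E0 - 1000000 / Real.log (dn E)) +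
            1000000 / Real.log E) := by ring
        _ ≤ _ := mul_le_mul_of_nonneg_left h5 hx2

end Pool.Agent.Lib.MRT
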