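import Pool.Agent.Lib.MRT.Defs
import Pool.Agent.Lib.MR.Dec

/-!
# MRT / Dec: the decomposition of the dyadic sum

As in `MR/Dec`: with `S(y) = ∑_{n ≤ y} f(n) n^(-ij)` and `D_y n = ∑_v #{p ∈ Pw 1 H v : p ∣ n, n/p ≤ y/ex H v}`,
`Q_v S(y/ex H v) = ∑_{n ≤ N} #{p ∈ Pw 1 H v : p ∣ n, n/p ≤ y/ex H v} f(n) n^(-ij)` for `N ≥ ⌊y ex H 1⌋`.
The coefficient of `V DD f x j - ∑_v Q_v DD f (x/ex H v) j` is `f n (V 1_(x,2x](n) - D_(2x) n + D_x n)`; it vanishes for `n ≤ x`.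
-/

set_option autoImplicit false

open Finset

namespace Pool.Agent.Lib.MRT

open Pool.Agent.Lib.MR (ex Pw PP VV om Om CM al dn lev)

/-- number of the primes `p` of the window `v` with `n = p m`, `m ≤ y / e^(v/H)` -/
private noncomputable def decD (H v : ℕ) (y : ℝ) (n : ℕ) : ℕ :=
  ((Pw 1 H v).filter fun p => p ∣ n ∧ n / p ≤ ⌊y / ex H v⌋₊).card

private theorem decj_inner {F : ℕ → ℂ} {p M N : ℕ} (hp : 0 < p) (h : p * M ≤ N) :
    ∑ m ∈ Icc 1 M, F (p * m) = ∑ n ∈ Icc 1 N, if p ∣ n ∧ n / p ≤ M then F n else 0 := by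
  rw [← sum_filter]
  refine sum_nbij' (fun m => p * m) (fun n => n / p) ?_ ?_ ?_ ?_ ?_
  · intro m hm
    rw [mem_Icc] at hm
    rw [mem_filter, mem_Icc]
    refine ⟨⟨Nat.mul_pos hp hm.1, (Nat.mul_le_mul_left p hm.2).trans h⟩, dvd_mul_right p m, ?_⟩
    rw [Nat.mul_div_cancel_left m hp]
    exact hm.2
  · intro n hn
    rw [mem_filter, mem_Icc] at hn
    rw [mem_Icc]
    exact ⟨Nat.div_pos (Nat.le_of_dvd hn.1.1 hn.2.1) hp, hn.2.2⟩
  · intro m _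
    exact Nat.mul_div_cancel_left m hp
  · intro n hn
    rw [mem_filter] at hn
    exact Nat.mul_div_cancel' hn.2.1
  · intro m _
    rfl

private theorem decj_bd {H v p : ℕ} (hp : p ∈ Pw 1 H v) {y : ℝ} (hy : 0 ≤ y) {m : ℕ} (hm : m ≤ ⌊y / ex H v⌋₊) :
    (p : ℝ) * m ≤ y * ex H 1 := by
  rw [MR.mem_Pw] at hp
  have hy' : 0 ≤ y / ex H v := div_nonneg hy (MR.ex_pos _ _).le
  have hm' : (m : ℝ) ≤ y / ex H v := (Nat.cast_le.mpr hm).trans (Nat.floor_le hy')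
  calc (p : ℝ) * (m : ℝ) ≤ ex H (v + 1) * (y / ex H v) :=
        mul_le_mul hp.2.2.2 hm' (Nat.cast_nonneg _) (MR.ex_pos _ _).le
    _ = y * ex H 1 := by
        rw [MR.ex_succ]
        field_simp [(MR.ex_pos H v).ne']

private theorem decj_win {f : ℕ → ℂ} (hf : CM f) {H : ℕ} (v : ℕ) {y : ℝ} (hy : 0 ≤ y) {N : ℕ}
    (hN : y * ex H 1 < N + 1) (j : ℤ) :
    QJ f H v j * ∑ m ∈ Icc 1 ⌊y / ex H v⌋₊, f m * cj j m =
      ∑ n ∈ Icc 1 N, (decD H v y n : ℂ) * (f n * cj j n) := by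
  have h1 : ∀ p ∈ Pw 1 H v, p * ⌊y / ex H v⌋₊ ≤ N := by
    intro p hp
    have h2 : ((p * ⌊y / ex H v⌋₊ : ℕ) : ℝ) < ((N + 1 : ℕ) : ℝ) := by
      push_cast
      exact (decj_bd hp hy le_rfl).trans_lt hN
    have h3 : p * ⌊y / ex H v⌋₊ < N + 1 := by exact_mod_cast h2
    omega
  calc QJ f H v j * ∑ m ∈ Icc 1 ⌊y / ex H v⌋₊, f m * cj j m
      = ∑ p ∈ Pw 1 H v, ∑ m ∈ Icc 1 ⌊y / ex H v⌋₊, f (p * m) * cj j (p * m) := by
        rw [QJ, sum_mul_sum]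
        refine sum_congr rfl fun p hp => sum_congr rfl fun m hm => ?_
        rw [MR.mem_Pw] at hp
        rw [mem_Icc] at hm
        rw [hf.mul, cj_mul j hp.1.ne_zero (by omega)]
        ring
    _ = ∑ p ∈ Pw 1 H v, ∑ n ∈ Icc 1 N,
          if p ∣ n ∧ n / p ≤ ⌊y / ex H v⌋₊ then f n * cj j n else 0 := by
        refine sum_congr rfl fun p hp => ?_
        have h2 := h1 p hp
        rw [MR.mem_Pw] at hp
        exact decj_inner (F := fun n => f n * cj j n) hp.1.pos h2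
    _ = _ := by
        rw [sum_comm]
        refine sum_congr rfl fun n _ => ?_
        rw [← sum_filter, sum_const, decD, nsmul_eq_mul]

private theorem decj_om {H a b : ℕ} (hH : 1 ≤ H) (hab : a ≤ b) (n : ℕ) :
    om (PP 1 H a b) n = ∑ v ∈ Ico a b, ((Pw 1 H v).filter fun p => p ∣ n).card := by
  have := MR.PP_sum 1 hH hab (fun p => if p ∣ n then 1 else 0)
  simp only [← card_filter] at this
  rw [om, this]

private theorem decj_D_le {H a b : ℕ} (hH : 1 ≤ H) (hab : a ≤ b) (y : ℝ) (n : ℕ) :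
    ∑ v ∈ Ico a b, decD H v y n ≤ om (PP 1 H a b) n := by
  rw [decj_om hH hab]
  refine sum_le_sum fun v _ => card_le_card ?_
  intro p hp
  rw [mem_filter] at hp ⊢
  exact ⟨hp.1, hp.2.1⟩

private theorem decj_D_eq {H a b : ℕ} (hH : 1 ≤ H) (hab : a ≤ b) {y : ℝ} {n : ℕ} (hn : (n : ℝ) ≤ y) :
    ∑ v ∈ Ico a b, decD H v y n = om (PP 1 H a b) n := by
  rw [decj_om hH hab]
  refine sum_congr rfl fun v _ => ?_
  rw [decD]
  refine congrArg card (filter_congr fun p hp => ?_)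
  rw [MR.mem_Pw] at hp
  refine and_iff_left_of_imp fun hpn => Nat.le_floor ?_
  calc ((n / p : ℕ) : ℝ) ≤ (n : ℝ) / p := Nat.cast_div_le
    _ ≤ y / ex H v :=
        div_le_div₀ ((Nat.cast_nonneg _).trans hn) hn (MR.ex_pos _ _) hp.2.2.1.le

private theorem decj_D_zero {H a b : ℕ} {y : ℝ} (hy : 0 ≤ y) {n : ℕ} (hn : y * ex H 1 < n) :
    ∑ v ∈ Ico a b, decD H v y n = 0 := by
  refine sum_eq_zero fun v _ => ?_
  rw [decD, card_eq_zero, filter_eq_empty_iff]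
  rintro p hp ⟨h1, h2⟩
  have h3 := decj_bd hp hy h2
  have h4 : (p : ℝ) * ((n / p : ℕ) : ℝ) = n := by
    rw [← Nat.cast_mul, Nat.mul_div_cancel' h1]
  rw [h4] at h3
  linarith

private theorem decj_DD {f : ℕ → ℂ} {y : ℝ} (hy : 0 ≤ y) (j : ℤ) :
    DD f y j = ∑ n ∈ Icc 1 ⌊2 * y⌋₊, f n * cj j n - ∑ n ∈ Icc 1 ⌊y⌋₊, f n * cj j n := by
  have h1 : ⌊y⌋₊ ≤ ⌊2 * y⌋₊ := Nat.floor_le_floor (by linarith)
  have h2 : ∀ k : ℕ, Icc 1 k = Ioc 0 k := fun k => by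
    ext n
    rw [mem_Icc, mem_Ioc]
    omega
  rw [DD, h2, h2, eq_sub_iff_add_eq, add_comm]
  exact sum_Ioc_consecutive _ (Nat.zero_le _) h1

theorem decj {f : ℕ → ℂ} (hf : CM f) {H a b : ℕ} (hH : 4 ≤ H) (hab : a ≤ b) (x : ℕ) :
    ∃ c : ℕ → ℂ, (∀ n, x < n → n ≤ 2 * x → ‖c n‖ ≤ |VV 1 H a b - om (PP 1 H a b) n| +
        (if (n : ℝ) ≤ x * ex H 1 then (om (PP 1 H a b) n : ℝ) else 0)) ∧
      (∀ n, 2 * x < n → ‖c n‖ ≤ om (PP 1 H a b) n) ∧
      ∀ j : ℤ, (VV 1 H a b : ℂ) * DD f x j - ∑ v ∈ Ico a b, QJ f H v j * DD f (x / ex H v) j =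
        ∑ n ∈ Ioc x ⌊2 * (x : ℝ) * ex H 1⌋₊, c n * cj j n := by
  have hH1 : 1 ≤ H := by omega
  have hx0 : (0 : ℝ) ≤ x := Nat.cast_nonneg x
  have hx20 : (0 : ℝ) ≤ 2 * (x : ℝ) := by positivity
  have he2 : ex H 1 ≤ 2 := by
    unfold ex
    have h1 : ((1 : ℕ) : ℝ) / H ≤ 1 / 4 := by
      rw [Nat.cast_one]
      exact one_div_le_one_div_of_le (by norm_num) (by exact_mod_cast hH)
    refine (Real.exp_le_exp.mpr h1).trans ?_
    have h2 : Real.exp (1 / 4) ≤ Real.exp (Real.log 2) := by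
      refine Real.exp_le_exp.mpr ?_
      have := Real.log_two_gt_d9
      linarith
    rwa [Real.exp_log (by norm_num)] at h2
  refine ⟨fun n => f n * ((if n ≤ 2 * x then (VV 1 H a b : ℂ) else 0) -
      ((∑ v ∈ Ico a b, decD H v (2 * (x : ℝ)) n : ℕ) : ℂ) +
      ((∑ v ∈ Ico a b, decD H v (x : ℝ) n : ℕ) : ℂ)), ?_, ?_, ?_⟩
  · intro n hn1 hn2
    have hn2' : (n : ℝ) ≤ 2 * (x : ℝ) := by exact_mod_cast hn2
    beta_reduce
    rw [if_pos hn2, decj_D_eq hH1 hab hn2', norm_mul]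
    have h1 : ‖(VV 1 H a b : ℂ) - (om (PP 1 H a b) n : ℂ) +
        ((∑ v ∈ Ico a b, decD H v (x : ℝ) n : ℕ) : ℂ)‖ ≤
        |VV 1 H a b - om (PP 1 H a b) n| + (if (n : ℝ) ≤ x * ex H 1 then (om (PP 1 H a b) n : ℝ) else 0) := by
      refine (norm_add_le _ _).trans (add_le_add ?_ ?_)
      · rw [← Complex.ofReal_natCast, ← Complex.ofReal_sub, Complex.norm_real, Real.norm_eq_abs]
      · rw [Complex.norm_natCast]
        split_ifs with h2
        · exact_mod_cast decj_D_le hH1 hab (x : ℝ) n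
        · rw [decj_D_zero hx0 (not_le.mp h2), Nat.cast_zero]
    calc ‖f n‖ * _ ≤ 1 * _ := mul_le_mul_of_nonneg_right (hf.le n) (norm_nonneg _)
      _ ≤ _ := by rw [one_mul]; exact h1
  · intro n hn
    have h2 : (x : ℝ) * ex H 1 < n := by
      have h3 : 2 * (x : ℝ) < n := by exact_mod_cast hn
      nlinarith
    beta_reduce
    rw [if_neg (not_le.mpr hn), decj_D_zero hx0 h2, Nat.cast_zero, add_zero, zero_sub, norm_mul, norm_neg]
    calc ‖f n‖ * ‖((∑ v ∈ Ico a b, decD H v (2 * (x : ℝ)) n : ℕ) : ℂ)‖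
        ≤ 1 * ((∑ v ∈ Ico a b, decD H v (2 * (x : ℝ)) n : ℕ) : ℝ) := by
          rw [Complex.norm_natCast]
          exact mul_le_mul_of_nonneg_right (hf.le n) (Nat.cast_nonneg _)
      _ ≤ om (PP 1 H a b) n := by
          rw [one_mul]
          exact_mod_cast decj_D_le hH1 hab (2 * (x : ℝ)) n
  · intro j
    set N : ℕ := ⌊2 * (x : ℝ) * ex H 1⌋₊ with hNdef
    have hN2 : 2 * (x : ℝ) * ex H 1 < N + 1 := Nat.lt_floor_add_one _
    have hN1 : (x : ℝ) * ex H 1 < N + 1 := by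
      have := MR.ex_pos H 1
      nlinarith
    have hxN : 2 * x ≤ N := by
      refine Nat.le_floor ?_
      push_cast
      exact le_mul_of_one_le_right hx20 (MR.ex_one_le _ _)
    have h1 : ∀ v ∈ Ico a b, QJ f H v j * DD f (x / ex H v) j =
        ∑ n ∈ Icc 1 N, ((decD H v (2 * (x : ℝ)) n : ℂ) - (decD H v (x : ℝ) n : ℂ)) * (f n * cj j n) := by
      intro v _
      have h2 : (0 : ℝ) ≤ (x : ℝ) / ex H v := div_nonneg hx0 (MR.ex_pos _ _).le
      have h3 : 2 * ((x : ℝ) / ex H v) = 2 * (x : ℝ) / ex H v := by ring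
      rw [decj_DD h2, mul_sub, h3, decj_win hf v hx20 hN2 j, decj_win hf v hx0 hN1 j, ← sum_sub_distrib]
      refine sum_congr rfl fun n _ => ?_
      ring
    have h2 : (VV 1 H a b : ℂ) * DD f x j = ∑ n ∈ Icc 1 N,
        (if x < n ∧ n ≤ 2 * x then (VV 1 H a b : ℂ) else 0) * (f n * cj j n) := by
      have h3 : (Icc 1 N).filter (fun n => x < n ∧ n ≤ 2 * x) = Ioc x (2 * x) := by
        ext n
        rw [mem_filter, mem_Icc, mem_Ioc]
        omega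
      have h4 : ⌊2 * (x : ℝ)⌋₊ = 2 * x := by
        have : (2 * (x : ℝ)) = ((2 * x : ℕ) : ℝ) := by push_cast; ring
        rw [this, Nat.floor_natCast]
      rw [DD, Nat.floor_natCast, h4, mul_sum, ← h3, sum_filter]
      refine sum_congr rfl fun n _ => ?_
      split_ifs <;> simp
    rw [h2, sum_congr rfl h1, sum_comm, ← sum_sub_distrib]
    have h5 : Ioc x N ⊆ Icc 1 N := by
      intro n hn
      rw [mem_Ioc] at hn
      rw [mem_Icc]
      omega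
    symm
    rw [← sum_subset h5 (f := fun n => (if x < n ∧ n ≤ 2 * x then (VV 1 H a b : ℂ) else 0) * (f n * cj j n) -
      ∑ v ∈ Ico a b, ((decD H v (2 * (x : ℝ)) n : ℂ) - (decD H v (x : ℝ) n : ℂ)) * (f n * cj j n))]
    · refine sum_congr rfl fun n hn => ?_
      rw [mem_Ioc] at hn
      have h6 : (x < n ∧ n ≤ 2 * x) ↔ n ≤ 2 * x := and_iff_right hn.1
      simp only [h6]
      rw [← sum_mul, sum_sub_distrib, Nat.cast_sum, Nat.cast_sum]
      ring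
    · intro n hn1 hn2
      rw [mem_Icc] at hn1
      rw [mem_Ioc] at hn2
      have h6 : n ≤ x := by
        by_contra h7
        exact hn2 ⟨not_le.mp h7, hn1.2⟩
      have h7 : ¬ (x < n ∧ n ≤ 2 * x) := fun h => absurd h.1 (not_lt.mpr h6)
      have h8 : (n : ℝ) ≤ (x : ℝ) := by exact_mod_cast h6
      have h9 : (n : ℝ) ≤ 2 * (x : ℝ) := by linarith
      rw [if_neg h7, ← sum_mul, sum_sub_distrib, ← Nat.cast_sum, ← Nat.cast_sum, decj_D_eq hH1 hab h8,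
        decj_D_eq hH1 hab h9]
      ring

end Pool.Agent.Lib.MRT
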