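import Pool.Agent.Lib.MRT.ShortMu
import Pool.Agent.Lib.DN.Exc

/-!
# MRT / LamAP: the Liouville function in almost all short progressions
-/

set_option autoImplicit false

open Finset

namespace Pool.Agent.Lib.MRT

open Pool.Agent.Lib.DN (lc lc0 lc0_cm lc0_eq excP0)
open Pool.Agent.Lib.MP_9fe581_an.HD (SO so_of_dyadic so_lam_pow rat_norm_lam rat_norm_w)
open Pool.Agent.Lib.MP_45349e_nt.LS (lam)

theorem so_lc {q : ℕ} [NeZero q] (χ : DirichletCharacter ℂ q) : SO (lc χ) := by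
  refine so_of_dyadic (fun n => Pool.Agent.Lib.DN.lc_norm_le χ n) fun η hη => ?_
  obtain ⟨L0, h0⟩ := mrt ⟨(lc0_cm χ).mul, (lc0_cm χ).le⟩ (excP0 χ) η hη
  refine ⟨L0, fun L hL => ?_⟩
  obtain ⟨X0, h1⟩ := h0 L hL
  refine ⟨X0, fun X hX => ?_⟩
  refine (le_of_eq ?_).trans (h1 X hX)
  refine sum_congr rfl fun n hn => ?_
  congr 1
  refine sum_congr rfl fun l _ => ?_
  have h2 : 1 ≤ n + l := by
    have := (mem_Ioc.mp hn).1
    omega
  exact (lc0_eq χ h2).symm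

/-- the Liouville function times a phase of finite order -/
theorem so_lam_w {q : ℕ} (hq : 0 < q) {w : ℂ} (hw : w ^ q = 1) : SO fun n => ((lam n : ℝ) : ℂ) * w ^ n :=
  so_lam_pow (fun _ _ χ => so_lc χ) hq hw

/-- the sum over the roots of unity of order `s` -/
private theorem lap_root {s : ℕ} (hs : 0 < s) {ζ : ℂ} (hζ : IsPrimitiveRoot ζ s) (l : ℕ) :
    ∑ j ∈ range s, (ζ ^ j) ^ l = if s ∣ l then (s : ℂ) else 0 := by
  have h1 : ∀ j ∈ range s, (ζ ^ j) ^ l = (ζ ^ l) ^ j := by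
    intro j _
    rw [← pow_mul, ← pow_mul, mul_comm]
  rw [sum_congr rfl h1]
  split_ifs with h
  · have h2 : ζ ^ l = 1 := by
      obtain ⟨m, rfl⟩ := h
      rw [pow_mul, hζ.pow_eq_one, one_pow]
    rw [h2]
    simp
  · have h2 : ζ ^ l ≠ 1 := fun h3 => h ((hζ.pow_eq_one_iff_dvd l).mp h3)
    rw [geom_sum_eq h2]
    have h3 : (ζ ^ l) ^ s = 1 := by
      rw [← pow_mul, mul_comm, pow_mul, hζ.pow_eq_one, one_pow]
    rw [h3, sub_self, zero_div]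

/-- the part of a window in one residue class -/
private theorem lap_sum {s : ℕ} (hs : 0 < s) (F : ℕ → ℂ) (D : ℕ) :
    ∑ l ∈ range (s * D), (if s ∣ l then F l else 0) = ∑ d ∈ range D, F (s * d) := by
  rw [← sum_filter]
  symm
  refine sum_bij (fun d _ => s * d) ?_ ?_ ?_ ?_
  · intro d hd
    rw [mem_filter, mem_range]
    exact ⟨Nat.mul_lt_mul_of_pos_left (mem_range.mp hd) hs, dvd_mul_right _ _⟩
  · intro a _ b _ hab
    exact Nat.eq_of_mul_eq_mul_left hs hab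
  · intro l hl
    rw [mem_filter, mem_range] at hl
    obtain ⟨m, rfl⟩ := hl.2
    exact ⟨m, mem_range.mpr (Nat.lt_of_mul_lt_mul_left hl.1), rfl⟩
  · intro d _
    rfl

/-- the Liouville function in almost all progressions `n, n + s, …, n + s (D - 1)` -/
theorem lam_ap (s : ℕ) (hs : 1 ≤ s) (η : ℝ) (hη : 0 < η) : ∃ D0 : ℕ, ∀ D : ℕ, D0 ≤ D → ∃ N0 : ℕ, ∀ N : ℕ, N0 ≤ N →
    ∑ n ∈ Icc 1 N, ‖∑ d ∈ range D, ((lam (n + s * d) : ℝ) : ℂ)‖ ≤ η * D * N := by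
  have hs0 : s ≠ 0 := by omega
  have hsr : (0 : ℝ) < s := by exact_mod_cast hs
  have hsc : (s : ℂ) ≠ 0 := by exact_mod_cast hs0
  obtain ⟨ζ, hζ⟩ : ∃ ζ : ℂ, IsPrimitiveRoot ζ s := ⟨_, Complex.isPrimitiveRoot_exp s hs0⟩
  have hroot : ∀ j : ℕ, (ζ ^ j) ^ s = 1 := fun j => by
    rw [← pow_mul, mul_comm, pow_mul, hζ.pow_eq_one, one_pow]
  have H : ∀ j : ℕ, ∃ L0 : ℕ, ∀ L ≥ L0, ∃ N0 : ℕ, ∀ N ≥ N0,
      ∑ n ∈ Icc 1 N, ‖∑ l ∈ range L, ((lam (n + l) : ℝ) : ℂ) * (ζ ^ j) ^ (n + l)‖ ≤ (η / s) * L * N :=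
    fun j => so_lam_w (w := ζ ^ j) (by omega) (hroot j) (η / s) (by positivity)
  choose L0 hL0 using H
  refine ⟨(range s).sup L0, fun D hD => ?_⟩
  have hDL : ∀ j ∈ range s, L0 j ≤ s * D := fun j hj =>
    (le_sup (f := L0) hj).trans (hD.trans (Nat.le_mul_of_pos_left D (by omega)))
  have H2 : ∀ j : ℕ, ∃ N0 : ℕ, j ∈ range s → ∀ N ≥ N0,
      ∑ n ∈ Icc 1 N, ‖∑ l ∈ range (s * D), ((lam (n + l) : ℝ) : ℂ) * (ζ ^ j) ^ (n + l)‖ ≤ (η / s) * ((s * D : ℕ) : ℝ) * N := by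
    intro j
    by_cases hj : j ∈ range s
    · obtain ⟨N0, h⟩ := hL0 j (s * D) (hDL j hj)
      exact ⟨N0, fun _ => h⟩
    · exact ⟨0, fun h => absurd h hj⟩
  choose N0 hN0 using H2
  refine ⟨(range s).sup N0, fun N hN => ?_⟩
  have hkey : ∀ n : ℕ, ‖∑ d ∈ range D, ((lam (n + s * d) : ℝ) : ℂ)‖ ≤
      (1 / (s : ℝ)) * ∑ j ∈ range s, ‖∑ l ∈ range (s * D), ((lam (n + l) : ℝ) : ℂ) * (ζ ^ j) ^ (n + l)‖ := by
    intro n
    have h1 : ∑ d ∈ range D, ((lam (n + s * d) : ℝ) : ℂ) =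
        ∑ l ∈ range (s * D), (if s ∣ l then ((lam (n + l) : ℝ) : ℂ) else 0) :=
      (lap_sum (by omega) (fun l => ((lam (n + l) : ℝ) : ℂ)) D).symm
    have h2 : ∑ l ∈ range (s * D), (if s ∣ l then ((lam (n + l) : ℝ) : ℂ) else 0) =
        (1 / (s : ℂ)) * ∑ j ∈ range s, ((ζ ^ j) ^ n)⁻¹ *
          ∑ l ∈ range (s * D), ((lam (n + l) : ℝ) : ℂ) * (ζ ^ j) ^ (n + l) := by
      have h3 : ∀ j ∈ range s, ((ζ ^ j) ^ n)⁻¹ * ∑ l ∈ range (s * D), ((lam (n + l) : ℝ) : ℂ) * (ζ ^ j) ^ (n + l) =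
          ∑ l ∈ range (s * D), ((lam (n + l) : ℝ) : ℂ) * (ζ ^ j) ^ l := by
        intro j _
        rw [mul_sum]
        refine sum_congr rfl fun l _ => ?_
        have h4 : (ζ ^ j) ^ n ≠ 0 := pow_ne_zero _ (pow_ne_zero _ (hζ.ne_zero hs0))
        rw [pow_add]
        field_simp
      rw [sum_congr rfl h3, sum_comm, mul_sum]
      refine sum_congr rfl fun l _ => ?_
      rw [← mul_sum, lap_root (by omega) hζ l]
      split_ifs
      · field_simp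
      · ring
    rw [h1, h2, norm_mul, norm_div, norm_one, Complex.norm_natCast]
    refine mul_le_mul_of_nonneg_left ?_ (by positivity)
    refine (norm_sum_le _ _).trans (sum_le_sum fun j _ => ?_)
    have h5 : ‖((ζ ^ j) ^ n)⁻¹‖ = 1 := by
      have h6 : ‖ζ ^ j‖ = 1 := Complex.norm_eq_one_of_pow_eq_one (hroot j) hs0
      rw [norm_inv, norm_pow, h6, one_pow, inv_one]
    rw [norm_mul, h5, one_mul]
  calc ∑ n ∈ Icc 1 N, ‖∑ d ∈ range D, ((lam (n + s * d) : ℝ) : ℂ)‖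
      ≤ ∑ n ∈ Icc 1 N, (1 / (s : ℝ)) * ∑ j ∈ range s, ‖∑ l ∈ range (s * D), ((lam (n + l) : ℝ) : ℂ) * (ζ ^ j) ^ (n + l)‖ :=
        sum_le_sum fun n _ => hkey n
    _ = (1 / (s : ℝ)) * ∑ j ∈ range s, ∑ n ∈ Icc 1 N, ‖∑ l ∈ range (s * D), ((lam (n + l) : ℝ) : ℂ) * (ζ ^ j) ^ (n + l)‖ := by
        rw [← mul_sum, sum_comm]
    _ ≤ (1 / (s : ℝ)) * ∑ j ∈ range s, (η / s) * ((s * D : ℕ) : ℝ) * N := by
        refine mul_le_mul_of_nonneg_left (sum_le_sum fun j hj => ?_) (by positivity)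
        exact hN0 j hj N ((le_sup (f := N0) hj).trans hN)
    _ = η * D * N := by
        rw [sum_const, card_range, nsmul_eq_mul]
        push_cast
        field_simp

end Pool.Agent.Lib.MRT
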