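import Pool.Agent.Lib.MRT.Defs

/-!
# MRT / LevN (35 minutes): numerics of the top level

Copy of `MR.topn` (`MR/Lev`; its private lemma `Lev_base` is copied with it): `E = lev x`, `W = L = log x`, `l = ⌈L/(u + 1/E)⌉₊ ≤ L/E + 1`, `a = u + 1/E`, `l a ≤ L + E² + 1`, `2 l a - (197/100) l u = (3/100) l a + (197/100) l/E`, `l/E ≤ L/10000 + 1`,
`l log l ≤ L/100 + T` (`T = log log x`), `log(800 (2 + l)) ≤ 7 + log (3 L) ≤ 9 + T`, `3 log E ≤ 3 E ≤ 303 T`: total `≤ (3/100 + 1/100 + 2/10000) L + (E² + ...) ≤ L/20` as `L ≥ T^3 ≥ 10^7 T²`.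
-/

set_option autoImplicit false

open Finset

namespace Pool.Agent.Lib.MRT

open Pool.Agent.Lib.MR (ex Pw PP VV om Om CM al dn lev)

private theorem LevN_tend : Filter.Tendsto (fun q : ℕ => Real.log (Real.log (q : ℝ)))
    Filter.atTop Filter.atTop :=
  Real.tendsto_log_atTop.comp (Real.tendsto_log_atTop.comp tendsto_natCast_atTop_atTop)

/-- the size of `lev q` -/
private theorem LevN_base (K : ℝ) (hK : 1 ≤ K) : ∃ q0 : ℕ, ∀ q : ℕ, q0 ≤ q →
    ∃ T W : ℝ, T = Real.log (Real.log q) ∧ W = Real.log q ∧ K ≤ T ∧ Real.exp T = W ∧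
      T ^ 3 ≤ W ∧ Real.exp W = q ∧ 100 * T ≤ lev q ∧ (lev q : ℝ) ≤ 101 * T := by
  have e1 := LevN_tend.eventually_ge_atTop K
  have e2 := LevN_tend.eventually ((Real.isLittleO_pow_exp_atTop (n := 3)).bound (one_pos))
  obtain ⟨q0, hq0⟩ := Filter.eventually_atTop.1 (e1.and e2)
  refine ⟨max 3 q0, fun q hq => ?_⟩
  have hq3 : 3 ≤ q := (le_max_left _ _).trans hq
  obtain ⟨f1, f2⟩ := hq0 q ((le_max_right _ _).trans hq)
  have hq1 : (1 : ℝ) < q := by exact_mod_cast (by omega : 1 < q)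
  have hqp : (0 : ℝ) < q := by linarith
  have hlog : 0 < Real.log (q : ℝ) := Real.log_pos hq1
  have hT0 : 0 ≤ Real.log (Real.log (q : ℝ)) := by linarith
  have hexp : Real.exp (Real.log (Real.log (q : ℝ))) = Real.log q := Real.exp_log hlog
  refine ⟨Real.log (Real.log q), Real.log q, rfl, rfl, f1, hexp, ?_, Real.exp_log hqp, ?_, ?_⟩
  · rw [Real.norm_of_nonneg (by positivity), Real.norm_of_nonneg (Real.exp_pos _).le,
      one_mul, hexp] at f2
    exact f2
  · exact Nat.le_ceil _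
  · have h1 := Nat.ceil_lt_add_one (show 0 ≤ 100 * Real.log (Real.log (q : ℝ)) by linarith)
    unfold lev
    linarith

private theorem LevN_log2400 : Real.log 2400 ≤ 8 := by
  rw [Real.log_le_iff_le_exp (by norm_num)]
  have h1 : (2.7182818283 : ℝ) < Real.exp 1 := Real.exp_one_gt_d9
  have h2 : Real.exp 8 = Real.exp 1 ^ 8 := by
    rw [← Real.exp_nat_mul]
    norm_num
  rw [h2]
  calc (2400 : ℝ) ≤ (2.7182818283 : ℝ) ^ 8 := by norm_num
    _ ≤ Real.exp 1 ^ 8 := pow_le_pow_left₀ (by norm_num) h1.le 8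

theorem topnj : ∃ x0 : ℕ, ∀ x : ℕ, x0 ≤ x → ∀ u : ℝ, (lev x : ℝ) ≤ u → u ≤ (lev x : ℝ) ^ 2 →
    Real.log (800 * (2 + ⌈Real.log x / (u + 1 / lev x)⌉₊)) +
      ⌈Real.log x / (u + 1 / lev x)⌉₊ * Real.log ⌈Real.log x / (u + 1 / lev x)⌉₊ +
      2 * ⌈Real.log x / (u + 1 / lev x)⌉₊ * (u + 1 / lev x) - 197 / 100 * ⌈Real.log x / (u + 1 / lev x)⌉₊ * u +
      3 * Real.log (lev x) ≤ 1 / 20 * Real.log x := by
  obtain ⟨x0, hx0⟩ := LevN_base 1000000 (by norm_num)
  refine ⟨x0, fun q hq u hu1 hu2 => ?_⟩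
  obtain ⟨T, W, -, hW, hT, hTW, hT3, hWq, hE1, hE2⟩ := hx0 q hq
  obtain ⟨E, hE⟩ : ∃ E : ℝ, E = lev q := ⟨_, rfl⟩
  rw [← hE] at hE1 hE2 hu1 hu2 ⊢
  rw [← hW]
  have hE0 : 0 < E := by linarith
  have hE100 : 100 ≤ E := by linarith
  have hinv : 0 < 1 / E := by positivity
  have hinv1 : 1 / E ≤ 1 := by
    rw [div_le_one hE0]
    linarith
  have hW0 : 0 < W := by rw [← hTW]; exact Real.exp_pos T
  have hWbig : 150000 ≤ W := by
    have h1 : T ≤ T ^ 3 := le_self_pow₀ (by linarith) (by norm_num)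
    linarith
  obtain ⟨a, ha⟩ : ∃ a : ℝ, a = u + 1 / E := ⟨_, rfl⟩
  rw [← ha]
  have haE : E ≤ a := by linarith
  have ha0 : 0 < a := by linarith
  have haE2 : a ≤ E ^ 2 + 1 := by linarith
  obtain ⟨l, hl⟩ : ∃ l : ℝ, l = ⌈W / a⌉₊ := ⟨_, rfl⟩
  rw [← hl]
  have hWa : 0 < W / a := by positivity
  have hl1 : l ≤ W / a + 1 := by
    rw [hl]
    exact (Nat.ceil_lt_add_one hWa.le).le
  have hl0 : 1 ≤ l := by
    rw [hl]
    exact_mod_cast Nat.one_le_iff_ne_zero.2 (Nat.ceil_pos.2 hWa).ne'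
  have hl2 : l ≤ W / E + 1 := by
    have : W / a ≤ W / E := div_le_div_of_nonneg_left hW0.le hE0 haE
    linarith
  have hWE : W / E ≤ W / 100 := div_le_div_of_nonneg_left hW0.le (by norm_num) hE100
  have hlW : l ≤ W := by linarith
  have hlogl : Real.log l ≤ T := by
    have h1 := Real.log_le_log (by linarith) hlW
    rw [← hTW, Real.log_exp] at h1
    exact h1
  have hlogl0 : 0 ≤ Real.log l := Real.log_nonneg hl0
  have hT0 : 0 < T := by linarith
  have k1 : l * Real.log l ≤ W / 100 + T := by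
    calc l * Real.log l ≤ (W / E + 1) * T := mul_le_mul hl2 hlogl hlogl0 (by positivity)
      _ = W * T / E + T := by ring
      _ ≤ W / 100 + T := by
        have h1 : W * T / E ≤ W / 100 := by
          rw [div_le_div_iff₀ hE0 (by norm_num)]
          nlinarith
        linarith
  have k2 : l * a ≤ W + (E ^ 2 + 1) := by
    calc l * a ≤ (W / a + 1) * a := mul_le_mul_of_nonneg_right hl1 ha0.le
      _ = W + a := by field_simp
      _ ≤ W + (E ^ 2 + 1) := by linarith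
  have k3 : l * (1 / E) ≤ W / 10000 + 1 := by
    calc l * (1 / E) ≤ (W / E + 1) * (1 / E) := mul_le_mul_of_nonneg_right hl2 hinv.le
      _ = W / E / E + 1 / E := by ring
      _ ≤ W / 10000 + 1 := by
        have h1 : W / E / E ≤ W / 100 / 100 := by
          apply div_le_div₀ (by positivity) hWE (by norm_num) hE100
        linarith
  have k4 : Real.log (800 * (2 + l)) ≤ 8 + T := by
    have h1 : 800 * (2 + l) ≤ 2400 * W := by linarith
    have h2 := Real.log_le_log (by linarith) h1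
    rw [Real.log_mul (by norm_num) hW0.ne'] at h2
    have h3 : Real.log W = T := by rw [← hTW, Real.log_exp]
    rw [h3] at h2
    linarith [LevN_log2400]
  have k5 : Real.log E ≤ E := by
    have := Real.log_le_sub_one_of_pos hE0
    linarith
  have k6 : E ^ 2 ≤ 10201 * T ^ 2 := by
    calc E ^ 2 ≤ (101 * T) ^ 2 := pow_le_pow_left₀ hE0.le hE2 2
      _ = 10201 * T ^ 2 := by ring
  have k7 : T ≤ T ^ 2 := le_self_pow₀ (by linarith) (by norm_num)
  have k8 : 1000000 * T ^ 2 ≤ W := by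
    calc 1000000 * T ^ 2 ≤ T * T ^ 2 := mul_le_mul_of_nonneg_right hT (sq_nonneg T)
      _ = T ^ 3 := by ring
      _ ≤ W := hT3
  have k9 : (1 : ℝ) ≤ T ^ 2 := one_le_pow₀ (by linarith)
  have hu : u = a - 1 / E := by rw [ha]; ring
  have k10 : 2 * l * a - 197 / 100 * l * u = 3 / 100 * (l * a) + 197 / 100 * (l * (1 / E)) := by
    rw [hu]
    ring
  have k11 : Real.log (800 * (2 + l)) + l * Real.log l + 2 * l * a - 197 / 100 * l * u + 3 * Real.log E =
      Real.log (800 * (2 + l)) + l * Real.log l + (3 / 100 * (l * a) + 197 / 100 * (l * (1 / E))) +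
        3 * Real.log E := by
    rw [← k10]
    ring
  rw [k11]
  linarith

end Pool.Agent.Lib.MRT
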