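import Pool.Agent.Lib.MRT.Defs
import Pool.Agent.Lib.MR.NumB

/-!
# MRT / Num (30 minutes): numerics of the ladder

`aj E = al E - 37/200 = 3/200 - E^(-1/4)`. `aj_le`: `al_mem`. `aj_ge`: `E ≥ 10^8`: `E^(-1/4) ≤ 1/100`.
`stepnj`: `log E ≥ 100`, `dn E ≤ √E` (`MR.dn_le`): `2 E^10 · E^(3/2) ≤ e^(√E)` (see `MR/NumC`: `t^n/n! ≤ e^t`, `t = √E ≥ e^50`).
`basenj`: `t = E/100 ≥ 10^6`: `8000 (100 t)^7 = 8·10^17 t^7 ≤ t^12/12! ≤ e^t`.
`pairnj`: from `MR.pairn` (read its statement): `aj E - aj E' = al E - al E'`, exponential of both sides, and `600 (2 + l) ≤ E^3` for `l ≤ u/u' + 1 ≤ E^2 + 1` (`u' ≥ dn E ≥ 1`).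
-/

set_option autoImplicit false

open Finset

namespace Pool.Agent.Lib.MRT

open Pool.Agent.Lib.MR (ex Pw PP VV om Om CM al dn lev)

theorem aj_le {E : ℕ} (hE : 10000 ≤ E) : aj E ≤ 3 / 200 := by
  unfold aj
  have h := (MR.al_mem hE).2
  linarith

theorem aj_ge {E : ℕ} (hE : 100000000 ≤ E) : 1 / 200 ≤ aj E := by
  unfold aj al
  have hE' : (100000000 : ℝ) ≤ E := by exact_mod_cast hE
  have h1 : (E : ℝ) ^ (-(1 / 4 : ℝ)) ≤ (100000000 : ℝ) ^ (-(1 / 4 : ℝ)) :=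
    Real.rpow_le_rpow_of_nonpos (by norm_num) hE' (by norm_num)
  have h2 : (100000000 : ℝ) ^ (-(1 / 4 : ℝ)) = 1 / 100 := by
    have h3 : (100000000 : ℝ) = (100 : ℝ) ^ (4 : ℝ) := by norm_num
    rw [h3, ← Real.rpow_mul (by norm_num)]
    norm_num
  rw [h2] at h1
  linarith

theorem stepnj {E : ℕ} (hE : 100 ≤ Real.log E) :
    2 * (E : ℝ) ^ 3 * ((E : ℝ) ^ 3 * ((dn E : ℝ) ^ 3 * ((E : ℝ) ^ 3 * Real.exp (- Real.sqrt E)))) ≤ 1 / E := by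
  have hE0 : (0 : ℝ) < E := by
    by_contra h
    have h1 : (E : ℝ) = 0 := le_antisymm (not_lt.mp h) (Nat.cast_nonneg _)
    rw [h1, Real.log_zero] at hE
    norm_num at hE
  obtain ⟨hd, -⟩ := MR.dn_le hE
  set s : ℝ := Real.sqrt E with hs
  have hs0 : 0 < s := Real.sqrt_pos.mpr hE0
  have hss : s ^ 2 = E := Real.sq_sqrt hE0.le
  have h50 : 50 ≤ Real.log s := by
    rw [hs, Real.log_sqrt hE0.le]
    linarith
  have hs50 : Real.exp 50 ≤ s := by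
    rw [← Real.exp_log hs0]
    exact Real.exp_le_exp.mpr h50
  have hbig : (10000000000000 : ℝ) ≤ s := by
    refine le_trans ?_ hs50
    have h1 := Real.pow_div_factorial_le_exp 50 (by norm_num) 30
    refine le_trans ?_ h1
    rw [le_div_iff₀ (by positivity)]
    norm_num [Nat.factorial]
  have hbig2 : (2 : ℝ) * (25).factorial ≤ s ^ 2 := by
    calc (2 : ℝ) * (25).factorial ≤ (10000000000000 : ℝ) ^ 2 := by norm_num [Nat.factorial]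
      _ ≤ s ^ 2 := pow_le_pow_left₀ (by norm_num) hbig 2
  have hexp := Real.pow_div_factorial_le_exp s hs0.le 25
  rw [le_div_iff₀ hE0, ← hss]
  have h2 : (dn E : ℝ) ^ 3 ≤ s ^ 3 := pow_le_pow_left₀ (Nat.cast_nonneg _) hd 3
  have h3 : 2 * (s ^ 2) ^ 3 * ((s ^ 2) ^ 3 * ((dn E : ℝ) ^ 3 * ((s ^ 2) ^ 3 * Real.exp (-s)))) * s ^ 2 ≤
      2 * s ^ 23 * Real.exp (-s) := by
    calc 2 * (s ^ 2) ^ 3 * ((s ^ 2) ^ 3 * ((dn E : ℝ) ^ 3 * ((s ^ 2) ^ 3 * Real.exp (-s)))) * s ^ 2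
        ≤ 2 * (s ^ 2) ^ 3 * ((s ^ 2) ^ 3 * (s ^ 3 * ((s ^ 2) ^ 3 * Real.exp (-s)))) * s ^ 2 := by gcongr
      _ = 2 * s ^ 23 * Real.exp (-s) := by ring
  refine h3.trans ?_
  rw [Real.exp_neg, mul_inv_le_iff₀ (Real.exp_pos _), one_mul]
  refine le_trans ?_ hexp
  rw [le_div_iff₀ (by positivity)]
  calc 2 * s ^ 23 * (25 : ℕ).factorial = (2 * (25 : ℕ).factorial) * s ^ 23 := by ring
    _ ≤ s ^ 2 * s ^ 23 := mul_le_mul_of_nonneg_right hbig2 (by positivity)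
    _ = s ^ 25 := by ring

theorem basenj {E : ℕ} (hE : 100000000 ≤ E) : 2 * (E : ℝ) ^ 3 * ((E : ℝ) ^ 3 * (4000 * Real.exp (-(E : ℝ) / 100))) ≤ 1 / E := by
  have hE1 : (100000000 : ℝ) ≤ E := by exact_mod_cast hE
  have hE0 : (0 : ℝ) < E := by linarith
  rw [le_div_iff₀ hE0]
  have h1 := Real.pow_div_factorial_le_exp ((E : ℝ) / 100) (by positivity) 12
  have h2 : 2 * (E : ℝ) ^ 3 * ((E : ℝ) ^ 3 * (4000 * Real.exp (-(E : ℝ) / 100))) * E =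
      8000 * (E : ℝ) ^ 7 * Real.exp (-((E : ℝ) / 100)) := by
    rw [neg_div]; ring
  rw [h2, Real.exp_neg, mul_inv_le_iff₀ (Real.exp_pos _), one_mul]
  refine le_trans ?_ h1
  rw [div_pow, div_div, le_div_iff₀ (by positivity)]
  have h3 : (100000000 : ℝ) ^ 5 ≤ (E : ℝ) ^ 5 := pow_le_pow_left₀ (by norm_num) hE1 5
  calc 8000 * (E : ℝ) ^ 7 * (100 ^ 12 * ((12 : ℕ).factorial : ℝ)) =
        (8000 * 100 ^ 12 * ((12 : ℕ).factorial : ℝ)) * (E : ℝ) ^ 7 := by ring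
    _ ≤ (100000000 : ℝ) ^ 5 * (E : ℝ) ^ 7 := by
        gcongr
        norm_num [Nat.factorial]
    _ ≤ (E : ℝ) ^ 5 * (E : ℝ) ^ 7 := by gcongr
    _ = (E : ℝ) ^ 12 := by ring

theorem pairnj {E : ℕ} (hE : 100 ≤ Real.log E) {u u' : ℝ} (hu : (E : ℝ) ≤ u) (hu2 : u ≤ (E : ℝ) ^ 2)
    (hu' : (dn E : ℝ) ≤ u') (hu2' : u' ≤ (dn E : ℝ) ^ 2) :
    600 * (2 + (⌈u / u'⌉₊ : ℝ)) * Real.exp (Real.log 4 + ⌈u / u'⌉₊ * Real.log ⌈u / u'⌉₊ + 2 * u' + 2 * ⌈u / u'⌉₊ / dn E -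
      2 * (aj E - aj (dn E)) * u) ≤ (E : ℝ) ^ 3 * Real.exp (- Real.sqrt E) := by
  have hp := MR.pairn hE hu hu2 hu' hu2'
  obtain ⟨-, h2, h3, -, -, -, -⟩ := MR.dn_le hE
  have ha : aj E - aj (dn E) = al E - al (dn E) := by
    unfold aj
    ring
  rw [ha]
  have hd : (10000 : ℝ) ≤ (dn E : ℝ) := by exact_mod_cast h2
  have hd' : 16 * (dn E : ℝ) ≤ E := by exact_mod_cast h3
  have hE1 : (160000 : ℝ) ≤ E := by linarith
  have hu0 : 0 < u := by linarith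
  have hu'1 : 1 ≤ u' := by linarith
  have hx0 : 0 < u / u' := by positivity
  have hl2 : (⌈u / u'⌉₊ : ℝ) ≤ (E : ℝ) ^ 2 + 1 := by
    have h8 := (Nat.ceil_lt_add_one hx0.le).le
    have h9 : u / u' ≤ u := div_le_self hu0.le hu'1
    linarith
  have hl0 : (0 : ℝ) ≤ (⌈u / u'⌉₊ : ℝ) := Nat.cast_nonneg _
  have hexp := Real.exp_le_exp.mpr hp
  refine mul_le_mul ?_ hexp (Real.exp_nonneg _) (by positivity)
  have h10 : (1 : ℝ) ≤ (E : ℝ) ^ 2 := one_le_pow₀ (by linarith)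
  have h11 : 160000 * (E : ℝ) ^ 2 ≤ (E : ℝ) ^ 3 := by
    have h12 : (E : ℝ) ^ 3 = E * (E : ℝ) ^ 2 := by ring
    rw [h12]
    exact mul_le_mul_of_nonneg_right hE1 (by positivity)
  linarith

end Pool.Agent.Lib.MRT
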