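import Pool.Agent.Lib.MRT.LevN
import Pool.Agent.Lib.MRT.Num
import Pool.Agent.Lib.MRT.Mom

/-!
# MRT / Top (25 minutes): few `j` are not small at the top level

Copy of `MR.top` (`MR/Top`): `cntwj` with `T := x ≥ 1`, `H = E = lev x`, `τ = e^((197/200) u) ≤ e^((1 - aj E) u)` (`aj_le`), `l = ⌈log x/(u + 1/E)⌉₊`: `|U_v| τ^(2l) ≤ 800 (2 + l) l^l e^(2l(u + 1/E))`, `2 l · (197/200) u = (197/100) l u`, `topnj`.
-/

set_option autoImplicit false

open Finset

namespace Pool.Agent.Lib.MRT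

open Pool.Agent.Lib.MR (ex Pw PP VV om Om CM al dn lev)

theorem topj : ∃ x0 : ℕ, ∀ x : ℕ, x0 ≤ x → ∀ f : ℕ → ℂ, CM f → ∀ U : Finset ℤ, (∀ j ∈ U, |(j : ℝ)| ≤ x) →
    (∀ j ∈ U, ¬ smallj f (lev x) j) → (U.card : ℝ) ≤ (x : ℝ) ^ ((1 : ℝ) / 20) := by
  classical
  obtain ⟨q1, h1⟩ := Pool.Agent.Lib.MR.lev_large 10000
  obtain ⟨q2, h2⟩ := topnj
  refine ⟨max (max q1 q2) 2, fun q hq f hf U hUx hU => ?_⟩
  have hq1 : q1 ≤ q := (le_max_left _ _).trans ((le_max_left _ _).trans hq)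
  have hq2 : q2 ≤ q := (le_max_right _ _).trans ((le_max_left _ _).trans hq)
  have hq3 : 2 ≤ q := (le_max_right _ _).trans hq
  have hE := h1 q hq1
  set E := lev q with hEdef
  have hqr : (2 : ℝ) ≤ q := by exact_mod_cast hq3
  have hq0 : (0 : ℝ) < q := by linarith
  have hlq : 0 < Real.log q := Real.log_pos (by linarith)
  have hEr : (10000 : ℝ) ≤ E := by exact_mod_cast hE
  have hE0 : (0 : ℝ) < E := by linarith
  have ha2 := aj_le hE
  -- the covering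
  let Uv : ℕ → Finset ℤ := fun v =>
    U.filter (fun j => Real.exp ((1 - aj E) * ((v : ℝ) / E)) ≤ ‖QJ f E v j‖)
  have hcov : U ⊆ (Ico (E ^ 2) (E ^ 3)).biUnion Uv := by
    intro χ hχ
    have h3 := hU χ hχ
    unfold smallj at h3
    push Not at h3
    obtain ⟨v, hv, hlt⟩ := h3
    exact mem_biUnion.mpr ⟨v, hv, mem_filter.mpr ⟨hχ, hlt.le⟩⟩
  have hcard : (U.card : ℝ) ≤ ∑ v ∈ Ico (E ^ 2) (E ^ 3), ((Uv v).card : ℝ) := by
    have h3 := (card_le_card hcov).trans card_biUnion_le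
    calc (U.card : ℝ) ≤ ((∑ v ∈ Ico (E ^ 2) (E ^ 3), (Uv v).card : ℕ) : ℝ) := by exact_mod_cast h3
      _ = _ := by push_cast; rfl
  -- each window
  have hwin : ∀ v ∈ Ico (E ^ 2) (E ^ 3), ((Uv v).card : ℝ) ≤ (q : ℝ) ^ ((1 : ℝ) / 20) / (E : ℝ) ^ 3 := by
    intro v hv
    obtain ⟨hv1, hv2⟩ := mem_Ico.mp hv
    set u : ℝ := (v : ℝ) / E with hu
    have hu1 : (E : ℝ) ≤ u := by
      rw [hu, le_div_iff₀ hE0]
      have : ((E ^ 2 : ℕ) : ℝ) ≤ v := by exact_mod_cast hv1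
      push_cast at this
      nlinarith
    have hu2 : u ≤ (E : ℝ) ^ 2 := by
      rw [hu, div_le_iff₀ hE0]
      have : (v : ℝ) ≤ ((E ^ 3 : ℕ) : ℝ) := by exact_mod_cast hv2.le
      push_cast at this
      nlinarith
    have hu0 : 0 < u := by linarith
    have htop := h2 q hq2 u hu1 hu2
    set l : ℕ := ⌈Real.log q / (u + 1 / E)⌉₊ with hl
    have hui : 0 < u + 1 / (E : ℝ) := by positivity
    have hl1 : Real.log q ≤ l * (u + 1 / E) := by
      have := Nat.le_ceil (Real.log q / (u + 1 / (E : ℝ)))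
      rw [div_le_iff₀ hui] at this
      exact this
    have hl0 : 0 < l := Nat.ceil_pos.mpr (by positivity)
    have hlr : (0 : ℝ) < l := by exact_mod_cast hl0
    have hex : ex E (v + 1) = Real.exp (u + 1 / E) := by
      unfold ex
      congr 1
      rw [hu]
      push_cast
      ring
    have hZ : (q : ℝ) ≤ ex E (v + 1) ^ l := by
      rw [hex, ← Real.exp_nat_mul, ← Real.log_le_iff_le_exp hq0]
      exact hl1
    have hv16 : 16 ≤ ex E v := by
      unfold ex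
      rw [← hu]
      have := Real.add_one_le_exp u
      linarith
    have hc := cntwj hf (show 32 ≤ E by omega) hv16 (T := (q : ℝ)) (by linarith) hZ
      (τ := Real.exp (197 / 200 * u)) (Real.exp_pos _).le (Uv v)
      (fun χ hχ => hUx χ (mem_filter.mp hχ).1) (by
      intro χ hχ
      refine le_trans ?_ (mem_filter.mp hχ).2
      rw [Real.exp_le_exp, ← hu]
      exact mul_le_mul_of_nonneg_right (by linarith) hu0.le)
    rw [hex, ← Real.exp_nat_mul, ← Real.exp_nat_mul] at hc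
    rw [le_div_iff₀ (by positivity)]
    have hT : 0 < Real.exp (((2 * l : ℕ) : ℝ) * (197 / 200 * u)) := Real.exp_pos _
    refine le_of_mul_le_mul_right ?_ hT
    have h4 : ((Uv v).card : ℝ) * (E : ℝ) ^ 3 * Real.exp (((2 * l : ℕ) : ℝ) * (197 / 200 * u)) ≤
        800 * (2 + l) * (l : ℝ) ^ l * Real.exp (((2 * l : ℕ) : ℝ) * (u + 1 / E)) * (E : ℝ) ^ 3 := by
      have := mul_le_mul_of_nonneg_right hc (by positivity : (0 : ℝ) ≤ (E : ℝ) ^ 3)
      calc _ = ((Uv v).card : ℝ) * Real.exp (((2 * l : ℕ) : ℝ) * (197 / 200 * u)) * (E : ℝ) ^ 3 := by ring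
        _ ≤ _ := this
    refine h4.trans ?_
    have h5 : (800 * (2 + (l : ℝ))) = Real.exp (Real.log (800 * (2 + l))) :=
      (Real.exp_log (by positivity)).symm
    have h6 : (l : ℝ) ^ l = Real.exp (l * Real.log l) := by
      rw [← Real.log_pow, Real.exp_log (by positivity)]
    have h7 : (E : ℝ) ^ 3 = Real.exp (3 * Real.log E) := by
      have : (3 : ℝ) * Real.log E = Real.log ((E : ℝ) ^ 3) := by
        rw [Real.log_pow]; norm_num
      rw [this, Real.exp_log (by positivity)]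
    have h8 : (q : ℝ) ^ ((1 : ℝ) / 20) = Real.exp (1 / 20 * Real.log q) := by
      rw [Real.rpow_def_of_pos hq0, mul_comm]
    rw [h5, h6, h7, h8]
    rw [← Real.exp_add, ← Real.exp_add, ← Real.exp_add, ← Real.exp_add, Real.exp_le_exp]
    push_cast
    linarith
  have hsum : ∑ v ∈ Ico (E ^ 2) (E ^ 3), ((Uv v).card : ℝ) ≤
      ((Ico (E ^ 2) (E ^ 3)).card : ℝ) * ((q : ℝ) ^ ((1 : ℝ) / 20) / (E : ℝ) ^ 3) := by
    rw [← nsmul_eq_mul]
    exact sum_le_card_nsmul _ _ _ hwin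
  refine hcard.trans (hsum.trans ?_)
  have h9 : ((Ico (E ^ 2) (E ^ 3)).card : ℝ) ≤ (E : ℝ) ^ 3 := by
    rw [Nat.card_Ico]
    calc ((E ^ 3 - E ^ 2 : ℕ) : ℝ) ≤ ((E ^ 3 : ℕ) : ℝ) := by exact_mod_cast Nat.sub_le _ _
      _ = _ := by push_cast; rfl
  calc ((Ico (E ^ 2) (E ^ 3)).card : ℝ) * ((q : ℝ) ^ ((1 : ℝ) / 20) / (E : ℝ) ^ 3) ≤
      (E : ℝ) ^ 3 * ((q : ℝ) ^ ((1 : ℝ) / 20) / (E : ℝ) ^ 3) := by gcongr
    _ = _ := by field_simp

end Pool.Agent.Lib.MRT
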