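import Pool.Agent.Lib.MRT.Chain
import Pool.Agent.Lib.MRT.Top

/-!
# MRT / Main (25 minutes): the mean square of `DD f x j` over `|j| ≤ T ≤ x/A0`

Like `MR/Main`: `E1` from `chainj`, `E0 ≥ E1` with `2·10^6/log E0 ≤ η/2`, `A0` from `chainj`; for `x` large `E = lev x ≥ E0` (`MR.lev_large`), `ex E (E^3)^2 ≤ x/E` (`MR.lev_ok`). `J = J.filter (smallj f E) ∪ U`; the first by `chainj`;
`U` has at most `x^(1/20)` elements (`topj`; `T ≤ x`), and `DD f x j = ∑_{n ≤ 2x} - ∑_{n ≤ x}` (`⌊2 (x : ℝ)⌋₊ = 2 x`), `‖u - w‖² ≤ 2‖u‖² + 2‖w‖²`, `ExcP` with `η/20` at `x` and at `2x`: `≤ 2 (η/20) 4x² + 2 (η/20) x² = η x²/2`.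
-/

set_option autoImplicit false

open Finset

namespace Pool.Agent.Lib.MRT

open Pool.Agent.Lib.MR (ex Pw PP VV om Om CM al dn lev)

private theorem mrj_DD (f : ℕ → ℂ) (x : ℕ) (j : ℤ) :
    DD f x j = ∑ n ∈ Icc 1 (2 * x), f n * cj j n - ∑ n ∈ Icc 1 x, f n * cj j n := by
  unfold DD
  have h1 : ⌊2 * (x : ℝ)⌋₊ = 2 * x := by
    have : 2 * (x : ℝ) = ((2 * x : ℕ) : ℝ) := by push_cast; ring
    rw [this, Nat.floor_natCast]
  rw [h1, Nat.floor_natCast, eq_sub_iff_add_eq, add_comm]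
  have h2 : Icc 1 (2 * x) = Icc 1 x ∪ Ioc x (2 * x) := by
    ext n
    simp only [mem_union, mem_Icc, mem_Ioc]
    omega
  rw [h2, sum_union]
  rw [disjoint_left]
  intro n hn hn'
  rw [mem_Icc] at hn
  rw [mem_Ioc] at hn'
  omega

theorem mrj {f : ℕ → ℂ} (hf : CM f) (h : ExcP f) {η : ℝ} (hη : 0 < η) : ∃ A0 : ℕ, 0 < A0 ∧ ∃ x0 : ℕ, ∀ x : ℕ, x0 ≤ x →
    ∀ T : ℝ, 1 ≤ T → (A0 : ℝ) * T ≤ x → ∀ J : Finset ℤ, (∀ j ∈ J, |(j : ℝ)| ≤ T) → ∑ j ∈ J, ‖DD f x j‖ ^ 2 ≤ η * (x : ℝ) ^ 2 := by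
  classical
  obtain ⟨E1, hE1⟩ := chainj
  set E0 : ℕ := max E1 ⌈Real.exp (4000000 / η)⌉₊ with hE0
  obtain ⟨A0, hA0, hch⟩ := hE1 E0 (le_max_left _ _)
  have hE0r : Real.exp (4000000 / η) ≤ E0 :=
    (Nat.le_ceil _).trans (by exact_mod_cast le_max_right _ _)
  have hlogE0 : 4000000 / η ≤ Real.log E0 := by
    rw [Real.le_log_iff_exp_le (lt_of_lt_of_le (Real.exp_pos _) hE0r)]
    exact hE0r
  have hpos : 0 < 4000000 / η := by positivity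
  have h200 : 2000000 / Real.log E0 ≤ η / 2 := by
    rw [div_le_div_iff₀ (by linarith) (by norm_num)]
    have := mul_le_mul_of_nonneg_left hlogE0 hη.le
    rw [mul_div_cancel₀ _ hη.ne'] at this
    linarith
  have hE0one : 1 ≤ E0 := by
    have h1 : (1 : ℝ) ≤ Real.exp (4000000 / η) := Real.one_le_exp hpos.le
    exact_mod_cast h1.trans hE0r
  obtain ⟨x1, hx1⟩ := Pool.Agent.Lib.MR.lev_large E0
  obtain ⟨x2, hx2⟩ := Pool.Agent.Lib.MR.lev_ok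
  obtain ⟨x3, hx3⟩ := topj
  obtain ⟨x4, hx4⟩ := h (η / 20) (by positivity)
  refine ⟨A0, hA0, max x1 (max x2 (max x3 x4)), fun x hx T hT1 hTx J hJ => ?_⟩
  have hm1 : x1 ≤ x := (le_max_left _ _).trans hx
  have hr1 : max x2 (max x3 x4) ≤ x := (le_max_right _ _).trans hx
  have hm2 : x2 ≤ x := (le_max_left _ _).trans hr1
  have hr2 : max x3 x4 ≤ x := (le_max_right _ _).trans hr1
  have hm3 : x3 ≤ x := (le_max_left _ _).trans hr2
  have hm4 : x4 ≤ x := (le_max_right _ _).trans hr2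
  have hA1 : (1 : ℝ) ≤ A0 := by exact_mod_cast hA0
  have hTx' : T ≤ x := by
    refine le_trans ?_ hTx
    nlinarith
  have hx0 : (0 : ℝ) ≤ x := by positivity
  have hlev : E0 ≤ lev x := hx1 x hm1
  -- the small ones
  have hfirst : ∑ j ∈ J.filter (fun j => smallj f (lev x) j), ‖DD f x j‖ ^ 2 ≤
      (x : ℝ) ^ 2 * (η / 2) := by
    have h1 := hch T x hT1 hTx f hf (lev x) hlev (hx2 x hm2)
      (J.filter (fun j => smallj f (lev x) j)) (fun j hj => hJ j (mem_filter.mp hj).1)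
      (fun j hj => (mem_filter.mp hj).2)
    refine h1.trans (mul_le_mul_of_nonneg_left ?_ (by positivity))
    have hlog : 0 ≤ Real.log (lev x) := Real.log_natCast_nonneg _
    have : 0 ≤ 1000000 / Real.log (lev x) := by positivity
    linarith
  -- the others
  have hsecond : ∑ j ∈ J.filter (fun j => ¬ smallj f (lev x) j), ‖DD f x j‖ ^ 2 ≤
      (x : ℝ) ^ 2 * (η / 2) := by
    set U := J.filter (fun j => ¬ smallj f (lev x) j) with hU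
    have hUx : ∀ j ∈ U, |(j : ℝ)| ≤ x := fun j hj => (hJ j (mem_filter.mp hj).1).trans hTx'
    have hcard : (U.card : ℝ) ≤ (x : ℝ) ^ ((1 : ℝ) / 20) :=
      hx3 x hm3 f hf U hUx (fun j hj => (mem_filter.mp hj).2)
    have hb1 := hx4 x hm4 U hUx hcard
    have h2x : x ≤ 2 * x := by omega
    have h2xr : (x : ℝ) ≤ ((2 * x : ℕ) : ℝ) := by exact_mod_cast h2x
    have hb2 := hx4 (2 * x) (hm4.trans h2x) U (fun j hj => (hUx j hj).trans h2xr)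
      (hcard.trans (Real.rpow_le_rpow hx0 h2xr (by norm_num)))
    have hterm : ∀ j ∈ U, ‖DD f x j‖ ^ 2 ≤ 2 * ‖∑ n ∈ Icc 1 (2 * x), f n * cj j n‖ ^ 2 +
        2 * ‖∑ n ∈ Icc 1 x, f n * cj j n‖ ^ 2 := by
      intro j _
      rw [mrj_DD]
      have h1 := norm_sub_le (∑ n ∈ Icc 1 (2 * x), f n * cj j n) (∑ n ∈ Icc 1 x, f n * cj j n)
      have h2 : ‖∑ n ∈ Icc 1 (2 * x), f n * cj j n - ∑ n ∈ Icc 1 x, f n * cj j n‖ ^ 2 ≤
          (‖∑ n ∈ Icc 1 (2 * x), f n * cj j n‖ + ‖∑ n ∈ Icc 1 x, f n * cj j n‖) ^ 2 :=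
        pow_le_pow_left₀ (norm_nonneg _) h1 2
      nlinarith [sq_nonneg (‖∑ n ∈ Icc 1 (2 * x), f n * cj j n‖ - ‖∑ n ∈ Icc 1 x, f n * cj j n‖)]
    refine (sum_le_sum hterm).trans ?_
    rw [sum_add_distrib, ← mul_sum, ← mul_sum]
    push_cast at hb2
    nlinarith
  rw [← Finset.sum_filter_add_sum_filter_not J (fun j => smallj f (lev x) j)
    (fun j => ‖DD f x j‖ ^ 2)]
  linarith

end Pool.Agent.Lib.MRT
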