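import Pool.Agent.Lib.MRT.Defs
import Pool.Agent.Lib.MR.MomA

/-!
# MRT / MomA: the coefficients of `(∑_P a_p p^(-ij))^l ∑_m b_m m^(-ij)`

`cc_expandj`: copy of `MR.cc_expand` (`χ` multiplicative becomes `cj_mul`, `p ≠ 0`, `m ≥ 1` inside `cc_regroup`: the summands with `m = 0` do not occur; `cc_supp`, `cc_regroup` are used as they are).
`cc_lower`: induction on `l`: `n < W^(l+1) Y0`, `p ∣ n`: `(n/p) p = n < W (W^l Y0) ≤ p (W^l Y0)`, so `n/p < W^l Y0`.
-/

set_option autoImplicit false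

open Finset

namespace Pool.Agent.Lib.MRT

open Pool.Agent.Lib.MR (cc cc_supp cc_regroup)

theorem cc_expandj {P : Finset ℕ} {a b : ℕ → ℂ} {Z Y : ℕ} (hP : ∀ p ∈ P, p.Prime ∧ p ≤ Z) (hb : ∀ n, n ∉ Icc 1 Y → b n = 0)
    (j : ℤ) (l : ℕ) :
    (∑ p ∈ P, a p * cj j p) ^ l * ∑ m ∈ Icc 1 Y, b m * cj j m =
      ∑ n ∈ Icc 1 (Z ^ l * Y), cc P a b l n * cj j n := by
  induction l with
  | zero => simp [cc]
  | succ l ih =>
    have e1 : (∑ p ∈ P, a p * cj j p) ^ (l + 1) * ∑ m ∈ Icc 1 Y, b m * cj j m =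
        (∑ p ∈ P, a p * cj j p) * ∑ n ∈ Icc 1 (Z ^ l * Y), cc P a b l n * cj j n := by
      rw [← ih]; ring
    rw [e1, sum_mul]
    have e2 : ∀ p ∈ P, a p * cj j p * ∑ n ∈ Icc 1 (Z ^ l * Y), cc P a b l n * cj j n =
        ∑ n ∈ (Icc 1 (Z ^ (l + 1) * Y)).filter (fun n => p ∣ n),
          a p * cc P a b l (n / p) * cj j n := by
      intro p hp
      obtain ⟨hpp, hpZ⟩ := hP p hp
      have hV : p * (Z ^ l * Y) ≤ Z ^ (l + 1) * Y := by
        calc p * (Z ^ l * Y) ≤ Z * (Z ^ l * Y) := Nat.mul_le_mul_right _ hpZ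
          _ = Z ^ (l + 1) * Y := by ring
      have h := cc_regroup (M := ℂ) hpp.pos hV (fun m => a p * cc P a b l m * cj j (p * m))
        (fun m hm => by
          rw [cc_supp hP hb l m hm, mul_zero, zero_mul])
      rw [mul_sum]
      have h2 : ∑ n ∈ (Icc 1 (Z ^ (l + 1) * Y)).filter (fun n => p ∣ n),
          a p * cc P a b l (n / p) * cj j n =
          ∑ n ∈ (Icc 1 (Z ^ (l + 1) * Y)).filter (fun n => p ∣ n),
            a p * cc P a b l (n / p) * cj j (p * (n / p)) := by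
        refine sum_congr rfl fun n hn => ?_
        rw [mem_filter] at hn
        rw [Nat.mul_div_cancel' hn.2]
      rw [h2, h]
      refine sum_congr rfl fun m hm => ?_
      have hm0 : m ≠ 0 := by
        have := (mem_Icc.1 hm).1
        omega
      rw [cj_mul j hpp.ne_zero hm0]
      ring
    rw [sum_congr rfl e2]
    simp only [cc]
    have e3 : ∀ n, (∑ p ∈ P.filter (fun p => p ∣ n), a p * cc P a b l (n / p)) * cj j n =
        ∑ p ∈ P, if p ∣ n then a p * cc P a b l (n / p) * cj j n else 0 := by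
      intro n
      rw [sum_mul, sum_filter]
    simp only [e3]
    rw [sum_comm]
    refine sum_congr rfl fun p _ => ?_
    rw [sum_filter]

theorem cc_lower {P : Finset ℕ} {a b : ℕ → ℂ} {W Y0 : ℕ} (hP : ∀ p ∈ P, W ≤ p) (hb : ∀ n, n < Y0 → b n = 0) (l n : ℕ)
    (hn : n < W ^ l * Y0) : cc P a b l n = 0 := by
  induction l generalizing n with
  | zero => exact hb n (by simpa using hn)
  | succ l ih =>
    simp only [cc]
    apply sum_eq_zero
    intro p hp
    rw [mem_filter] at hp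
    obtain ⟨hpP, m, rfl⟩ := hp
    have hWp := hP p hpP
    rcases Nat.eq_zero_or_pos p with h0 | h0
    · subst h0
      have hW : W = 0 := by omega
      rw [hW] at hn
      simp at hn
    · rw [Nat.mul_div_cancel_left _ h0]
      have h1 : m < W ^ l * Y0 := by
        by_contra h
        have h2 : W ^ (l + 1) * Y0 ≤ p * m := by
          calc W ^ (l + 1) * Y0 = W * (W ^ l * Y0) := by ring
            _ ≤ p * m := Nat.mul_le_mul hWp (not_lt.1 h)
        omega
      rw [ih m h1, mul_zero]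

end Pool.Agent.Lib.MRT
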