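import Pool.Agent.Lib.MRT.Pars

/-!
# MRT / Win: one interval `(n, n + L]` from the windows

`∫_{log n}^{log (n+L)} GG f X δ θ dθ = ∑_{m ∈ Ioc X (2X)} f(m) λ_m`, `λ_m` = length of `[log n, log (n+L)] ∩ [log m - δ, log m)`:
`0 ≤ λ_m ≤ δ`; `λ_m = 0` for `m ≤ n` and for `log m ≥ log (n+L) + δ`; `λ_m = δ` if `log n + δ ≤ log m ≤ log (n + L)`.
-/

set_option autoImplicit false

open Finset MeasureTheory

namespace Pool.Agent.Lib.MRT

/-- the length `λ_m` -/
private noncomputable def wnl (a b δ l : ℝ) : ℝ := volume.real (Set.Icc a b ∩ Set.Ico (l - δ) l)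

private theorem wnl_nonneg (a b δ l : ℝ) : 0 ≤ wnl a b δ l := measureReal_nonneg

private theorem wnl_le {a b δ l : ℝ} (hδ : 0 < δ) : wnl a b δ l ≤ δ := by
  unfold wnl
  have h1 : volume.real (Set.Icc a b ∩ Set.Ico (l - δ) l) ≤ volume.real (Set.Ico (l - δ) l) :=
    measureReal_mono Set.inter_subset_right (by rw [Real.volume_Ico]; exact ENNReal.ofReal_ne_top)
  have h2 : volume.real (Set.Ico (l - δ) l) = δ := by
    rw [Real.volume_real_Ico_of_le (by linarith)]
    ring
  rw [h2] at h1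
  exact h1

private theorem wnl_zero_left {a b δ l : ℝ} (h : l ≤ a) : wnl a b δ l = 0 := by
  unfold wnl
  have h1 : Set.Icc a b ∩ Set.Ico (l - δ) l = ∅ := by
    ext x
    simp only [Set.mem_inter_iff, Set.mem_Icc, Set.mem_Ico, Set.mem_empty_iff_false, iff_false, not_and]
    intro h2 _
    linarith [h2.1]
  rw [h1, measureReal_empty]

private theorem wnl_zero_right {a b δ l : ℝ} (h : b < l - δ) : wnl a b δ l = 0 := by
  unfold wnl
  have h1 : Set.Icc a b ∩ Set.Ico (l - δ) l = ∅ := by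
    ext x
    simp only [Set.mem_inter_iff, Set.mem_Icc, Set.mem_Ico, Set.mem_empty_iff_false, iff_false, not_and]
    intro h2 h3
    linarith [h2.2]
  rw [h1, measureReal_empty]

private theorem wnl_full {a b δ l : ℝ} (hδ : 0 < δ) (h1 : a ≤ l - δ) (h2 : l ≤ b) : wnl a b δ l = δ := by
  unfold wnl
  have h3 : Set.Icc a b ∩ Set.Ico (l - δ) l = Set.Ico (l - δ) l := by
    apply Set.inter_eq_right.mpr
    intro x hx
    exact ⟨by linarith [hx.1], by linarith [hx.2]⟩
  rw [h3, Real.volume_real_Ico_of_le (by linarith)]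
  ring

private theorem wn_int {a b δ l : ℝ} (hab : a ≤ b) (c : ℂ) :
    ∫ θ in a..b, (if θ < l ∧ l ≤ θ + δ then c else 0) = (wnl a b δ l : ℂ) * c := by
  have h1 : ∀ θ : ℝ, (if θ < l ∧ l ≤ θ + δ then c else 0) = (Set.Ico (l - δ) l).indicator (fun _ => c) θ := by
    intro θ
    rw [Set.indicator_apply]
    have h2 : (θ < l ∧ l ≤ θ + δ) ↔ θ ∈ Set.Ico (l - δ) l := by
      rw [Set.mem_Ico]
      constructor
      · rintro ⟨h3, h4⟩
        exact ⟨by linarith, h3⟩
      · rintro ⟨h3, h4⟩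
        exact ⟨h4, by linarith⟩
    simp only [h2]
  rw [intervalIntegral.integral_of_le hab, ← integral_Icc_eq_integral_Ioc]
  simp only [h1]
  rw [setIntegral_indicator measurableSet_Ico, setIntegral_const]
  unfold wnl
  rw [Complex.real_smul]

private theorem wn_intble {a b δ l : ℝ} (c : ℂ) :
    IntervalIntegrable (fun θ : ℝ => (if θ < l ∧ l ≤ θ + δ then c else 0)) volume a b := by
  have h1 : (fun θ : ℝ => (if θ < l ∧ l ≤ θ + δ then c else 0)) = (Set.Ico (l - δ) l).indicator (fun _ => c) := by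
    funext θ
    rw [Set.indicator_apply]
    have h2 : (θ < l ∧ l ≤ θ + δ) ↔ θ ∈ Set.Ico (l - δ) l := by
      rw [Set.mem_Ico]
      constructor
      · rintro ⟨h3, h4⟩
        exact ⟨by linarith, h3⟩
      · rintro ⟨h3, h4⟩
        exact ⟨h4, by linarith⟩
    simp only [h2]
  rw [h1]
  have h3 : Integrable ((Set.Ico (l - δ) l).indicator (fun _ => c) : ℝ → ℂ) volume := by
    rw [integrable_indicator_iff measurableSet_Ico]
    exact integrableOn_const (by rw [Real.volume_Ico]; exact ENNReal.ofReal_ne_top)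
  exact h3.intervalIntegrable

private theorem wn_GG {a b δ : ℝ} (hab : a ≤ b) (f : ℕ → ℂ) (X : ℕ) :
    ∫ θ in a..b, GG f X δ θ = ∑ m ∈ Ioc X (2 * X), (wnl a b δ (Real.log m) : ℂ) * f m := by
  unfold GG
  rw [intervalIntegral.integral_finsetSum fun m _ => wn_intble (f m)]
  exact sum_congr rfl fun m _ => wn_int hab (f m)

private theorem wn_exp {δ : ℝ} (hδ : 0 < δ) (hδ1 : δ ≤ 1) : Real.exp δ - 1 ≤ 2 * δ := by
  have h2 : Real.exp δ ≤ 1 + δ + δ ^ 2 := by
    have h3 := Real.abs_exp_sub_one_sub_id_le (x := δ) (by rw [abs_of_pos hδ]; exact hδ1)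
    have h4 := le_of_abs_le h3
    linarith
  nlinarith

/-- the `m` with `n < m < n e^δ` -/
private noncomputable def wnB (δ : ℝ) (n : ℕ) : Finset ℕ := Ioc n (n + ⌊(n : ℝ) * (2 * δ)⌋₊)

private theorem wnB_card {δ : ℝ} (hδ : 0 < δ) (n : ℕ) : ((wnB δ n).card : ℝ) ≤ n * (2 * δ) := by
  unfold wnB
  rw [Nat.card_Ioc, Nat.add_sub_cancel_left]
  exact Nat.floor_le (by positivity)

private theorem wnB_mem {δ : ℝ} (hδ : 0 < δ) (hδ1 : δ ≤ 1) {n m : ℕ} (hn : 1 ≤ n) (h1 : n < m)
    (h2 : Real.log m < Real.log n + δ) : m ∈ wnB δ n := by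
  unfold wnB
  rw [mem_Ioc]
  refine ⟨h1, ?_⟩
  have hn' : (0 : ℝ) < n := by exact_mod_cast hn
  have hm' : (0 : ℝ) < m := by exact_mod_cast (by omega : 0 < m)
  have h3 : (m : ℝ) < n * Real.exp δ := by
    rw [← Real.exp_log hm', ← Real.exp_log hn', ← Real.exp_add]
    exact Real.exp_lt_exp.mpr h2
  have h4 := wn_exp hδ hδ1
  have h5 : ((m - n : ℕ) : ℝ) ≤ n * (2 * δ) := by
    rw [Nat.cast_sub h1.le]
    nlinarith
  have h6 : m - n ≤ ⌊(n : ℝ) * (2 * δ)⌋₊ := Nat.le_floor h5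
  omega

private theorem wn_term {f : ℕ → ℂ} (hf : ∀ n, ‖f n‖ ≤ 1) {n L m : ℕ} {δ : ℝ} (hn : 1 ≤ n)
    (hδ : 0 < δ) (hδ1 : δ ≤ 1) (hm : 1 ≤ m) :
    ‖(if m ∈ Ioc n (n + L) then (δ : ℂ) * f m else 0) - (wnl (Real.log n) (Real.log (n + L)) δ (Real.log m) : ℂ) * f m‖ ≤
      if m ∈ wnB δ n ∪ wnB δ (n + L) then δ else 0 := by
  have hn' : (0 : ℝ) < n := by exact_mod_cast hn
  have hm' : (0 : ℝ) < m := by exact_mod_cast hm
  have hnL : (0 : ℝ) < (n : ℝ) + L := by positivity
  have hnLc : ((n + L : ℕ) : ℝ) = (n : ℝ) + L := by push_cast; ring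
  set w := wnl (Real.log n) (Real.log (n + L)) δ (Real.log m) with hw
  have hw0 : 0 ≤ w := wnl_nonneg _ _ _ _
  have hw1 : w ≤ δ := wnl_le hδ
  have hfm := hf m
  by_cases h1 : m ∈ Ioc n (n + L)
  · rw [if_pos h1, ← sub_mul, norm_mul, ← Complex.ofReal_sub, Complex.norm_real, Real.norm_of_nonneg (by linarith)]
    rw [mem_Ioc] at h1
    by_cases h2 : Real.log m < Real.log n + δ
    · rw [if_pos (mem_union_left _ (wnB_mem hδ hδ1 hn h1.1 h2))]
      nlinarith [norm_nonneg (f m)]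
    · push Not at h2
      have h3 : Real.log m ≤ Real.log (n + L) := by
        apply Real.log_le_log hm'
        rw [← hnLc]
        exact_mod_cast h1.2
      have h4 : w = δ := wnl_full hδ (by linarith) h3
      rw [h4, sub_self, zero_mul]
      split_ifs
      · exact hδ.le
      · exact le_rfl
  · rw [if_neg h1, zero_sub, norm_neg, norm_mul, Complex.norm_real, Real.norm_of_nonneg hw0]
    rw [mem_Ioc] at h1
    by_cases h2 : m ≤ n
    · have h3 : w = 0 := wnl_zero_left (Real.log_le_log hm' (by exact_mod_cast h2))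
      rw [h3, zero_mul]
      split_ifs
      · exact hδ.le
      · exact le_rfl
    · push Not at h2
      have h3 : n + L < m := by
        by_contra h4
        exact h1 ⟨h2, by omega⟩
      by_cases h4 : Real.log m < Real.log ((n + L : ℕ) : ℝ) + δ
      · rw [if_pos (mem_union_right _ (wnB_mem hδ hδ1 (by omega) h3 h4))]
        nlinarith [norm_nonneg (f m)]
      · push Not at h4
        rw [hnLc] at h4
        rcases h4.lt_or_eq with h5 | h5
        · have h6 : w = 0 := wnl_zero_right (by linarith)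
          rw [h6, zero_mul]
          split_ifs
          · exact hδ.le
          · exact le_rfl
        · have h6 : w = 0 := by
            rw [hw]
            unfold wnl
            have h7 : Set.Icc (Real.log n) (Real.log (n + L)) ∩ Set.Ico (Real.log m - δ) (Real.log m) ⊆ {Real.log m - δ} := by
              intro x hx
              have h8 := hx.1.2
              have h9 := hx.2.1
              rw [Set.mem_singleton_iff]
              linarith
            have h8 := measureReal_mono (μ := volume) h7 (by simp)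
            have h9 : volume.real ({Real.log m - δ} : Set ℝ) = 0 := by simp [Measure.real]
            rw [h9] at h8
            exact le_antisymm h8 measureReal_nonneg
          rw [h6, zero_mul]
          split_ifs
          · exact hδ.le
          · exact le_rfl

private theorem wn_ii {f : ℕ → ℂ} (hf : ∀ n, ‖f n‖ ≤ 1) (X : ℕ) (δ a b : ℝ) :
    IntervalIntegrable (fun θ => ‖GG f X δ θ‖) volume a b := by
  have h1 : Measurable fun θ => ‖GG f X δ θ‖ := (GG_measurable f X δ).norm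
  refine IntervalIntegrable.mono_fun (g := fun θ => ‖GG f X δ θ‖) (f := fun _ : ℝ => (1 * X : ℝ)) intervalIntegrable_const
    h1.aestronglyMeasurable ?_
  refine Filter.Eventually.of_forall fun θ => ?_
  show ‖‖GG f X δ θ‖‖ ≤ ‖(1 * X : ℝ)‖
  rw [norm_norm]
  exact (GG_norm_le hf X δ θ).trans (le_abs_self _)

theorem winj {f : ℕ → ℂ} (hf : ∀ n, ‖f n‖ ≤ 1) {X n L : ℕ} {δ : ℝ} (hX : 1 ≤ X) (hn : X ≤ n) (hL : n + L ≤ 2 * X)
    (hδ : 0 < δ) (hδ1 : δ ≤ 1) :
    δ * ‖∑ m ∈ Ioc n (n + L), f m‖ ≤ (∫ θ in (Real.log n)..(Real.log (n + L)), ‖GG f X δ θ‖) + δ * (8 * X * δ + 2) := by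
  have hn1 : 1 ≤ n := hX.trans hn
  have hn' : (0 : ℝ) < n := by exact_mod_cast hn1
  have hab : Real.log n ≤ Real.log (n + L) := by
    apply Real.log_le_log hn'
    have : (0 : ℝ) ≤ L := Nat.cast_nonneg _
    linarith
  have h1 : (δ : ℂ) * ∑ m ∈ Ioc n (n + L), f m = ∑ m ∈ Ioc X (2 * X), if m ∈ Ioc n (n + L) then (δ : ℂ) * f m else 0 := by
    rw [← sum_filter, mul_sum]
    apply sum_congr _ fun _ _ => rfl
    ext m
    simp only [mem_filter, mem_Ioc]
    omega
  have h2 := wn_GG (δ := δ) hab f X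
  have h3 : ‖(δ : ℂ) * ∑ m ∈ Ioc n (n + L), f m - ∫ θ in (Real.log n)..(Real.log (n + L)), GG f X δ θ‖ ≤
      δ * (8 * X * δ + 2) := by
    rw [h1, h2, ← sum_sub_distrib]
    refine (norm_sum_le _ _).trans ?_
    have h4 : ∑ m ∈ Ioc X (2 * X), ‖(if m ∈ Ioc n (n + L) then (δ : ℂ) * f m else 0) -
        (wnl (Real.log n) (Real.log (n + L)) δ (Real.log m) : ℂ) * f m‖ ≤
        ∑ m ∈ Ioc X (2 * X), if m ∈ wnB δ n ∪ wnB δ (n + L) then δ else 0 := by
      refine sum_le_sum fun m hm => ?_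
      rw [mem_Ioc] at hm
      exact wn_term hf hn1 hδ hδ1 (by omega)
    refine h4.trans ?_
    rw [← sum_filter, sum_const, nsmul_eq_mul]
    have h5 : (((Ioc X (2 * X)).filter fun m => m ∈ wnB δ n ∪ wnB δ (n + L)).card : ℝ) ≤ n * (2 * δ) + (n + L) * (2 * δ) := by
      have h6 : ((Ioc X (2 * X)).filter fun m => m ∈ wnB δ n ∪ wnB δ (n + L)).card ≤ (wnB δ n).card + (wnB δ (n + L)).card :=
        (card_le_card fun m hm => (mem_filter.mp hm).2).trans (card_union_le _ _)
      have h7 := wnB_card hδ n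
      have h8 := wnB_card hδ (n + L)
      have h9 : (((Ioc X (2 * X)).filter fun m => m ∈ wnB δ n ∪ wnB δ (n + L)).card : ℝ) ≤
          (wnB δ n).card + (wnB δ (n + L)).card := by exact_mod_cast h6
      push_cast at h8
      linarith
    have h10 : (n : ℝ) + L ≤ 2 * X := by exact_mod_cast hL
    have h11 : (0 : ℝ) ≤ L := Nat.cast_nonneg _
    have h12 : (n : ℝ) ≤ 2 * X := by linarith
    have h13 : (n : ℝ) * (2 * δ) + (n + L) * (2 * δ) ≤ 8 * X * δ := by nlinarith
    nlinarith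
  have h4 : ‖∫ θ in (Real.log n)..(Real.log (n + L)), GG f X δ θ‖ ≤ ∫ θ in (Real.log n)..(Real.log (n + L)), ‖GG f X δ θ‖ :=
    intervalIntegral.norm_integral_le_integral_norm hab
  have h5 : δ * ‖∑ m ∈ Ioc n (n + L), f m‖ = ‖(δ : ℂ) * ∑ m ∈ Ioc n (n + L), f m‖ := by
    rw [norm_mul, Complex.norm_real, Real.norm_of_nonneg hδ.le]
  rw [h5]
  have h6 := norm_sub_norm_le ((δ : ℂ) * ∑ m ∈ Ioc n (n + L), f m) (∫ θ in (Real.log n)..(Real.log (n + L)), GG f X δ θ)
  linarith

theorem avgj {f : ℕ → ℂ} (hf : ∀ n, ‖f n‖ ≤ 1) {X L : ℕ} {δ : ℝ} (hX : 1 ≤ X) (hL : L ≤ X)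
    (hδ : 0 < δ) (hδ1 : δ ≤ 1) :
    δ * ∑ n ∈ Icc X (2 * X - L), ‖∑ m ∈ Ioc n (n + L), f m‖ ≤
      L * (∫ θ in (Real.log X)..(Real.log (2 * X)), ‖GG f X δ θ‖) + (X + 1) * (δ * (8 * X * δ + 2)) := by
  have hX' : (0 : ℝ) < X := by exact_mod_cast hX
  have h1 : δ * ∑ n ∈ Icc X (2 * X - L), ‖∑ m ∈ Ioc n (n + L), f m‖ ≤
      ∑ n ∈ Icc X (2 * X - L), ((∫ θ in (Real.log n)..(Real.log (n + L)), ‖GG f X δ θ‖) + δ * (8 * X * δ + 2)) := by
    rw [mul_sum]
    refine sum_le_sum fun n hn => ?_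
    rw [mem_Icc] at hn
    exact winj hf hX hn.1 (by omega) hδ hδ1
  rw [sum_add_distrib, sum_const, nsmul_eq_mul] at h1
  have h2 : ((Icc X (2 * X - L)).card : ℝ) ≤ X + 1 := by
    rw [Nat.card_Icc]
    have : 2 * X - L + 1 - X ≤ X + 1 := by omega
    exact_mod_cast this
  have h3 : 0 ≤ δ * (8 * X * δ + 2) := by positivity
  have h4 : ∑ n ∈ Icc X (2 * X - L), (∫ θ in (Real.log n)..(Real.log (n + L)), ‖GG f X δ θ‖) ≤
      L * (∫ θ in (Real.log X)..(Real.log (2 * X)), ‖GG f X δ θ‖) := by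
    have h5 : ∀ n : ℕ, (∫ θ in (Real.log n)..(Real.log (n + L)), ‖GG f X δ θ‖) =
        ∑ i ∈ range L, ∫ θ in (Real.log ((n + i : ℕ) : ℝ))..(Real.log ((n + (i + 1) : ℕ) : ℝ)), ‖GG f X δ θ‖ := by
      intro n
      have h6 := intervalIntegral.sum_integral_adjacent_intervals (n := L) (a := fun i : ℕ => Real.log ((n + i : ℕ) : ℝ))
        (f := fun θ => ‖GG f X δ θ‖) (μ := volume) fun i _ => wn_ii hf X δ _ _
      rw [h6]
      push_cast
      rw [add_zero]
    simp only [h5]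
    rw [sum_comm]
    have h7 : ∀ i ∈ range L, ∑ n ∈ Icc X (2 * X - L),
        (∫ θ in (Real.log ((n + i : ℕ) : ℝ))..(Real.log ((n + (i + 1) : ℕ) : ℝ)), ‖GG f X δ θ‖) ≤
        ∫ θ in (Real.log X)..(Real.log (2 * X)), ‖GG f X δ θ‖ := by
      intro i hi
      rw [mem_range] at hi
      have h8 : Icc X (2 * X - L) = Ico X (2 * X - L + 1) := by
        ext n
        simp only [mem_Icc, mem_Ico]
        omega
      rw [h8]
      have h9 : ∑ n ∈ Ico X (2 * X - L + 1),
          (∫ θ in (Real.log ((n + i : ℕ) : ℝ))..(Real.log ((n + (i + 1) : ℕ) : ℝ)), ‖GG f X δ θ‖) =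
          ∫ θ in (Real.log ((X + i : ℕ) : ℝ))..(Real.log ((2 * X - L + 1 + i : ℕ) : ℝ)), ‖GG f X δ θ‖ := by
        have h10 := intervalIntegral.sum_integral_adjacent_intervals_Ico (m := X) (n := 2 * X - L + 1)
          (a := fun n : ℕ => Real.log ((n + i : ℕ) : ℝ)) (f := fun θ => ‖GG f X δ θ‖) (μ := volume) (by omega)
          fun n _ => wn_ii hf X δ _ _
        rw [← h10]
        refine sum_congr rfl fun n _ => ?_
        rw [show n + (i + 1) = n + 1 + i by ring]
      rw [h9]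
      refine intervalIntegral.integral_mono_interval ?_ ?_ ?_ ?_ (wn_ii hf X δ _ _)
      · apply Real.log_le_log hX'
        push_cast
        have : (0 : ℝ) ≤ i := Nat.cast_nonneg _
        linarith
      · apply Real.log_le_log
        · exact_mod_cast (by omega : 0 < X + i)
        · exact_mod_cast (by omega : X + i ≤ 2 * X - L + 1 + i)
      · apply Real.log_le_log
        · exact_mod_cast (by omega : 0 < 2 * X - L + 1 + i)
        · have : 2 * X - L + 1 + i ≤ 2 * X := by omega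
          exact_mod_cast this
      · exact Filter.Eventually.of_forall fun θ => norm_nonneg _
    refine (sum_le_sum h7).trans ?_
    rw [sum_const, card_range, nsmul_eq_mul]
  have h5 := mul_le_mul_of_nonneg_right h2 h3
  linarith

end Pool.Agent.Lib.MRT
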