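import Pool.Agent.Lib.MRT.Short
import Pool.Agent.Lib.MRT.Win

/-!
# MRT / Mrt (35 minutes): the theorem of Matomäki and Radziwiłł in almost all bounded intervals

PROOF. `ε = min 1 (η/8)`; `shortj` with `ε²`: `h0`; `h = h0`. `L0` with `(8 h + 2) ≤ (η/8) L0`, `1 ≤ L0`. For `L ≥ L0`: `X0` large. `δ = h/X`. `‖G‖ ≤ (1/2)(‖G‖²/(ε h) + ε h)`, `log 2X - log X ≤ 1`: `∫ ‖G‖ ≤ (1/2)(ε² h²/(ε h) + ε h) = ε h`. `avgj` divided by `δ`:
`∑_{X ≤ n ≤ 2X - L} ‖∑_{n < m ≤ n+L} f m‖ ≤ (X/h) L ε h + (X + 1)(8 h + 2) ≤ ε L X + 2 X (η/8) L ≤ (3/8) η L X`. The sum in the statement has `n ∈ Ioc X (2X)`, windows `n, ..., n + L - 1`, i.e. `Ioc (n-1) (n-1+L)`, `n - 1 ∈ Ico X (2X)`; the `n - 1 > 2X - L` are at most `L` and contribute `≤ L²≤ (η/8) L X` for `X` large.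
-/

set_option autoImplicit false

open Finset

namespace Pool.Agent.Lib.MRT

open Pool.Agent.Lib.MR (ex Pw PP VV om Om CM al dn lev)

private theorem mrt_amgm {g : ℝ → ℝ} {a b C B κ : ℝ} (hab : a ≤ b) (hb1 : b - a ≤ 1) (hκ : 0 < κ)
    (hg0 : ∀ t, 0 ≤ g t) (hgm : Measurable g) (hgC : ∀ t, g t ≤ C)
    (hB : ∫ t in a..b, g t ^ 2 ≤ B) : ∫ t in a..b, g t ≤ (1 / 2) * (B / κ + κ) := by
  have hint : ∀ q : ℝ → ℝ, Measurable q → (∃ D, ∀ t, |q t| ≤ D) →
      IntervalIntegrable q MeasureTheory.volume a b := by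
    intro q hq hD
    obtain ⟨D, hD⟩ := hD
    rw [intervalIntegrable_iff]
    refine MeasureTheory.Measure.integrableOn_of_bounded (M := D) ?_ hq.aestronglyMeasurable ?_
    · simp
    · exact Filter.Eventually.of_forall fun t => by rw [Real.norm_eq_abs]; exact hD t
  have h1 : IntervalIntegrable g MeasureTheory.volume a b :=
    hint g hgm ⟨C, fun t => by rw [abs_of_nonneg (hg0 t)]; exact hgC t⟩
  have h2 : IntervalIntegrable (fun t => g t ^ 2) MeasureTheory.volume a b :=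
    hint _ (hgm.pow_const 2) ⟨C ^ 2, fun t => by
      rw [abs_of_nonneg (sq_nonneg _)]
      exact pow_le_pow_left₀ (hg0 t) (hgC t) 2⟩
  have h3 : IntervalIntegrable (fun t => (1 / 2) * (g t ^ 2 / κ + κ)) MeasureTheory.volume a b :=
    ((h2.div_const κ).add intervalIntegrable_const).const_mul _
  have h4 : ∫ t in a..b, g t ≤ ∫ t in a..b, (1 / 2) * (g t ^ 2 / κ + κ) := by
    refine intervalIntegral.integral_mono_on hab h1 h3 fun t _ => ?_
    have h5 : 0 ≤ (g t - κ) ^ 2 := sq_nonneg _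
    have h6 : (1 / 2) * (g t ^ 2 / κ + κ) - g t = (g t - κ) ^ 2 / (2 * κ) := by
      field_simp
      ring
    have h7 : 0 ≤ (g t - κ) ^ 2 / (2 * κ) := by positivity
    linarith
  refine h4.trans ?_
  rw [intervalIntegral.integral_const_mul, intervalIntegral.integral_add (h2.div_const κ) intervalIntegrable_const,
    intervalIntegral.integral_div, intervalIntegral.integral_const, smul_eq_mul]
  have h5 : (b - a) * κ ≤ κ := by nlinarith
  have h6 : (∫ t in a..b, g t ^ 2) / κ ≤ B / κ := div_le_div_of_nonneg_right hB hκ.le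
  linarith

theorem mrt {f : ℕ → ℂ} (hf : CM f) (h : ExcP f) (η : ℝ) (hη : 0 < η) : ∃ L0 : ℕ, ∀ L : ℕ, L0 ≤ L → ∃ X0 : ℕ, ∀ X : ℕ, X0 ≤ X →
    ∑ n ∈ Ioc X (2 * X), ‖∑ l ∈ range L, f (n + l)‖ ≤ η * L * X := by
  obtain ⟨ε, hε⟩ : ∃ ε : ℝ, ε = η / 8 := ⟨_, rfl⟩
  have hε0 : 0 < ε := by rw [hε]; positivity
  obtain ⟨h0, hh0, hsh⟩ := shortj hf h (η := ε ^ 2) (by positivity)
  obtain ⟨X1, hX1⟩ := hsh h0 le_rfl
  have hh0' : 0 < h0 := by linarith
  obtain ⟨L0, hL0⟩ := exists_nat_ge ((8 * h0 + 2) / ε)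
  have hL0' : 8 * h0 + 2 ≤ ε * L0 := by
    rw [div_le_iff₀ hε0] at hL0
    linarith
  refine ⟨L0, fun L hL => ?_⟩
  obtain ⟨X2, hX2⟩ := exists_nat_ge ((L : ℝ) / ε)
  obtain ⟨X3, hX3⟩ := exists_nat_ge h0
  refine ⟨max (max X1 X2) (max (max X3 1) L), fun X hX => ?_⟩
  have hXa : X1 ≤ X := (le_max_left _ _).trans ((le_max_left _ _).trans hX)
  have hXb : X2 ≤ X := (le_max_right _ _).trans ((le_max_left _ _).trans hX)
  have hXc : X3 ≤ X := (le_max_left _ _).trans ((le_max_left _ _).trans ((le_max_right _ _).trans hX))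
  have hXd : 1 ≤ X := (le_max_right _ _).trans ((le_max_left _ _).trans ((le_max_right _ _).trans hX))
  have hXe : L ≤ X := (le_max_right _ _).trans ((le_max_right _ _).trans hX)
  have hXr : (1 : ℝ) ≤ X := by exact_mod_cast hXd
  have hX0 : (0 : ℝ) < X := by linarith
  have hLr : (0 : ℝ) ≤ L := Nat.cast_nonneg L
  have hLε : (L : ℝ) ≤ ε * X := by
    rw [div_le_iff₀ hε0] at hX2
    have : (X2 : ℝ) ≤ X := by exact_mod_cast hXb
    nlinarith
  have hhX : h0 ≤ X := hX3.trans (by exact_mod_cast hXc)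
  have hLL : (L0 : ℝ) ≤ L := by exact_mod_cast hL
  have hδ : 0 < h0 / X := by positivity
  have hδ1 : h0 / X ≤ 1 := by rw [div_le_one hX0]; exact hhX
  have hf1 : ∀ n, ‖f n‖ ≤ 1 := hf.le
  -- the integral
  have hint : ∫ θ in (Real.log X)..(Real.log (2 * X)), ‖GG f X (h0 / X) θ‖ ≤ ε * h0 := by
    have hl2 : Real.log (2 * X) - Real.log X ≤ 1 := by
      rw [Real.log_mul (by norm_num) hX0.ne']
      have := Real.log_two_lt_d9
      linarith
    have hl3 : Real.log X ≤ Real.log (2 * X) := Real.log_le_log hX0 (by linarith)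
    have hGm : Measurable (fun θ => ‖GG f X (h0 / X) θ‖) := (GG_measurable f X (h0 / X)).norm
    have hGb : ∀ θ, ‖GG f X (h0 / X) θ‖ ≤ ∑ n ∈ Ioc X (2 * X), (1 : ℝ) := by
      intro θ
      unfold GG
      refine (norm_sum_le _ _).trans (sum_le_sum fun n _ => ?_)
      split_ifs
      · exact hf1 n
      · simp
    have h1 := mrt_amgm (κ := ε * h0) hl3 hl2 (by positivity) (fun θ => norm_nonneg _) hGm hGb
      (hX1 X hXa)
    refine h1.trans (le_of_eq ?_)
    field_simp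
    ring
  have havg := avgj (X := X) (L := L) hf1 hXd hXe hδ hδ1
  have hmain : ∑ n ∈ Icc X (2 * X - L), ‖∑ m ∈ Ioc n (n + L), f m‖ ≤ 3 * ε * L * X := by
    have h1 : h0 / X * ∑ n ∈ Icc X (2 * X - L), ‖∑ m ∈ Ioc n (n + L), f m‖ ≤
        h0 / X * (3 * ε * L * X) := by
      refine havg.trans ?_
      have h2 : (L : ℝ) * (∫ θ in (Real.log X)..(Real.log (2 * X)), ‖GG f X (h0 / X) θ‖) ≤
          L * (ε * h0) := mul_le_mul_of_nonneg_left hint hLr
      have h3 : ((X : ℝ) + 1) * (h0 / X * (8 * X * (h0 / X) + 2)) = h0 / X * ((X + 1) * (8 * h0 + 2)) := by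
        field_simp
      have h4 : h0 / X * (3 * ε * L * X) = L * (ε * h0) + h0 / X * (2 * X * (ε * L)) := by
        field_simp
        ring
      rw [h3, h4]
      have h5 : ((X : ℝ) + 1) * (8 * h0 + 2) ≤ 2 * X * (ε * L) := by
        have h6 : 8 * h0 + 2 ≤ ε * L := hL0'.trans (mul_le_mul_of_nonneg_left hLL hε0.le)
        have h7 : (X : ℝ) + 1 ≤ 2 * X := by linarith
        calc ((X : ℝ) + 1) * (8 * h0 + 2) ≤ (2 * X) * (ε * L) := by
              apply mul_le_mul h7 h6 (by linarith) (by linarith)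
          _ = _ := rfl
      have h8 := mul_le_mul_of_nonneg_left h5 hδ.le
      linarith
    exact le_of_mul_le_mul_left h1 hδ
  -- shift by one
  have hshift : ∑ n ∈ Ioc X (2 * X), ‖∑ l ∈ range L, f (n + l)‖ =
      ∑ n ∈ Ico X (2 * X), ‖∑ m ∈ Ioc n (n + L), f m‖ := by
    have h1 : Ioc X (2 * X) = Ico (X + 1) (2 * X + 1) := by
      ext n
      simp only [mem_Ioc, mem_Ico]
      omega
    rw [h1, ← sum_Ico_add' (fun n => ‖∑ l ∈ range L, f (n + l)‖) X (2 * X) 1]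
    refine sum_congr rfl fun n _ => ?_
    congr 1
    have h2 : Ioc n (n + L) = Ico (n + 1) (n + 1 + L) := by
      ext m
      simp only [mem_Ioc, mem_Ico]
      omega
    rw [h2, sum_Ico_eq_sum_range]
    have h3 : n + 1 + L - (n + 1) = L := by omega
    rw [h3]
  rw [hshift]
  have hsub : ∑ n ∈ Ico X (2 * X), ‖∑ m ∈ Ioc n (n + L), f m‖ ≤
      ∑ n ∈ Icc X (2 * X - L), ‖∑ m ∈ Ioc n (n + L), f m‖ +
      ∑ n ∈ Ico (2 * X - L) (2 * X), ‖∑ m ∈ Ioc n (n + L), f m‖ := by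
    classical
    have h1 : Ico X (2 * X) ⊆ Icc X (2 * X - L) ∪ Ico (2 * X - L) (2 * X) := by
      intro n hn
      simp only [mem_union, mem_Icc, mem_Ico] at hn ⊢
      omega
    refine (sum_le_sum_of_subset_of_nonneg h1 fun _ _ _ => norm_nonneg _).trans ?_
    have h2 := sum_union_inter (s₁ := Icc X (2 * X - L)) (s₂ := Ico (2 * X - L) (2 * X))
      (f := fun n => ‖∑ m ∈ Ioc n (n + L), f m‖)
    have h3 : 0 ≤ ∑ n ∈ Icc X (2 * X - L) ∩ Ico (2 * X - L) (2 * X), ‖∑ m ∈ Ioc n (n + L), f m‖ :=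
      sum_nonneg fun _ _ => norm_nonneg _
    linarith
  have hend : ∑ n ∈ Ico (2 * X - L) (2 * X), ‖∑ m ∈ Ioc n (n + L), f m‖ ≤ L * L := by
    have h1 : ∀ n ∈ Ico (2 * X - L) (2 * X), ‖∑ m ∈ Ioc n (n + L), f m‖ ≤ L := by
      intro n _
      refine (norm_sum_le _ _).trans ?_
      refine (sum_le_sum fun m _ => hf1 m).trans ?_
      rw [sum_const, nsmul_eq_mul, mul_one, Nat.card_Ioc]
      have : n + L - n = L := by omega
      rw [this]
    have h2 := sum_le_card_nsmul _ _ _ h1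
    rw [nsmul_eq_mul, Nat.card_Ico] at h2
    have h3 : 2 * X - (2 * X - L) = L := by omega
    rw [h3] at h2
    exact h2
  have h9 : (L : ℝ) * L ≤ ε * L * X := by nlinarith
  have h10 : η * L * X = 8 * ε * L * X := by rw [hε]; ring
  rw [h10]
  have h11 : 0 ≤ ε * L * X := by positivity
  linarith

end Pool.Agent.Lib.MRT
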