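import Pool.Agent.Lib.MRT.Num
import Pool.Agent.Lib.MRT.Mom

/-!
# MRT / Pair: one pair of windows

Copy of `MR.pair` (`MR/Pair`): `momw` becomes `momwj` (`T ≤ x ≤ K`, `K = x e^(u' + l/E')`, `Z^l y ≤ K`): `≤ 200 (2 + l) (3 K) (4 l^l K) = 600 (2 + l) · 4 l^l K²`, then `pairnj`.
-/

set_option autoImplicit false

open Finset

namespace Pool.Agent.Lib.MRT

open Pool.Agent.Lib.MR (ex Pw PP VV om Om CM al dn lev)

theorem pairj {f : ℕ → ℂ} (hf : CM f) {E : ℕ} (hE : 100 ≤ Real.log E) {T : ℝ} (hT : 1 ≤ T) {x : ℕ} (hTx : T ≤ x)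
    (hx : ex E (E ^ 3) ^ 2 ≤ (x : ℝ) / E) {v v' : ℕ}
    (hv : v ∈ Ico (E ^ 2) (E ^ 3)) (hv' : v' ∈ Ico (dn E ^ 2) (dn E ^ 3)) (J : Finset ℤ) (hJ : ∀ j ∈ J, |(j : ℝ)| ≤ T)
    (hQ : ∀ j ∈ J, ‖QJ f E v j‖ ≤ Real.exp ((1 - aj E) * ((v : ℝ) / E)) ∧
      Real.exp ((1 - aj (dn E)) * ((v' : ℝ) / dn E)) ≤ ‖QJ f (dn E) v' j‖) :
    ∑ j ∈ J, ‖QJ f E v j‖ ^ 2 * ‖DD f (x / ex E v) j‖ ^ 2 ≤ (x : ℝ) ^ 2 * ((E : ℝ) ^ 3 * Real.exp (- Real.sqrt E)) := by
  obtain ⟨_, hd2, hd3, _, _, _, _⟩ := MR.dn_le hE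
  have hE1 : 1 ≤ E := by omega
  have hEpos : (0 : ℝ) < E := by exact_mod_cast hE1
  have hEr1 : (1 : ℝ) ≤ E := by exact_mod_cast hE1
  have hDpos : (0 : ℝ) < dn E := by
    have : 0 < dn E := by omega
    exact_mod_cast this
  obtain ⟨hv1, hv2⟩ := mem_Ico.mp hv
  obtain ⟨hw1, hw2⟩ := mem_Ico.mp hv'
  set u : ℝ := (v : ℝ) / E with hu
  set u' : ℝ := (v' : ℝ) / dn E with hu'
  have hv1' : (E : ℝ) ^ 2 ≤ v := by exact_mod_cast hv1
  have hv2' : (v : ℝ) ≤ (E : ℝ) ^ 3 := by exact_mod_cast hv2.le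
  have hw1' : (dn E : ℝ) ^ 2 ≤ v' := by exact_mod_cast hw1
  have hw2' : (v' : ℝ) ≤ (dn E : ℝ) ^ 3 := by exact_mod_cast hw2.le
  have u1 : (E : ℝ) ≤ u := by
    rw [hu, le_div_iff₀ hEpos]; nlinarith
  have u2 : u ≤ (E : ℝ) ^ 2 := by
    rw [hu, div_le_iff₀ hEpos]; nlinarith
  have w1 : (dn E : ℝ) ≤ u' := by
    rw [hu', le_div_iff₀ hDpos]; nlinarith
  have w2 : u' ≤ (dn E : ℝ) ^ 2 := by
    rw [hu', div_le_iff₀ hDpos]; nlinarith
  have upos : 0 < u := lt_of_lt_of_le hEpos u1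
  have wpos : 0 < u' := lt_of_lt_of_le hDpos w1
  have hpn := pairnj hE u1 u2 w1 w2
  set l : ℕ := ⌈u / u'⌉₊ with hl
  have hl0 : 0 < l := Nat.ceil_pos.mpr (div_pos upos wpos)
  have hlR : (0 : ℝ) < l := by exact_mod_cast hl0
  have l1 : u ≤ l * u' := by
    have h := Nat.le_ceil (u / u')
    rw [← hl, div_le_iff₀ wpos] at h
    exact h
  have l2 : l * u' ≤ u + u' := by
    have h := Nat.ceil_lt_add_one (div_pos upos wpos).le
    rw [← hl] at h
    have h3 : (l : ℝ) * u' ≤ (u / u' + 1) * u' := mul_le_mul_of_nonneg_right h.le wpos.le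
    have h4 : (u / u' + 1) * u' = u + u' := by
      field_simp
    linarith
  have al2 := aj_le hd2
  have hxpos : (0 : ℝ) ≤ x := Nat.cast_nonneg _
  set y : ℝ := (x : ℝ) / ex E v with hy
  have hyr : y = x * Real.exp (-u) := by
    rw [hy]
    unfold ex
    rw [← hu, Real.exp_neg, div_eq_mul_inv]
  have hy1 : 1 ≤ y := by
    rw [hy, le_div_iff₀ (MR.ex_pos _ _), one_mul]
    have h1 : ex E v ≤ ex E (E ^ 3) := by
      unfold ex
      refine Real.exp_le_exp.mpr ?_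
      push_cast
      exact div_le_div_of_nonneg_right hv2' hEpos.le
    have h2 : (1 : ℝ) ≤ ex E (E ^ 3) := by
      unfold ex
      exact Real.one_le_exp (by positivity)
    have h3 : ex E (E ^ 3) ≤ ex E (E ^ 3) ^ 2 := by nlinarith
    have h4 : (x : ℝ) / E ≤ x := div_le_self hxpos hEr1
    linarith
  have hy0 : 0 ≤ y := by linarith
  -- moment
  have h16 : (16 : ℝ) ≤ ex (dn E) v' := by
    unfold ex
    rw [← hu']
    have h1 : (10000 : ℝ) ≤ u' := le_trans (by exact_mod_cast hd2) w1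
    have h2 := Real.add_one_le_exp u'
    linarith
  have hmom := momwj hf (H := dn E) (v := v') (by omega) h16 l hy1 hT J hJ
  -- bounds for Z ^ l * y
  have hZ : ex (dn E) (v' + 1) ^ l * y ≤ x * Real.exp (u' + l / dn E) := by
    have h1 : ex (dn E) (v' + 1) ^ l = Real.exp (l * u' + l / dn E) := by
      unfold ex
      rw [← Real.exp_nat_mul, hu']
      congr 1
      push_cast
      ring
    rw [h1, hyr]
    have h3 : Real.exp (l * u' + l / dn E) * (x * Real.exp (-u)) =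
        x * Real.exp (l * u' + l / dn E - u) := by
      rw [sub_eq_add_neg, Real.exp_add (l * u' + l / dn E)]
      ring
    rw [h3]
    refine mul_le_mul_of_nonneg_left (Real.exp_le_exp.mpr ?_) hxpos
    linarith
  have hT1 : T ≤ x * Real.exp (u' + l / dn E) := by
    have h2 : 1 ≤ Real.exp (u' + l / dn E) := Real.one_le_exp (by positivity)
    calc T ≤ x * 1 := by linarith
      _ ≤ x * Real.exp (u' + l / dn E) := mul_le_mul_of_nonneg_left h2 hxpos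
  set K : ℝ := x * Real.exp (u' + l / dn E) with hK
  have hK0 : 0 ≤ K := by linarith
  have hmom2 : ∑ j ∈ J, ‖QJ f (dn E) v' j‖ ^ (2 * l) * ‖DD f y j‖ ^ 2 ≤
      600 * (2 + l) * (4 * (l : ℝ) ^ l * (K * K)) := by
    refine hmom.trans ?_
    have h2 : 0 ≤ ex (dn E) (v' + 1) ^ l * y := mul_nonneg (pow_nonneg (MR.ex_pos _ _).le _) hy0
    calc 200 * (2 + (l : ℝ)) * (T + 2 * (ex (dn E) (v' + 1) ^ l * y)) *
          (4 * (l : ℝ) ^ l * (ex (dn E) (v' + 1) ^ l * y))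
        ≤ 200 * (2 + (l : ℝ)) * (K + 2 * K) * (4 * (l : ℝ) ^ l * K) := by gcongr
      _ = 600 * (2 + l) * (4 * (l : ℝ) ^ l * (K * K)) := by ring
  -- each term
  have hterm : ∀ j ∈ J, ‖QJ f E v j‖ ^ 2 * ‖DD f y j‖ ^ 2 ≤
      Real.exp (2 * (1 - aj E) * u - 2 * (1 - aj (dn E)) * u) *
        (‖QJ f (dn E) v' j‖ ^ (2 * l) * ‖DD f y j‖ ^ 2) := by
    intro j hj
    obtain ⟨t1, t2⟩ := hQ j hj
    have h1 : ‖QJ f E v j‖ ^ 2 ≤ Real.exp (2 * (1 - aj E) * u) := by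
      have h := pow_le_pow_left₀ (norm_nonneg _) t1 2
      rw [← Real.exp_nat_mul] at h
      refine h.trans (le_of_eq ?_)
      congr 1
      push_cast
      ring
    have h2 : Real.exp (2 * (1 - aj (dn E)) * u) ≤ ‖QJ f (dn E) v' j‖ ^ (2 * l) := by
      have h := pow_le_pow_left₀ (Real.exp_pos _).le t2 (2 * l)
      rw [← Real.exp_nat_mul] at h
      refine le_trans (Real.exp_le_exp.mpr ?_) h
      push_cast
      have h3 : 0 ≤ 1 - aj (dn E) := by linarith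
      have h4 : 2 * (1 - aj (dn E)) * u ≤ 2 * (1 - aj (dn E)) * (l * u') :=
        mul_le_mul_of_nonneg_left l1 (by linarith)
      have h5 : 2 * (1 - aj (dn E)) * (l * u') = 2 * l * ((1 - aj (dn E)) * u') := by ring
      linarith
    have h3 : ‖QJ f E v j‖ ^ 2 ≤ Real.exp (2 * (1 - aj E) * u - 2 * (1 - aj (dn E)) * u) *
        ‖QJ f (dn E) v' j‖ ^ (2 * l) := by
      refine h1.trans ?_
      have h4 : Real.exp (2 * (1 - aj E) * u) = Real.exp (2 * (1 - aj E) * u - 2 * (1 - aj (dn E)) * u) *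
          Real.exp (2 * (1 - aj (dn E)) * u) := by
        rw [← Real.exp_add]
        congr 1
        ring
      rw [h4]
      exact mul_le_mul_of_nonneg_left h2 (Real.exp_pos _).le
    calc ‖QJ f E v j‖ ^ 2 * ‖DD f y j‖ ^ 2 ≤ (Real.exp (2 * (1 - aj E) * u - 2 * (1 - aj (dn E)) * u) *
        ‖QJ f (dn E) v' j‖ ^ (2 * l)) * ‖DD f y j‖ ^ 2 := mul_le_mul_of_nonneg_right h3 (by positivity)
      _ = _ := by ring
  refine (sum_le_sum hterm).trans ?_
  rw [← mul_sum]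
  have hll : (l : ℝ) ^ l = Real.exp (l * Real.log l) := by
    rw [Real.exp_nat_mul, Real.exp_log hlR]
  have h4 : (4 : ℝ) = Real.exp (Real.log 4) := (Real.exp_log (by norm_num)).symm
  have hprod : Real.exp (2 * (1 - aj E) * u - 2 * (1 - aj (dn E)) * u) *
      (4 * (l : ℝ) ^ l * (Real.exp (u' + l / dn E) * Real.exp (u' + l / dn E))) =
      Real.exp (Real.log 4 + l * Real.log l + 2 * u' + 2 * l / dn E - 2 * (aj E - aj (dn E)) * u) := by
    rw [hll]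
    conv_lhs => rw [h4]
    rw [← Real.exp_add, ← Real.exp_add, ← Real.exp_add, ← Real.exp_add]
    congr 1
    ring
  calc Real.exp (2 * (1 - aj E) * u - 2 * (1 - aj (dn E)) * u) *
        ∑ j ∈ J, ‖QJ f (dn E) v' j‖ ^ (2 * l) * ‖DD f y j‖ ^ 2
      ≤ Real.exp (2 * (1 - aj E) * u - 2 * (1 - aj (dn E)) * u) *
        (600 * (2 + l) * (4 * (l : ℝ) ^ l * (K * K))) :=
        mul_le_mul_of_nonneg_left hmom2 (Real.exp_pos _).le
    _ = (x : ℝ) ^ 2 * (600 * (2 + l) * (Real.exp (2 * (1 - aj E) * u - 2 * (1 - aj (dn E)) * u) *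
        (4 * (l : ℝ) ^ l * (Real.exp (u' + l / dn E) * Real.exp (u' + l / dn E))))) := by
        rw [hK]
        ring
    _ = (x : ℝ) ^ 2 * (600 * (2 + l) * Real.exp (Real.log 4 + l * Real.log l + 2 * u' + 2 * l / dn E -
        2 * (aj E - aj (dn E)) * u)) := by rw [hprod]
    _ ≤ (x : ℝ) ^ 2 * ((E : ℝ) ^ 3 * Real.exp (- Real.sqrt E)) :=
        mul_le_mul_of_nonneg_left hpn (by positivity)

end Pool.Agent.Lib.MRT
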