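import Pool.Agent.Lib.MRT.Defs

/-!
# MRT / Pars: Parseval on the circle for `GG`
-/

set_option autoImplicit false

open Finset

namespace Pool.Agent.Lib.MRT

/-- `GG` is bounded -/
theorem GG_norm_le {a : ℕ → ℂ} {A : ℝ} (ha : ∀ n, ‖a n‖ ≤ A) (X : ℕ) (δ θ : ℝ) : ‖GG a X δ θ‖ ≤ A * X := by
  have hA : 0 ≤ A := (norm_nonneg _).trans (ha 0)
  unfold GG
  refine (norm_sum_le _ _).trans ?_
  have h1 : ∑ n ∈ Ioc X (2 * X), ‖(if θ < Real.log n ∧ Real.log n ≤ θ + δ then a n else 0 : ℂ)‖ ≤
      ∑ n ∈ Ioc X (2 * X), A := by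
    refine sum_le_sum fun n _ => ?_
    split_ifs
    · exact ha n
    · rw [norm_zero]
      exact hA
  refine h1.trans ?_
  rw [sum_const, nsmul_eq_mul, Nat.card_Ioc]
  have h2 : 2 * X - X = X := by omega
  rw [h2, mul_comm]

/-- `GG` is measurable -/
theorem GG_measurable (a : ℕ → ℂ) (X : ℕ) (δ : ℝ) : Measurable (GG a X δ) := by
  unfold GG
  refine Finset.measurable_sum _ fun n _ => ?_
  refine Measurable.ite ?_ measurable_const measurable_const
  have h1 : {θ : ℝ | θ < Real.log n ∧ Real.log n ≤ θ + δ} =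
      Set.Ico (Real.log n - δ) (Real.log n) := by
    ext θ
    simp only [Set.mem_setOf_eq, Set.mem_Ico]
    constructor
    · rintro ⟨h, h'⟩
      exact ⟨by linarith, h⟩
    · rintro ⟨h, h'⟩
      exact ⟨h', by linarith⟩
  rw [h1]
  exact measurableSet_Ico

/-- the weight of a window in the frequency `k` -/
private noncomputable def wk (δ : ℝ) (k : ℤ) : ℂ :=
  ∫ s in (0 : ℝ)..δ, Complex.exp ((((k : ℝ) * s : ℝ) : ℂ) * Complex.I)

private theorem wk_sq {δ : ℝ} (hδ : 0 < δ) (k : ℤ) : ‖wk δ k‖ ^ 2 ≤ kap δ k := by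
  have h1 : ‖wk δ k‖ ≤ δ := by
    unfold wk
    have h2 := intervalIntegral.norm_integral_le_of_norm_le_const (a := (0 : ℝ)) (b := δ) (C := 1)
      (f := fun s : ℝ => Complex.exp ((((k : ℝ) * s : ℝ) : ℂ) * Complex.I)) (fun s _ => by
        rw [Complex.norm_exp_ofReal_mul_I])
    rwa [sub_zero, abs_of_pos hδ, one_mul] at h2
  have h3 : ‖wk δ k‖ ^ 2 ≤ δ ^ 2 := pow_le_pow_left₀ (norm_nonneg _) h1 2
  unfold kap
  split_ifs with hk
  · exact h3
  · refine le_min h3 ?_
    have hk' : (k : ℝ) ≠ 0 := by exact_mod_cast hk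
    have hc : (k : ℂ) * Complex.I ≠ 0 :=
      mul_ne_zero (by exact_mod_cast hk) Complex.I_ne_zero
    have h4 : wk δ k = (Complex.exp ((k : ℂ) * Complex.I * (δ : ℂ)) -
        Complex.exp ((k : ℂ) * Complex.I * ((0 : ℝ) : ℂ))) / ((k : ℂ) * Complex.I) := by
      rw [← integral_exp_mul_complex hc]
      unfold wk
      refine intervalIntegral.integral_congr fun s _ => ?_
      congr 1
      push_cast
      ring
    have h5 : ‖wk δ k‖ ≤ 2 / |(k : ℝ)| := by
      rw [h4, norm_div, norm_mul, Complex.norm_I, mul_one, Complex.norm_intCast]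
      refine div_le_div_of_nonneg_right ?_ (abs_nonneg _)
      refine (norm_sub_le _ _).trans ?_
      have h6 : (k : ℂ) * Complex.I * (δ : ℂ) = (((k : ℝ) * δ : ℝ) : ℂ) * Complex.I := by
        push_cast
        ring
      have h7 : (k : ℂ) * Complex.I * ((0 : ℝ) : ℂ) = ((0 : ℝ) : ℂ) * Complex.I := by
        push_cast
        ring
      rw [h6, h7, Complex.norm_exp_ofReal_mul_I, Complex.norm_exp_ofReal_mul_I]
      norm_num
    have h8 := pow_le_pow_left₀ (norm_nonneg _) h5 2
    refine h8.trans (le_of_eq ?_)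
    rw [div_pow, sq_abs]
    norm_num

private theorem inner_int {X : ℕ} (hX : 1 ≤ X) {δ : ℝ} (hδ : 0 < δ) (hδ1 : δ ≤ 1) (k : ℤ) {n : ℕ}
    (hn : n ∈ Ioc X (2 * X)) (z : ℂ) :
    ∫ θ in (Real.log X - 1)..(Real.log X - 1 + 2 * Real.pi),
      Complex.exp (((-(k : ℝ) * θ : ℝ) : ℂ) * Complex.I) *
        (if θ < Real.log n ∧ Real.log n ≤ θ + δ then z else 0) = z * cj k n * wk δ k := by
  rw [mem_Ioc] at hn
  have hX0 : (0 : ℝ) < X := by exact_mod_cast hX
  have h1 : Real.log X < Real.log n := Real.log_lt_log hX0 (by exact_mod_cast hn.1)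
  have h2 : Real.log n ≤ Real.log X + Real.log 2 := by
    rw [← Real.log_mul hX0.ne' (by norm_num)]
    refine Real.log_le_log (by linarith [(by exact_mod_cast hn.1 : (X : ℝ) < n)]) ?_
    have : (n : ℝ) ≤ 2 * X := by exact_mod_cast hn.2
    linarith
  have h3 : Real.log 2 ≤ 1 := by
    have := Real.log_two_lt_d9
    linarith
  have hpi := Real.pi_gt_three
  set l := Real.log n with hl
  set c := Real.log X - 1 with hc
  have hcl : c < l - δ := by linarith
  have hlc : l ≤ c + 2 * Real.pi := by linarith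
  rw [intervalIntegral.integral_of_le (by linarith)]
  have h4 : (fun θ : ℝ => Complex.exp (((-(k : ℝ) * θ : ℝ) : ℂ) * Complex.I) *
      (if θ < l ∧ l ≤ θ + δ then z else 0)) = (Set.Ico (l - δ) l).indicator
      fun θ : ℝ => Complex.exp (((-(k : ℝ) * θ : ℝ) : ℂ) * Complex.I) * z := by
    ext θ
    by_cases hθ : θ ∈ Set.Ico (l - δ) l
    · rw [Set.indicator_of_mem hθ, if_pos ⟨hθ.2, by linarith [hθ.1]⟩]
    · rw [Set.indicator_of_notMem hθ, if_neg, mul_zero]
      rintro ⟨h, h'⟩
      exact hθ ⟨by linarith, h⟩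
  rw [h4, MeasureTheory.setIntegral_indicator measurableSet_Ico]
  have h5 : Set.Ioc c (c + 2 * Real.pi) ∩ Set.Ico (l - δ) l = Set.Ico (l - δ) l := by
    ext θ
    simp only [Set.mem_inter_iff, Set.mem_Ioc, Set.mem_Ico]
    constructor
    · exact fun h => h.2
    · intro h
      exact ⟨⟨by linarith [h.1], by linarith [h.2]⟩, h⟩
  rw [h5, MeasureTheory.integral_Ico_eq_integral_Ioc, ← intervalIntegral.integral_of_le (by linarith)]
  have h6 := intervalIntegral.integral_comp_sub_left (a := (0 : ℝ)) (b := δ)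
    (fun θ : ℝ => Complex.exp (((-(k : ℝ) * θ : ℝ) : ℂ) * Complex.I) * z) l
  rw [sub_zero] at h6
  rw [← h6]
  unfold wk
  rw [← intervalIntegral.integral_const_mul]
  refine intervalIntegral.integral_congr fun s _ => ?_
  unfold cj
  change Complex.exp (((-(k : ℝ) * (l - s) : ℝ) : ℂ) * Complex.I) * z = _
  rw [mul_assoc z, ← Complex.exp_add, mul_comm _ z, ← hl]
  congr 2
  push_cast
  ring

theorem parsj {X : ℕ} (hX : 1 ≤ X) (a : ℕ → ℂ) {δ B : ℝ} (hδ : 0 < δ) (hδ1 : δ ≤ 1)
    (hB : ∀ J : Finset ℤ, ∑ j ∈ J, kap δ j * ‖∑ n ∈ Ioc X (2 * X), a n * cj j n‖ ^ 2 ≤ B) :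
    ∫ θ in (Real.log X)..(Real.log (2 * X)), ‖GG a X δ θ‖ ^ 2 ≤ B := by
  have hX0 : (0 : ℝ) < X := by exact_mod_cast hX
  have hB0 : 0 ≤ B := by simpa using hB ∅
  have hpi := Real.pi_gt_three
  set c := Real.log X - 1 with hc
  have hab : c < c + 2 * Real.pi := by linarith
  have hsub : c + 2 * Real.pi - c = 2 * Real.pi := by ring
  -- `GG` is bounded on the whole line
  obtain ⟨A, hA⟩ : ∃ A : ℝ, ∀ θ, ‖GG a X δ θ‖ ≤ A := by
    refine ⟨∑ n ∈ Ioc X (2 * X), ‖a n‖, fun θ => ?_⟩
    unfold GG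
    refine (norm_sum_le _ _).trans (sum_le_sum fun n _ => ?_)
    split_ifs
    · exact le_rfl
    · rw [norm_zero]
      exact norm_nonneg _
  have hmeas := GG_measurable a X δ
  have hL2 : MeasureTheory.MemLp (GG a X δ) 2
      (MeasureTheory.volume.restrict (Set.Ioc c (c + 2 * Real.pi))) :=
    MeasureTheory.MemLp.of_bound hmeas.aestronglyMeasurable A (Filter.Eventually.of_forall hA)
  have hpar := hasSum_sq_fourierCoeffOn hab hL2
  have hcoef : ∀ k : ℤ, fourierCoeffOn hab (GG a X δ) k =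
      (1 / (2 * Real.pi) : ℝ) • (wk δ k * ∑ n ∈ Ioc X (2 * X), a n * cj k n) := by
    intro k
    have h1 : ∀ θ : ℝ, (fourier (-k) (θ : AddCircle (c + 2 * Real.pi - c)) : ℂ) • GG a X δ θ =
        ∑ n ∈ Ioc X (2 * X), Complex.exp (((-(k : ℝ) * θ : ℝ) : ℂ) * Complex.I) *
          (if θ < Real.log n ∧ Real.log n ≤ θ + δ then a n else 0) := by
      intro θ
      rw [smul_eq_mul, fourier_coe_apply, hsub]
      unfold GG
      rw [mul_sum]
      refine sum_congr rfl fun n _ => ?_
      congr 2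
      have hpi0 : (Real.pi : ℂ) ≠ 0 := by exact_mod_cast Real.pi_ne_zero
      push_cast
      field_simp
    have h2 : ∫ θ in c..(c + 2 * Real.pi),
        (fourier (-k) (θ : AddCircle (c + 2 * Real.pi - c)) : ℂ) • GG a X δ θ =
        ∫ θ in c..(c + 2 * Real.pi), ∑ n ∈ Ioc X (2 * X),
          Complex.exp (((-(k : ℝ) * θ : ℝ) : ℂ) * Complex.I) *
          (if θ < Real.log n ∧ Real.log n ≤ θ + δ then a n else 0) :=
      intervalIntegral.integral_congr fun θ _ => h1 θ
    rw [fourierCoeffOn_eq_integral, h2, hsub]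
    congr 1
    rw [intervalIntegral.integral_finset_sum, mul_sum]
    · refine sum_congr rfl fun n hn => ?_
      rw [inner_int hX hδ hδ1 k hn]
      ring
    · intro n hn
      have hm : Measurable fun θ : ℝ =>
          (if θ < Real.log n ∧ Real.log n ≤ θ + δ then a n else 0 : ℂ) := by
        refine Measurable.ite ?_ measurable_const measurable_const
        exact (measurableSet_lt measurable_id measurable_const).inter
          (measurableSet_le measurable_const (measurable_id.add_const δ))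
      have hm2 : Measurable fun θ : ℝ =>
          Complex.exp (((-(k : ℝ) * θ : ℝ) : ℂ) * Complex.I) *
            (if θ < Real.log n ∧ Real.log n ≤ θ + δ then a n else 0 : ℂ) := by
        refine Measurable.mul ?_ hm
        exact (by fun_prop : Continuous fun θ : ℝ =>
          Complex.exp (((-(k : ℝ) * θ : ℝ) : ℂ) * Complex.I)).measurable
      refine MeasureTheory.IntegrableOn.intervalIntegrable ?_
      refine MeasureTheory.Measure.integrableOn_of_bounded (M := ‖a n‖)
        (by exact (isCompact_uIcc.measure_lt_top).ne) hm2.aestronglyMeasurable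
        (Filter.Eventually.of_forall fun θ => ?_)
      rw [norm_mul, Complex.norm_exp_ofReal_mul_I, one_mul]
      split_ifs
      · exact le_rfl
      · rw [norm_zero]
        exact norm_nonneg _
  have hle : ∀ J : Finset ℤ, ∑ k ∈ J, ‖fourierCoeffOn hab (GG a X δ) k‖ ^ 2 ≤
      (1 / (2 * Real.pi)) ^ 2 * B := by
    intro J
    refine le_trans ?_ (mul_le_mul_of_nonneg_left (hB J) (by positivity))
    rw [mul_sum]
    refine sum_le_sum fun k _ => ?_
    rw [hcoef k, norm_smul, norm_mul, Real.norm_of_nonneg (by positivity), mul_pow, mul_pow]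
    exact mul_le_mul_of_nonneg_left (mul_le_mul_of_nonneg_right (wk_sq hδ k) (by positivity))
      (by positivity)
  have hint := hasSum_le_of_sum_le hpar hle
  rw [hsub, smul_eq_mul] at hint
  have h3 : ∫ θ in c..(c + 2 * Real.pi), ‖GG a X δ θ‖ ^ 2 ≤ B := by
    have h4 : ∫ θ in c..(c + 2 * Real.pi), ‖GG a X δ θ‖ ^ 2 =
        (2 * Real.pi) * ((2 * Real.pi)⁻¹ * ∫ θ in c..(c + 2 * Real.pi), ‖GG a X δ θ‖ ^ 2) := by
      rw [← mul_assoc, mul_inv_cancel₀ (by positivity), one_mul]
    rw [h4]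
    refine (mul_le_mul_of_nonneg_left hint (by positivity)).trans ?_
    have h5 : 2 * Real.pi * ((1 / (2 * Real.pi)) ^ 2 * B) = B / (2 * Real.pi) := by
      field_simp
    rw [h5]
    exact div_le_self hB0 (by linarith)
  refine le_trans ?_ h3
  have h6 : Real.log (2 * X) = Real.log 2 + Real.log X := Real.log_mul (by norm_num) hX0.ne'
  have h7 : Real.log 2 ≤ 1 := by
    have := Real.log_two_lt_d9
    linarith
  have h8 : 0 ≤ Real.log 2 := Real.log_nonneg (by norm_num)
  refine intervalIntegral.integral_mono_interval (by linarith) (by rw [h6]; linarith)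
    (by rw [h6]; linarith) (Filter.Eventually.of_forall fun θ => by positivity) ?_
  refine MeasureTheory.IntegrableOn.intervalIntegrable ?_
  refine MeasureTheory.Measure.integrableOn_of_bounded (M := A ^ 2)
    (by exact (isCompact_uIcc.measure_lt_top).ne) (hmeas.norm.pow_const 2).aestronglyMeasurable
    (Filter.Eventually.of_forall fun θ => ?_)
  rw [norm_pow, norm_norm]
  exact pow_le_pow_left₀ (norm_nonneg _) (hA θ) 2

end Pool.Agent.Lib.MRT
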