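import Pool.Agent.Lib.MRT.Mv

/-!
# MRT / Tail (35 minutes): large frequencies

PROOF. `T ≥ 1`. The set `J` is finite: choose `K` with `|j| ≤ T 2^K` on `J`; `J ⊆ ⋃_{i < K} J_i`, `J_i = {j ∈ J : T 2^i < |j| ≤ T 2^(i+1)}` (take `i` = the least number with `|j| ≤ T 2^(i+1)`), and for `j ∈ J_i`: `kap δ j ≤ 4/j² ≤ 4/(T 2^i)²`, `mvD` with `T 2^(i+1)`, `y = x`:
`∑_{J_i} ≤ 4/(T² 4^i) · 2000 (2 T 2^i + x) x = 16000 x/(T 2^i) + 8000 x²/(T² 4^i)`; `∑_{i < K} 2^(-i) ≤ 2`, `∑ 4^(-i) ≤ 2`: total `≤ 32000 x/T + 16000 (x/T)²`.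
-/

set_option autoImplicit false

open Finset

namespace Pool.Agent.Lib.MRT

open Pool.Agent.Lib.MR (ex Pw PP VV om Om CM al dn lev)

private theorem tail_block {f : ℕ → ℂ} (hf : CM f) {R : ℝ} (hR : 1 ≤ R) {x : ℕ} (hx : 1 ≤ x) (δ : ℝ)
    (J : Finset ℤ) (hJ : ∀ j ∈ J, R < |(j : ℝ)|) (hJ2 : ∀ j ∈ J, |(j : ℝ)| ≤ 2 * R) :
    ∑ j ∈ J, kap δ j * ‖DD f x j‖ ^ 2 ≤ 16000 * ((x : ℝ) / R) + 8000 * ((x : ℝ) / R) ^ 2 := by
  have hR0 : 0 < R := by linarith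
  have hxr : (1 : ℝ) ≤ x := by exact_mod_cast hx
  have h1 := mvD hf (T := 2 * R) (by linarith) J hJ2 (y := (x : ℝ)) hxr
  have h2 : ∑ j ∈ J, kap δ j * ‖DD f x j‖ ^ 2 ≤ ∑ j ∈ J, 4 / R ^ 2 * ‖DD f x j‖ ^ 2 := by
    refine sum_le_sum fun j hj => ?_
    refine mul_le_mul_of_nonneg_right ?_ (by positivity)
    have h3 := hJ j hj
    have hj0 : j ≠ 0 := by
      rintro rfl
      simp at h3
      linarith
    unfold kap
    rw [if_neg hj0]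
    refine (min_le_right _ _).trans ?_
    have h4 : R ^ 2 ≤ (j : ℝ) ^ 2 := by
      rw [← sq_abs (j : ℝ)]
      exact pow_le_pow_left₀ hR0.le h3.le 2
    exact div_le_div_of_nonneg_left (by norm_num) (by positivity) h4
  refine h2.trans ?_
  rw [← mul_sum]
  calc 4 / R ^ 2 * ∑ j ∈ J, ‖DD f x j‖ ^ 2 ≤ 4 / R ^ 2 * (2000 * (2 * R + x) * x) := by gcongr
    _ = _ := by field_simp; ring

private theorem tail_ind {f : ℕ → ℂ} (hf : CM f) {T : ℝ} (hT : 1 ≤ T) {x : ℕ} (hx : 1 ≤ x) (δ : ℝ) (K : ℕ) :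
    ∀ J : Finset ℤ, (∀ j ∈ J, T < |(j : ℝ)|) → (∀ j ∈ J, |(j : ℝ)| ≤ T * 2 ^ K) →
    ∑ j ∈ J, kap δ j * ‖DD f x j‖ ^ 2 ≤
      32000 * ((x : ℝ) / T) * (1 - (1 / 2) ^ K) + 16000 * ((x : ℝ) / T) ^ 2 * (1 - (1 / 2) ^ K) := by
  have hT0 : 0 < T := by linarith
  induction K with
  | zero =>
    intro J hJ hJ2
    have h1 : J = ∅ := by
      apply Finset.eq_empty_of_forall_notMem
      intro j hj
      have h2 := hJ j hj
      have h3 := hJ2 j hj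
      rw [pow_zero, mul_one] at h3
      linarith
    rw [h1]
    simp
  | succ K ih =>
    intro J hJ hJ2
    classical
    have h1 := sum_filter_add_sum_filter_not J (fun j : ℤ => |(j : ℝ)| ≤ T * 2 ^ K)
      (fun j => kap δ j * ‖DD f x j‖ ^ 2)
    rw [← h1]
    have h2 := ih (J.filter (fun j : ℤ => |(j : ℝ)| ≤ T * 2 ^ K))
      (fun j hj => hJ j (mem_filter.mp hj).1) (fun j hj => (mem_filter.mp hj).2)
    have hp : (1 : ℝ) ≤ 2 ^ K := one_le_pow₀ (by norm_num)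
    have h3 := tail_block hf (R := T * 2 ^ K) (by nlinarith) hx δ
      (J.filter (fun j : ℤ => ¬ |(j : ℝ)| ≤ T * 2 ^ K))
      (fun j hj => not_le.mp (mem_filter.mp hj).2)
      (fun j hj => by
        have := hJ2 j (mem_filter.mp hj).1
        rw [pow_succ] at this
        linarith)
    have h4 : (x : ℝ) / (T * 2 ^ K) = (x : ℝ) / T * (1 / 2) ^ K := by
      rw [div_mul_eq_div_div, one_div, inv_pow, div_eq_mul_inv ((x : ℝ) / T)]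
    rw [h4] at h3
    have hA : 0 ≤ (x : ℝ) / T := by positivity
    have hB : (0 : ℝ) ≤ (1 / 2) ^ K := by positivity
    have hB1 : ((1 : ℝ) / 2) ^ K ≤ 1 := pow_le_one₀ (by norm_num) (by norm_num)
    have h5 : ((x : ℝ) / T * (1 / 2) ^ K) ^ 2 ≤ ((x : ℝ) / T) ^ 2 * (1 / 2) ^ K := by
      rw [mul_pow]
      refine mul_le_mul_of_nonneg_left ?_ (by positivity)
      rw [sq]
      calc ((1 : ℝ) / 2) ^ K * (1 / 2) ^ K ≤ (1 / 2) ^ K * 1 := mul_le_mul_of_nonneg_left hB1 hB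
        _ = _ := mul_one _
    rw [pow_succ]
    nlinarith
  
theorem tailj {f : ℕ → ℂ} (hf : CM f) {T : ℝ} (hT : 1 ≤ T) {x : ℕ} (hx : 1 ≤ x) (δ : ℝ) (J : Finset ℤ) (hJ : ∀ j ∈ J, T < |(j : ℝ)|) :
    ∑ j ∈ J, kap δ j * ‖DD f x j‖ ^ 2 ≤ 32000 * ((x : ℝ) / T) + 16000 * ((x : ℝ) / T) ^ 2 := by
  obtain ⟨K, hK⟩ : ∃ K : ℕ, ∀ j ∈ J, |(j : ℝ)| ≤ T * 2 ^ K := by
    refine ⟨J.sup (fun j => j.natAbs), fun j hj => ?_⟩
    have h1 : j.natAbs ≤ J.sup (fun j => j.natAbs) := le_sup (f := fun j : ℤ => j.natAbs) hj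
    have h2 : j.natAbs ≤ 2 ^ (J.sup (fun j => j.natAbs)) := h1.trans (Nat.lt_two_pow_self).le
    have h3 : |(j : ℝ)| = (j.natAbs : ℝ) := by
      rw [Nat.cast_natAbs, Int.cast_abs]
    rw [h3]
    have h4 : (j.natAbs : ℝ) ≤ 2 ^ (J.sup (fun j => j.natAbs)) := by exact_mod_cast h2
    refine h4.trans ?_
    have h5 : (0 : ℝ) < 2 ^ (J.sup (fun j => j.natAbs)) := by positivity
    nlinarith
  have h := tail_ind hf hT hx δ K J hJ hK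
  refine h.trans ?_
  have hT0 : 0 < T := by linarith
  have hA : 0 ≤ (x : ℝ) / T := by positivity
  have hB : (0 : ℝ) ≤ (1 / 2) ^ K := by positivity
  have e1 : 32000 * ((x : ℝ) / T) * (1 - (1 / 2) ^ K) ≤ 32000 * ((x : ℝ) / T) * 1 :=
    mul_le_mul_of_nonneg_left (by linarith) (by positivity)
  have e2 : 16000 * ((x : ℝ) / T) ^ 2 * (1 - (1 / 2) ^ K) ≤ 16000 * ((x : ℝ) / T) ^ 2 * 1 :=
    mul_le_mul_of_nonneg_left (by linarith) (by positivity)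
  linarith

end Pool.Agent.Lib.MRT
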