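import Pool.Agent.Lib.MRT.Main
import Pool.Agent.Lib.MRT.Pars
import Pool.Agent.Lib.MRT.Tail

/-!
# MRT / Short (30 minutes): short windows in the logarithmic scale

PROOF. `mrj` with `η/2`: `A0, x0`. `h0 ≥ 1` with `32000 A0 + 16000 A0² ≤ (η/2) h0²`; for `h ≥ h0` let `X0 ≥ x0, A0, h`. `X ≥ X0`, `T = X/A0 ≥ 1`, `δ = h/X ≤ 1`. For a finite `J`: `|j| ≤ T`: `kap δ j ≤ δ²`, `mrj`: `≤ δ² (η/2) X² = (η/2) h²`; `|j| > T`: `tailj`, `X/T = A0`: `≤ 32000 A0 + 16000 A0² ≤ (η/2) h²`.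
`parsj` with `a = f`, `B = η h²` (`DD f X j = ∑_{n ∈ Ioc X (2X)} f n cj j n`: `⌊(X : ℝ)⌋₊ = X`, `⌊2 (X : ℝ)⌋₊ = 2 X`).
-/

set_option autoImplicit false

open Finset

namespace Pool.Agent.Lib.MRT

open Pool.Agent.Lib.MR (ex Pw PP VV om Om CM al dn lev)

private theorem sh_kap_le (δ : ℝ) (j : ℤ) : kap δ j ≤ δ ^ 2 := by
  unfold kap
  split_ifs
  · exact le_rfl
  · exact min_le_left _ _

private theorem sh_DD (f : ℕ → ℂ) (X : ℕ) (j : ℤ) :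
    DD f X j = ∑ n ∈ Ioc X (2 * X), f n * cj j n := by
  unfold DD
  have h1 : ⌊(X : ℝ)⌋₊ = X := Nat.floor_natCast X
  have h2 : ⌊2 * (X : ℝ)⌋₊ = 2 * X := by
    have : (2 : ℝ) * (X : ℝ) = ((2 * X : ℕ) : ℝ) := by push_cast; ring
    rw [this, Nat.floor_natCast]
  rw [h1, h2]

theorem shortj {f : ℕ → ℂ} (hf : CM f) (h : ExcP f) {η : ℝ} (hη : 0 < η) : ∃ h0 : ℝ, 1 ≤ h0 ∧ ∀ h : ℝ, h0 ≤ h →
    ∃ X0 : ℕ, ∀ X : ℕ, X0 ≤ X → ∫ θ in (Real.log X)..(Real.log (2 * X)), ‖GG f X (h / X) θ‖ ^ 2 ≤ η * h ^ 2 := by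
  obtain ⟨A0, hA0, x0, key⟩ := mrj hf h (half_pos hη)
  have hA : (0 : ℝ) < A0 := by exact_mod_cast hA0
  have hC : (0 : ℝ) < 32000 * (A0 : ℝ) + 16000 * (A0 : ℝ) ^ 2 := by positivity
  refine ⟨1 + (32000 * (A0 : ℝ) + 16000 * (A0 : ℝ) ^ 2) / (η / 2), ?_, fun h hh => ?_⟩
  · have : 0 ≤ (32000 * (A0 : ℝ) + 16000 * (A0 : ℝ) ^ 2) / (η / 2) := by positivity
    linarith
  have hdiv : 0 ≤ (32000 * (A0 : ℝ) + 16000 * (A0 : ℝ) ^ 2) / (η / 2) := by positivity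
  have hh1 : 1 ≤ h := by linarith
  have hh2 : 32000 * (A0 : ℝ) + 16000 * (A0 : ℝ) ^ 2 ≤ η / 2 * h ^ 2 := by
    have e1 : (32000 * (A0 : ℝ) + 16000 * (A0 : ℝ) ^ 2) / (η / 2) ≤ h := by linarith
    rw [div_le_iff₀ (by positivity)] at e1
    have e2 : h ≤ h ^ 2 := by nlinarith
    have e3 : h * (η / 2) ≤ η / 2 * h ^ 2 := by
      rw [mul_comm]
      exact mul_le_mul_of_nonneg_left e2 (by positivity)
    linarith
  refine ⟨max (max x0 A0) (max ⌈h⌉₊ 1), fun X hX => ?_⟩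
  have hX0 : x0 ≤ X := (le_max_left _ _).trans ((le_max_left _ _).trans hX)
  have hXA : A0 ≤ X := (le_max_right _ _).trans ((le_max_left _ _).trans hX)
  have hXh : ⌈h⌉₊ ≤ X := (le_max_left _ _).trans ((le_max_right _ _).trans hX)
  have hX1 : 1 ≤ X := (le_max_right _ _).trans ((le_max_right _ _).trans hX)
  have hXr : (1 : ℝ) ≤ X := by exact_mod_cast hX1
  have hXp : (0 : ℝ) < X := by linarith
  have hXh' : h ≤ X := (Nat.le_ceil h).trans (by exact_mod_cast hXh)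
  have hXA' : (A0 : ℝ) ≤ X := by exact_mod_cast hXA
  have hδ : 0 < h / X := by positivity
  have hδ1 : h / X ≤ 1 := (div_le_one hXp).2 hXh'
  refine parsj hX1 f hδ hδ1 fun J => ?_
  have hT : 1 ≤ (X : ℝ) / A0 := (one_le_div hA).2 hXA'
  have hXT : (X : ℝ) / ((X : ℝ) / A0) = A0 := by field_simp
  simp only [← sh_DD]
  rw [← Finset.sum_filter_add_sum_filter_not J (fun j : ℤ => |(j : ℝ)| ≤ (X : ℝ) / A0)]
  have p1 : ∑ j ∈ J.filter (fun j : ℤ => |(j : ℝ)| ≤ (X : ℝ) / A0), kap (h / X) j * ‖DD f X j‖ ^ 2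
      ≤ η / 2 * h ^ 2 := by
    have e1 := key X hX0 ((X : ℝ) / A0) hT (le_of_eq (by field_simp))
      (J.filter (fun j : ℤ => |(j : ℝ)| ≤ (X : ℝ) / A0)) (fun j hj => (mem_filter.1 hj).2)
    calc ∑ j ∈ J.filter (fun j : ℤ => |(j : ℝ)| ≤ (X : ℝ) / A0), kap (h / X) j * ‖DD f X j‖ ^ 2
        ≤ ∑ j ∈ J.filter (fun j : ℤ => |(j : ℝ)| ≤ (X : ℝ) / A0), (h / X) ^ 2 * ‖DD f X j‖ ^ 2 :=
          Finset.sum_le_sum fun j _ => mul_le_mul_of_nonneg_right (sh_kap_le _ _) (by positivity)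
      _ = (h / X) ^ 2 * ∑ j ∈ J.filter (fun j : ℤ => |(j : ℝ)| ≤ (X : ℝ) / A0), ‖DD f X j‖ ^ 2 := by
          rw [Finset.mul_sum]
      _ ≤ (h / X) ^ 2 * (η / 2 * (X : ℝ) ^ 2) := mul_le_mul_of_nonneg_left e1 (by positivity)
      _ = η / 2 * h ^ 2 := by field_simp
  have p2 : ∑ j ∈ J.filter (fun j : ℤ => ¬ |(j : ℝ)| ≤ (X : ℝ) / A0), kap (h / X) j * ‖DD f X j‖ ^ 2
      ≤ η / 2 * h ^ 2 := by
    have e1 := tailj hf hT hX1 (h / X) (J.filter (fun j : ℤ => ¬ |(j : ℝ)| ≤ (X : ℝ) / A0))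
      (fun j hj => not_le.1 (mem_filter.1 hj).2)
    rw [hXT] at e1
    exact e1.trans hh2
  linarith

end Pool.Agent.Lib.MRT
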