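import Pool.Agent.Lib.MRT.Mrt
import Pool.Agent.Lib.DN.LcCM
import Pool.Agent.Lib.MP_9fe581_an.HD.Rat

/-!
# MRT / ShortMu: the Möbius function against rational phases in almost all bounded intervals
-/

set_option autoImplicit false

open Finset

namespace Pool.Agent.Lib.MRT

open Pool.Agent.Lib.DN (lc lc0 lc0_cm lc0_eq)
open Pool.Agent.Lib.MP_9fe581_an.HD (ShortOrth rat)

/-- `ExcP` for the Liouville function twisted by characters gives the Möbius function with phases of finite order -/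
theorem short_mu_of (hE : ∀ (q : ℕ) [NeZero q] (χ : DirichletCharacter ℂ q), ExcP (lc0 χ)) {q : ℕ} (hq : 0 < q) {w : ℂ}
    (hw : w ^ q = 1) : ShortOrth (fun n => ((ArithmeticFunction.moebius n : ℤ) : ℂ)) w := by
  refine rat (fun r _ χ η hη => ?_) hq hw
  obtain ⟨L0, h0⟩ := mrt ⟨(lc0_cm χ).mul, (lc0_cm χ).le⟩ (hE r χ) η hη
  refine ⟨L0, fun L hL => ?_⟩
  obtain ⟨X0, h1⟩ := h0 L hL
  refine ⟨X0, fun X hX => ?_⟩
  refine (le_of_eq ?_).trans (h1 X hX)
  refine sum_congr rfl fun n hn => ?_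
  congr 1
  refine sum_congr rfl fun l _ => ?_
  have h2 : 1 ≤ n + l := by
    have := (mem_Ioc.mp hn).1
    omega
  exact (lc0_eq χ h2).symm

end Pool.Agent.Lib.MRT
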