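import Pool.Agent.Lib.MRT.Pair
import Pool.Agent.Lib.MRT.DecM
import Pool.Agent.Lib.MR.PrS

/-!
# MRT / Step: one step of the ladder

Copy of `MR.step` (`MR/Step`) with `VV_lev (κ := 1)`, `q = 1`: `dectj` (`H = E`, `a = E^2`, `b = E^3`, `V ≥ (1/2) log E`): error `x² (400000/log E + 200000/E)`; main term by `pairj` and `step_cover`: `≤ x²/E` (`stepnj`).
-/

set_option autoImplicit false

open Finset

namespace Pool.Agent.Lib.MRT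

open Pool.Agent.Lib.MR (ex Pw PP VV om Om CM al dn lev)

private theorem step_coverj {f : ℕ → ℂ} (E' : ℕ) (J : Finset ℤ)
    (hJ : ∀ j ∈ J, ¬ smallj f E' j) (g : ℤ → ℝ) (hg : ∀ j, 0 ≤ g j) (C : ℝ)
    (hC : ∀ v' ∈ Ico (E' ^ 2) (E' ^ 3),
      ∑ j ∈ J.filter (fun j => Real.exp ((1 - aj E') * ((v' : ℝ) / E')) ≤ ‖QJ f E' v' j‖), g j ≤ C) (hC0 : 0 ≤ C) :
    ∑ j ∈ J, g j ≤ (E' : ℝ) ^ 3 * C := by
  classical
  have h1 : ∑ j ∈ J, g j ≤ ∑ v' ∈ Ico (E' ^ 2) (E' ^ 3),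
      ∑ j ∈ J.filter (fun j => Real.exp ((1 - aj E') * ((v' : ℝ) / E')) ≤ ‖QJ f E' v' j‖), g j := by
    have h2 : ∀ v' ∈ Ico (E' ^ 2) (E' ^ 3),
        ∑ j ∈ J.filter (fun j => Real.exp ((1 - aj E') * ((v' : ℝ) / E')) ≤ ‖QJ f E' v' j‖), g j =
        ∑ j ∈ J, if Real.exp ((1 - aj E') * ((v' : ℝ) / E')) ≤ ‖QJ f E' v' j‖ then g j else 0 := by
      intro v' _
      rw [sum_filter]
    rw [sum_congr rfl h2, sum_comm]
    refine sum_le_sum fun j hj => ?_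
    have h3 := hJ j hj
    unfold smallj at h3
    push Not at h3
    obtain ⟨v', hv', hlt⟩ := h3
    have h4 := single_le_sum (f := fun v' : ℕ => if Real.exp ((1 - aj E') * ((v' : ℝ) / E')) ≤ ‖QJ f E' v' j‖ then g j else 0)
      (fun i _ => by
        split_ifs
        · exact hg j
        · exact le_rfl) hv'
    rw [if_pos hlt.le] at h4
    exact h4
  refine h1.trans ((sum_le_sum hC).trans ?_)
  rw [sum_const, nsmul_eq_mul, Nat.card_Ico]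
  refine mul_le_mul_of_nonneg_right ?_ hC0
  calc (((E' ^ 3 - E' ^ 2 : ℕ)) : ℝ) ≤ ((E' ^ 3 : ℕ) : ℝ) := by exact_mod_cast Nat.sub_le _ _
    _ = (E' : ℝ) ^ 3 := by push_cast; ring

theorem stepj : ∃ E1 : ℕ, ∀ E : ℕ, E1 ≤ E → ∀ (T : ℝ) (x : ℕ), 1 ≤ T → T ≤ x → ex E (E ^ 3) ^ 2 ≤ (x : ℝ) / E →
    ∀ f : ℕ → ℂ, CM f → ∀ J : Finset ℤ, (∀ j ∈ J, |(j : ℝ)| ≤ T) → (∀ j ∈ J, smallj f E j ∧ ¬ smallj f (dn E) j) →
    ∑ j ∈ J, ‖DD f x j‖ ^ 2 ≤ 1000000 * (x : ℝ) ^ 2 / Real.log E := by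
  classical
  obtain ⟨E0, hE0⟩ := MR.VV_lev (κ := 1) one_pos
  refine ⟨max E0 ⌈Real.exp 100⌉₊, ?_⟩
  intro E hE T x hT hTx hx f hf J hJT hJ
  have hE0' : E0 ≤ E := le_trans (le_max_left _ _) hE
  have hEr : Real.exp 100 ≤ E := (Nat.le_ceil _).trans (by exact_mod_cast (le_max_right _ _).trans hE)
  have hEpos : (0 : ℝ) < E := (Real.exp_pos _).trans_le hEr
  have hE1 : 1 ≤ E := by
    have : (0 : ℝ) < E := hEpos
    exact_mod_cast this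
  have hE4 : 4 ≤ E := by
    have h1 := Real.add_one_le_exp (100 : ℝ)
    have h2 : (4 : ℝ) ≤ E := by linarith
    exact_mod_cast h2
  have hlog : 100 ≤ Real.log E := by
    rw [Real.le_log_iff_exp_le hEpos]
    exact hEr
  have hlogE : Real.log E ≤ E := (Real.log_le_sub_one_of_pos hEpos).trans (by linarith)
  have hlpos : 0 < Real.log E := by linarith
  have hV := hE0 E hE0' 1 le_rfl (by rw [Nat.totient_one]; norm_num)
  have hV1 : 1 ≤ VV 1 E (E ^ 2) (E ^ 3) := by linarith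
  have hab : E ^ 2 ≤ E ^ 3 := Nat.pow_le_pow_right hE1 (by norm_num)
  have hd := dectj hf hE4 hab hT hTx hV1 hx J hJT
  -- the main term
  set X : ℝ := (x : ℝ) ^ 2 * ((E : ℝ) ^ 3 * Real.exp (- Real.sqrt E)) with hX
  have hX0 : 0 ≤ X := by positivity
  have hmain : ∀ v ∈ Ico (E ^ 2) (E ^ 3), ∑ j ∈ J, ‖QJ f E v j‖ ^ 2 * ‖DD f (x / ex E v) j‖ ^ 2 ≤
      ((dn E : ℕ) : ℝ) ^ 3 * X := by
    intro v hv
    refine step_coverj (f := f) (dn E) J (fun j hj => (hJ j hj).2) _ (fun j => by positivity) X ?_ hX0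
    intro v' hv'
    refine pairj hf hlog hT hTx hx hv hv' _ ?_ ?_
    · intro j hj
      rw [mem_filter] at hj
      exact hJT j hj.1
    · intro j hj
      rw [mem_filter] at hj
      exact ⟨(hJ j hj.1).1 v hv, hj.2⟩
  have hsum : ∑ v ∈ Ico (E ^ 2) (E ^ 3), ∑ j ∈ J, ‖QJ f E v j‖ ^ 2 * ‖DD f (x / ex E v) j‖ ^ 2 ≤
      (E : ℝ) ^ 3 * (((dn E : ℕ) : ℝ) ^ 3 * X) := by
    refine (sum_le_sum hmain).trans ?_
    rw [sum_const, nsmul_eq_mul, Nat.card_Ico]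
    refine mul_le_mul_of_nonneg_right ?_ (by positivity)
    calc (((E ^ 3 - E ^ 2 : ℕ)) : ℝ) ≤ ((E ^ 3 : ℕ) : ℝ) := by exact_mod_cast Nat.sub_le _ _
      _ = (E : ℝ) ^ 3 := by push_cast; ring
  have hS0 : 0 ≤ ∑ v ∈ Ico (E ^ 2) (E ^ 3), ∑ j ∈ J, ‖QJ f E v j‖ ^ 2 * ‖DD f (x / ex E v) j‖ ^ 2 :=
    sum_nonneg fun _ _ => sum_nonneg fun _ _ => by positivity
  have hfirst : 2 * (((E ^ 3 : ℕ) : ℝ) - ((E ^ 2 : ℕ) : ℝ)) *
      ∑ v ∈ Ico (E ^ 2) (E ^ 3), ∑ j ∈ J, ‖QJ f E v j‖ ^ 2 * ‖DD f (x / ex E v) j‖ ^ 2 ≤ (x : ℝ) ^ 2 * (1 / E) := by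
    have h1 : 2 * (((E ^ 3 : ℕ) : ℝ) - ((E ^ 2 : ℕ) : ℝ)) ≤ 2 * (E : ℝ) ^ 3 := by
      push_cast
      have : (0 : ℝ) ≤ (E : ℝ) ^ 2 := by positivity
      linarith
    calc 2 * (((E ^ 3 : ℕ) : ℝ) - ((E ^ 2 : ℕ) : ℝ)) *
        ∑ v ∈ Ico (E ^ 2) (E ^ 3), ∑ j ∈ J, ‖QJ f E v j‖ ^ 2 * ‖DD f (x / ex E v) j‖ ^ 2
        ≤ 2 * (E : ℝ) ^ 3 * ((E : ℝ) ^ 3 * (((dn E : ℕ) : ℝ) ^ 3 * X)) :=
          mul_le_mul h1 hsum hS0 (by positivity)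
      _ = (x : ℝ) ^ 2 * (2 * (E : ℝ) ^ 3 * ((E : ℝ) ^ 3 * ((dn E : ℝ) ^ 3 * ((E : ℝ) ^ 3 * Real.exp (- Real.sqrt E))))) := by
          rw [hX]; ring
      _ ≤ (x : ℝ) ^ 2 * (1 / E) := mul_le_mul_of_nonneg_left (stepnj hlog) (by positivity)
  have h24 : 200000 / VV 1 E (E ^ 2) (E ^ 3) ≤ 400000 / Real.log E := by
    rw [div_le_div_iff₀ (by linarith) hlpos]
    linarith
  have h41 : (200001 : ℝ) / E ≤ 200001 / Real.log E := div_le_div_of_nonneg_left (by norm_num) hlpos hlogE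
  have hx2 : (0 : ℝ) ≤ (x : ℝ) ^ 2 := by positivity
  calc ∑ j ∈ J, ‖DD f x j‖ ^ 2 ≤ (x : ℝ) ^ 2 * (1 / E) +
        (x : ℝ) ^ 2 * (200000 / VV 1 E (E ^ 2) (E ^ 3) + 200000 / E) := by
        refine hd.trans ?_
        linarith
    _ = (x : ℝ) ^ 2 * (200000 / VV 1 E (E ^ 2) (E ^ 3) + 200001 / E) := by ring
    _ ≤ (x : ℝ) ^ 2 * (400000 / Real.log E + 200001 / Real.log E) :=
        mul_le_mul_of_nonneg_left (by linarith) hx2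
    _ ≤ (x : ℝ) ^ 2 * (1000000 / Real.log E) := by
        refine mul_le_mul_of_nonneg_left ?_ hx2
        rw [← add_div]
        exact div_le_div_of_nonneg_right (by norm_num) hlpos.le
    _ = 1000000 * (x : ℝ) ^ 2 / Real.log E := by ring

end Pool.Agent.Lib.MRT
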